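import Pool.Agent.Helper98.HX.Defs

/-!
# HX-02: the flux out of a cell

`Y y = X p + A (y - p)`.  Each of the twelve segments has length `≤ 2 ρ` and its midpoint has distance `≤ ρ` from `p`, so `|fx X a b - fx Y a b| ≤ ε ρ * 2 ρ`.
For the affine field `∑ k (fx Y (z (k-1)) (q k) + fx Y (q k) (z k)) = tr A * al`: with `T = (A 1).re + (A I).im`, `cr (A a) b + cr a (A b) = T cr a b` (`A a = a.re A 1 + a.im A I`), so
`cr (A ((a + b)/2)) (b - a) = (T cr a b + cr (A b) b - cr (A a) a)/2`, and everything else telescopes around the closed polygon (`∑ k` over `Fin 6`; shift `k ↦ k + 1`, `Fin.sum_univ_six`);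
`G.al x = ∑ k (cr (q k) (z k) + cr (z k) (q (k+1)))/2`.
-/

namespace Pool.Agent.Helper98.HX

open Finset Real Pool.Agent.Helper98.LC

private theorem hx2_abs_cr (a b : ℂ) : |cr a b| ≤ ‖a‖ * ‖b‖ := by
  apply abs_le_of_sq_le_sq _ (by positivity)
  have ha : ‖a‖ ^ 2 = a.re ^ 2 + a.im ^ 2 := by
    rw [← Complex.normSq_eq_norm_sq, Complex.normSq_apply]; ring
  have hb : ‖b‖ ^ 2 = b.re ^ 2 + b.im ^ 2 := by
    rw [← Complex.normSq_eq_norm_sq, Complex.normSq_apply]; ring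
  rw [mul_pow, ha, hb, cr]
  nlinarith [sq_nonneg (a.re * b.re + a.im * b.im)]

private theorem hx2_seg (X : ℂ → ℂ) (p a b : ℂ) (A : ℂ →L[ℝ] ℂ) {ρ ε : ℝ} (hρ : 0 ≤ ρ)
    (hε : 0 ≤ ε) (ha : ‖a - p‖ ≤ ρ) (hb : ‖b - p‖ ≤ ρ)
    (hA : ∀ y, ‖y - p‖ ≤ ρ → ‖X y - X p - A (y - p)‖ ≤ ε * ρ) :
    |fx X a b - fx (fun y => X p + A (y - p)) a b| ≤ 2 * ε * ρ ^ 2 := by
  have hm : ‖(a + b) / 2 - p‖ ≤ ρ := by
    have e : (a + b) / 2 - p = (1 / 2 : ℝ) • ((a - p) + (b - p)) := by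
      rw [Complex.real_smul]
      push_cast
      ring
    rw [e, norm_smul, Real.norm_of_nonneg (by norm_num)]
    have := norm_add_le (a - p) (b - p)
    linarith
  have hd : ‖b - a‖ ≤ 2 * ρ := by
    have e : b - a = (b - p) - (a - p) := by ring
    rw [e]
    have := norm_sub_le (b - p) (a - p)
    linarith
  have e : fx X a b - fx (fun y => X p + A (y - p)) a b
      = cr (X ((a + b) / 2) - X p - A ((a + b) / 2 - p)) (b - a) := by
    simp only [fx, cr, Complex.sub_re, Complex.sub_im, Complex.add_re, Complex.add_im]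
    ring
  rw [e]
  refine (hx2_abs_cr _ _).trans ?_
  have h1 := hA _ hm
  calc ‖X ((a + b) / 2) - X p - A ((a + b) / 2 - p)‖ * ‖b - a‖
      ≤ (ε * ρ) * (2 * ρ) := mul_le_mul h1 hd (norm_nonneg _) (by positivity)
    _ = 2 * ε * ρ ^ 2 := by ring

private theorem hx2_lin (A : ℂ →L[ℝ] ℂ) (y : ℂ) :
    (A y).re = y.re * (A 1).re + y.im * (A Complex.I).re ∧
    (A y).im = y.re * (A 1).im + y.im * (A Complex.I).im := by
  have e : A y = y.re • A 1 + y.im • A Complex.I := by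
    rw [← map_smul, ← map_smul, ← map_add]
    congr 1
    simp [Complex.ext_iff]
  rw [e]
  simp

private theorem hx2_fx (X0 p a b : ℂ) (A : ℂ →L[ℝ] ℂ) :
    fx (fun y => X0 + A (y - p)) a b =
      ((A 1).re + (A Complex.I).im) * (cr a b / 2)
        + (cr (X0 - A p) b - cr (X0 - A p) a) + (cr (A b) b - cr (A a) a) / 2 := by
  obtain ⟨h1, h2⟩ := hx2_lin A ((a + b) / 2 - p)
  obtain ⟨h3, h4⟩ := hx2_lin A a
  obtain ⟨h5, h6⟩ := hx2_lin A b
  obtain ⟨h7, h8⟩ := hx2_lin A p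
  simp only [fx, cr, Complex.add_re, Complex.add_im, Complex.sub_re, Complex.sub_im, h1, h2, h3, h4,
    h5, h6, h7, h8]
  have e1 : ((a + b) / 2 : ℂ).re = (a.re + b.re) / 2 := by
    simp
  have e2 : ((a + b) / 2 : ℂ).im = (a.im + b.im) / 2 := by
    simp
  rw [e1, e2]
  ring

theorem cell_flux (X : ℂ → ℂ) (G : Net) (x : V) (p : ℂ) (A : ℂ →L[ℝ] ℂ) {ρ ε : ℝ} (hρ : 0 ≤ ρ)
    (hε : 0 ≤ ε) (hq : ∀ k, ‖G.q x k - p‖ ≤ ρ) (hz : ∀ k, ‖G.z x k - p‖ ≤ ρ)
    (hA : ∀ y, ‖y - p‖ ≤ ρ → ‖X y - X p - A (y - p)‖ ≤ ε * ρ) :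
    |∑ k, fd X G (x, k) - ((A 1).re + (A Complex.I).im) * G.al x| ≤ 24 * ε * ρ ^ 2 := by
  set Y : ℂ → ℂ := fun y => X p + A (y - p) with hY
  have hk : ∀ k, |fd X G (x, k) - fd Y G (x, k)| ≤ 4 * ε * ρ ^ 2 := by
    intro k
    have h1 := hx2_seg X p (G.z x (k - 1)) (G.q x k) A hρ hε (hz _) (hq _) hA
    have h2 := hx2_seg X p (G.q x k) (G.z x k) A hρ hε (hq _) (hz _) hA
    have e : fd X G (x, k) - fd Y G (x, k) =
        (fx X (G.z x (k - 1)) (G.q x k) - fx Y (G.z x (k - 1)) (G.q x k))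
          + (fx X (G.q x k) (G.z x k) - fx Y (G.q x k) (G.z x k)) := by
      simp only [fd]
      ring
    rw [e]
    refine (abs_add_le _ _).trans ?_
    linarith
  have hsum : ∑ k, fd Y G (x, k) = ((A 1).re + (A Complex.I).im) * G.al x := by
    have i0 : (0 : Fin 6) - 1 = 5 := rfl
    have i1 : (1 : Fin 6) - 1 = 0 := rfl
    have i2 : (2 : Fin 6) - 1 = 1 := rfl
    have i3 : (3 : Fin 6) - 1 = 2 := rfl
    have i4 : (4 : Fin 6) - 1 = 3 := rfl
    have i5 : (5 : Fin 6) - 1 = 4 := rfl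
    have j0 : (0 : Fin 6) + 1 = 1 := rfl
    have j1 : (1 : Fin 6) + 1 = 2 := rfl
    have j2 : (2 : Fin 6) + 1 = 3 := rfl
    have j3 : (3 : Fin 6) + 1 = 4 := rfl
    have j4 : (4 : Fin 6) + 1 = 5 := rfl
    have j5 : (5 : Fin 6) + 1 = 0 := rfl
    simp only [Net.al, Fin.sum_univ_six, fd, i0, i1, i2, i3, i4, i5, j0, j1, j2, j3, j4, j5, hY,
      hx2_fx]
    ring
  rw [← hsum, ← Finset.sum_sub_distrib]
  refine (Finset.abs_sum_le_sum_abs _ _).trans ?_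
  refine (Finset.sum_le_sum fun k _ => hk k).trans ?_
  simp only [Finset.sum_const, Finset.card_univ, Fintype.card_fin, nsmul_eq_mul]
  push_cast
  linarith

end Pool.Agent.Helper98.HX
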