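import Pool.Agent.Helper98.HX.Defs

/-!
# HX-12: weighted counting of cells

Proof of `count` (`Helper38/LCA/Riemann.lean`; copy its private lemmas `Qs_*`, `mem_Qs`): every `p` with `3/4 < u p` is in the square `Qs h x` of a cell `x` in `good`; these squares are disjoint with the area
`h²`, and `f p ≤ f (pos h x) + ε` for `p` in the square (`‖p - pos h x‖ ≤ 2 h`, `pos h x ∈ Sq R`).  So `∫_{E ∩ {3/4 < u}} f ≤ ∑_{good} ∫_{Qs h x} f ≤ ∑_{good} h² (f (pos h x) + ε)`.
-/

namespace Pool.Agent.Helper98.HX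

open Finset Real Pool.Agent.Helper98.LC Pool.Agent.Helper38.LCA MeasureTheory

/-- the half open square with the corner `pos h x` -/
private def Qs (h : ℝ) (x : V) : Set ℂ :=
  {p | h * (x.1 : ℝ) ≤ p.re ∧ p.re < h * ((x.1 : ℝ) + 1) ∧
    h * (x.2 : ℝ) ≤ p.im ∧ p.im < h * ((x.2 : ℝ) + 1)}

private theorem Qs_eq (h : ℝ) (x : V) :
    Qs h x = Complex.measurableEquivRealProd ⁻¹'
      (Set.Ico (h * (x.1 : ℝ)) (h * ((x.1 : ℝ) + 1)) ×ˢ
        Set.Ico (h * (x.2 : ℝ)) (h * ((x.2 : ℝ) + 1))) := by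
  ext p
  simp only [Qs, Set.mem_ofPred_eq, Set.mem_preimage, Set.mem_prod, Set.mem_Ico,
    Complex.measurableEquivRealProd_apply]
  tauto

private theorem Qs_meas (h : ℝ) (x : V) : MeasurableSet (Qs h x) := by
  rw [Qs_eq]
  exact Complex.measurableEquivRealProd.measurable (measurableSet_Ico.prod measurableSet_Ico)

private theorem Qs_vol {h : ℝ} (hh : 0 < h) (x : V) :
    volume (Qs h x) = ENNReal.ofReal (h ^ 2) := by
  rw [Qs_eq, Complex.volume_preserving_equiv_real_prod.measure_preimage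
    (measurableSet_Ico.prod measurableSet_Ico).nullMeasurableSet, Measure.volume_eq_prod,
    Measure.prod_prod, Real.volume_Ico, Real.volume_Ico, ← ENNReal.ofReal_mul (by nlinarith)]
  congr 1
  ring

private theorem Qs_disj {h : ℝ} (hh : 0 < h) {x y : V} (hxy : x ≠ y) :
    Disjoint (Qs h x) (Qs h y) := by
  rw [Set.disjoint_left]
  rintro p ⟨h1, h2, h3, h4⟩ ⟨h5, h6, h7, h8⟩
  apply hxy
  have key : ∀ a b : ℤ, h * (a : ℝ) < h * ((b : ℝ) + 1) → a ≤ b := by
    intro a b hab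
    have := lt_of_mul_lt_mul_left hab hh.le
    have h' : a < b + 1 := by exact_mod_cast this
    omega
  have a1 := key x.1 y.1 (by linarith)
  have a2 := key y.1 x.1 (by linarith)
  have a3 := key x.2 y.2 (by linarith)
  have a4 := key y.2 x.2 (by linarith)
  exact Prod.ext (le_antisymm a1 a2) (le_antisymm a3 a4)

/-- the square of a point -/
private theorem mem_Qs {h : ℝ} (hh : 0 < h) (p : ℂ) :
    p ∈ Qs h ((⌊p.re / h⌋, ⌊p.im / h⌋) : V) := by
  have key : ∀ t : ℝ, h * ((⌊t / h⌋ : ℤ) : ℝ) ≤ t ∧ t < h * (((⌊t / h⌋ : ℤ) : ℝ) + 1) := by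
    intro t
    have a1 := Int.floor_le (t / h)
    have a2 := Int.lt_floor_add_one (t / h)
    have e : h * (t / h) = t := by field_simp
    constructor
    · calc h * ((⌊t / h⌋ : ℤ) : ℝ) ≤ h * (t / h) := mul_le_mul_of_nonneg_left a1 hh.le
        _ = t := e
    · calc t = h * (t / h) := e.symm
        _ < h * (((⌊t / h⌋ : ℤ) : ℝ) + 1) := mul_lt_mul_of_pos_left a2 hh
  exact ⟨(key p.re).1, (key p.re).2, (key p.im).1, (key p.im).2⟩

open Classical in
theorem count2 {u f : ℂ → ℝ} {E : Set ℂ} {r R L h ε : ℝ} (hr : 0 < r) (hh : 0 < h)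
    (hR : r + 2 * h ≤ R) (hL : ∀ p ∈ Sq R, ∀ q ∈ Sq R, |u q - u p| ≤ L * ‖q - p‖)
    (hLh : 3 * L * h ≤ 1 / 8) (hL0 : 0 ≤ L) (hu : ∀ p, 3 / 4 < u p → p ∈ Sq r) {n : ℕ}
    (hn : r + h ≤ h * n) (huc : Continuous u) (hE : MeasurableSet E) (hf : Continuous f)
    (hf0 : ∀ p, 0 ≤ f p) (hε : 0 ≤ ε)
    (hosc : ∀ p ∈ Sq R, ∀ q, ‖q - p‖ ≤ 2 * h → f q ≤ f p + ε) :
    ∫ p in E ∩ {p | 3 / 4 < u p}, f p ≤
      ∑ x ∈ (box n).filter (fun x => 5 / 8 < u (pos h x) ∧ ∀ k, 5 / 8 < u (pos h (x + dir k))),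
        h ^ 2 * (f (pos h x) + ε) := by
  have near : ∀ p, 3 / 4 < u p → ∀ y : V, p ∈ Sq r →
      |h * (y.1 : ℝ) - p.re| ≤ 2 * h → |h * (y.2 : ℝ) - p.im| ≤ 2 * h → 5 / 8 < u (pos h y) := by
    intro p hp y hpr h1 h2
    obtain ⟨r1, r2⟩ := hpr
    have hpR : p ∈ Sq R := ⟨by linarith, by linarith⟩
    have hyR : pos h y ∈ Sq R := by
      rw [abs_le] at h1 h2 r1 r2
      refine ⟨?_, ?_⟩
      · show |h * (y.1 : ℝ)| ≤ R
        rw [abs_le]
        constructor <;> linarith
      · show |h * (y.2 : ℝ)| ≤ R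
        rw [abs_le]
        constructor <;> linarith
    have hn3 : ‖pos h y - p‖ ≤ 3 * h := by
      have e : ‖pos h y - p‖ ^ 2 =
          (h * (y.1 : ℝ) - p.re) ^ 2 + (h * (y.2 : ℝ) - p.im) ^ 2 := by
        rw [Complex.sq_norm, Complex.normSq_apply, Complex.sub_re, Complex.sub_im]
        show (h * (y.1 : ℝ) - p.re) * (h * (y.1 : ℝ) - p.re) +
          (h * (y.2 : ℝ) - p.im) * (h * (y.2 : ℝ) - p.im) = _
        ring
      have s1 : (h * (y.1 : ℝ) - p.re) ^ 2 ≤ (2 * h) ^ 2 := by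
        rw [← sq_abs]
        exact pow_le_pow_left₀ (abs_nonneg _) h1 2
      have s2 : (h * (y.2 : ℝ) - p.im) ^ 2 ≤ (2 * h) ^ 2 := by
        rw [← sq_abs]
        exact pow_le_pow_left₀ (abs_nonneg _) h2 2
      refine (pow_le_pow_iff_left₀ (norm_nonneg _) (by positivity) two_ne_zero).1 ?_
      rw [e]
      nlinarith [sq_nonneg h]
    have := hL p hpR (pos h y) hyR
    have h3 : L * ‖pos h y - p‖ ≤ L * (3 * h) := mul_le_mul_of_nonneg_left hn3 hL0
    rw [abs_le] at this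
    linarith [this.1]
  have hcov : {p | 3 / 4 < u p} ⊆
      ⋃ x ∈ (Helper98.LC.box n).filter fun x => 5 / 8 < u (pos h x) ∧ ∀ k, 5 / 8 < u (pos h (x + dir k)),
        Qs h x := by
    intro p hp
    have hp' : 3 / 4 < u p := hp
    have hpr := hu p hp'
    have hQ := mem_Qs hh p
    set x : V := (⌊p.re / h⌋, ⌊p.im / h⌋) with hx
    obtain ⟨q1, q2, q3, q4⟩ := hQ
    have hpr' := hpr
    obtain ⟨r1, r2⟩ := hpr'
    rw [abs_le] at r1 r2
    rw [Set.mem_iUnion₂]
    refine ⟨x, ?_, ⟨q1, q2, q3, q4⟩⟩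
    rw [mem_filter]
    refine ⟨?_, ?_, ?_⟩
    · simp only [Helper98.LC.box, mem_product, mem_Icc]
      have key1 : ∀ a : ℤ, -(r) ≤ h * ((a : ℝ) + 1) → -(n : ℤ) ≤ a := by
        intro a ha
        have : h * (-(n : ℝ)) ≤ h * (a : ℝ) := by nlinarith
        have := le_of_mul_le_mul_left this hh
        exact_mod_cast this
      have key2 : ∀ a : ℤ, h * (a : ℝ) ≤ r → a ≤ (n : ℤ) := by
        intro a ha
        have : h * (a : ℝ) ≤ h * (n : ℝ) := by nlinarith
        have := le_of_mul_le_mul_left this hh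
        exact_mod_cast this
      exact ⟨⟨key1 _ (by linarith), key2 _ (by linarith)⟩,
        key1 _ (by linarith), key2 _ (by linarith)⟩
    · refine near p hp' x hpr ?_ ?_
      · rw [abs_le]
        constructor <;> linarith
      · rw [abs_le]
        constructor <;> linarith
    · intro k
      have d1 : -1 ≤ ((dir k).1 : ℤ) ∧ (dir k).1 ≤ (1 : ℤ) := by
        fin_cases k <;> simp [dir]
      have d2 : -1 ≤ ((dir k).2 : ℤ) ∧ (dir k).2 ≤ (1 : ℤ) := by
        fin_cases k <;> simp [dir]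
      have e1 : (((x + dir k).1 : ℤ) : ℝ) = (x.1 : ℝ) + ((dir k).1 : ℝ) := by
        rw [Prod.fst_add]
        push_cast
        ring
      have e2 : (((x + dir k).2 : ℤ) : ℝ) = (x.2 : ℝ) + ((dir k).2 : ℝ) := by
        rw [Prod.snd_add]
        push_cast
        ring
      have f1 : (-1 : ℝ) ≤ ((dir k).1 : ℝ) := by exact_mod_cast d1.1
      have f2 : ((dir k).1 : ℝ) ≤ 1 := by exact_mod_cast d1.2
      have f3 : (-1 : ℝ) ≤ ((dir k).2 : ℝ) := by exact_mod_cast d2.1
      have f4 : ((dir k).2 : ℝ) ≤ 1 := by exact_mod_cast d2.2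
      refine near p hp' (x + dir k) hpr ?_ ?_
      · rw [e1, abs_le]
        constructor <;> nlinarith
      · rw [e2, abs_le]
        constructor <;> nlinarith
  have hun : MeasurableSet {p : ℂ | 3 / 4 < u p} :=
    (isOpen_lt continuous_const huc).measurableSet
  have hnorm : ∀ (x : V) (p : ℂ), p ∈ Qs h x → ‖p - pos h x‖ ≤ 2 * h := by
    intro x p hp
    obtain ⟨h1, h2, h3, h4⟩ := hp
    refine (Complex.norm_le_abs_re_add_abs_im _).trans ?_
    have c1 : |(p - pos h x).re| ≤ h := by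
      rw [Complex.sub_re]
      show |p.re - h * (x.1 : ℝ)| ≤ h
      rw [abs_le]
      constructor <;> linarith
    have c2 : |(p - pos h x).im| ≤ h := by
      rw [Complex.sub_im]
      show |p.im - h * (x.2 : ℝ)| ≤ h
      rw [abs_le]
      constructor <;> linarith
    linarith
  have hint : ∀ x : V, IntegrableOn f (Qs h x) := by
    intro x
    refine (hf.continuousOn.integrableOn_compact (isCompact_closedBall (pos h x) (2 * h))).mono_set ?_
    intro p hp
    rw [Metric.mem_closedBall, dist_eq_norm]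
    exact hnorm x p hp
  have hmeas : ∀ x : V, MeasurableSet ((E ∩ {p | 3 / 4 < u p}) ∩ Qs h x) := fun x =>
    (hE.inter hun).inter (Qs_meas h x)
  have hone : ∀ x : V, ∫ p in (E ∩ {p | 3 / 4 < u p}) ∩ Qs h x, f p ≤
      h ^ 2 * (f (pos h x) + ε) := by
    intro x
    have hpos0 : 0 ≤ h ^ 2 * (f (pos h x) + ε) := by
      have := hf0 (pos h x)
      positivity
    rcases Set.eq_empty_or_nonempty ((E ∩ {p | 3 / 4 < u p}) ∩ Qs h x) with he | ⟨p0, ⟨_, hp0⟩, hq0⟩
    · rw [he, setIntegral_empty]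
      exact hpos0
    · have hp0r := hu p0 hp0
      have hx : pos h x ∈ Sq R := by
        obtain ⟨r1, r2⟩ := hp0r
        obtain ⟨h1, h2, h3, h4⟩ := hq0
        rw [abs_le] at r1 r2
        refine ⟨?_, ?_⟩
        · show |h * (x.1 : ℝ)| ≤ R
          rw [abs_le]
          constructor <;> linarith
        · show |h * (x.2 : ℝ)| ≤ R
          rw [abs_le]
          constructor <;> linarith
      calc ∫ p in (E ∩ {p | 3 / 4 < u p}) ∩ Qs h x, f p
          ≤ ∫ p in Qs h x, f p := by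
            refine setIntegral_mono_set (hint x) ?_ ?_
            · exact Filter.Eventually.of_forall fun p => hf0 p
            · exact (Set.inter_subset_right).eventuallyLE
        _ ≤ ∫ _p in Qs h x, (f (pos h x) + ε) := by
            refine setIntegral_mono_on (hint x) ?_ (Qs_meas h x) ?_
            · refine integrableOn_const ?_ ?_
              · rw [Qs_vol hh]
                exact ENNReal.ofReal_ne_top
              · exact enorm_ne_top
            · intro p hp
              exact hosc _ hx p (hnorm x p hp)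
        _ = h ^ 2 * (f (pos h x) + ε) := by
            rw [setIntegral_const, smul_eq_mul, Measure.real, Qs_vol hh,
              ENNReal.toReal_ofReal (by positivity)]
  set S := (Helper98.LC.box n).filter
    (fun x => 5 / 8 < u (pos h x) ∧ ∀ k, 5 / 8 < u (pos h (x + dir k))) with hS
  have hcov2 : E ∩ {p | 3 / 4 < u p} = ⋃ x ∈ S, (E ∩ {p | 3 / 4 < u p}) ∩ Qs h x := by
    ext p
    constructor
    · intro hp
      have h1 := hcov hp.2
      rw [Set.mem_iUnion₂] at h1 ⊢
      obtain ⟨x, hx, hpx⟩ := h1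
      exact ⟨x, hx, hp, hpx⟩
    · intro hp
      rw [Set.mem_iUnion₂] at hp
      obtain ⟨x, _, hpx⟩ := hp
      exact hpx.1
  calc ∫ p in E ∩ {p | 3 / 4 < u p}, f p
      = ∫ p in ⋃ x ∈ S, (E ∩ {p | 3 / 4 < u p}) ∩ Qs h x, f p := by rw [← hcov2]
    _ = ∑ x ∈ S, ∫ p in (E ∩ {p | 3 / 4 < u p}) ∩ Qs h x, f p := by
        rw [integral_biUnion_finset S (fun x _ => hmeas x)
          (fun x _ y _ hxy => (Qs_disj hh hxy).mono Set.inter_subset_right Set.inter_subset_right)
          (fun x _ => (hint x).mono_set Set.inter_subset_right)]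
    _ ≤ ∑ x ∈ S, h ^ 2 * (f (pos h x) + ε) := Finset.sum_le_sum fun x _ => hone x

end Pool.Agent.Helper98.HX
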