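import Pool.Agent.Helper98.HX.Defs
import Pool.Agent.Helper38.LCA.Approx

/-!
# HX-11: smooth partitions which are close to the given one

* `vol_ge2`: part of the proof of `vol_ge` (`Helper38/LCA/One.lean`): `h4` there (`1/4 ≤ 1 - ml` iff `ml ≤ 3/4`).
* `exists_smooth2`: copy `exists_smooth` (`Helper38/LCA/Approx.lean`), with `n` also larger than the numbers of `vol_ge2`.
-/

namespace Pool.Agent.Helper98.HX

open Finset Real Pool.Agent.Helper98.LC Pool.Agent.Helper38.LCA MeasureTheory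

theorem vol_ge2 {E : Set ℂ} (hE : MeasurableSet E) {A κ : ℝ} (hv : volume E = ENNReal.ofReal A)
    (hκ : 0 < κ) :
    ∃ n₀ : ℕ, ∀ n, n₀ ≤ n → volume (E ∩ {p | ml n E p ≤ 3 / 4}) ≤ ENNReal.ofReal κ := by
  have hfin : volume E < ⊤ := by
    rw [hv]
    exact ENNReal.ofReal_lt_top
  have : IsFiniteMeasure (volume.restrict E) := ⟨by rwa [Measure.restrict_apply_univ]⟩
  have hm : ∀ n, AEStronglyMeasurable (fun p => 1 - ml n E p) (volume.restrict E) := fun n =>
    (continuous_const.sub (ml_smooth n hE).continuous).aestronglyMeasurable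
  have hb : ∀ n p, ‖1 - ml n E p‖ ≤ 1 := by
    intro n p
    rw [Real.norm_eq_abs, abs_le]
    have h1 := ml_nonneg n E p
    have h2 := ml_le_one n hE p
    constructor <;> linarith
  have hlim : Filter.Tendsto (fun n => ∫ p in E, (1 - ml n E p)) Filter.atTop (nhds (∫ _p in E, (0 : ℝ))) := by
    refine tendsto_integral_of_dominated_convergence (fun _ => (1 : ℝ)) hm (integrable_const _)
      (fun n => Filter.Eventually.of_forall fun p => hb n p) ?_
    rw [ae_restrict_iff' hE]
    filter_upwards [ml_ae hE] with p hp hpE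
    rw [Set.indicator_of_mem hpE] at hp
    have := hp.const_sub 1
    rwa [sub_self] at this
  rw [integral_zero] at hlim
  have hev := hlim.eventually (gt_mem_nhds (show (0 : ℝ) < κ / 4 by linarith))
  obtain ⟨n₀, hn₀⟩ := Filter.eventually_atTop.1 hev
  refine ⟨n₀, fun n hn => ?_⟩
  have h1 : ∫ p in E, (1 - ml n E p) < κ / 4 := hn₀ n hn
  have hint : Integrable (fun p => 1 - ml n E p) (volume.restrict E) :=
    Integrable.of_bound (hm n) 1 (Filter.Eventually.of_forall fun p => hb n p)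
  have h2 := mul_meas_ge_le_integral_of_nonneg (μ := volume.restrict E)
    (f := fun p => 1 - ml n E p) (Filter.Eventually.of_forall fun p => by
      have := ml_le_one n hE p
      simp only [Pi.zero_apply]
      linarith) hint (1 / 4)
  have h3 : (volume.restrict E).real {p | 1 / 4 ≤ 1 - ml n E p} ≤ κ := by linarith
  have h4 : (volume.restrict E) {p | 1 / 4 ≤ 1 - ml n E p} ≤ ENNReal.ofReal κ := by
    rw [← ENNReal.ofReal_toReal (measure_ne_top (volume.restrict E) {p | 1 / 4 ≤ 1 - ml n E p})]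
    exact ENNReal.ofReal_le_ofReal h3
  have h5 : volume (E ∩ {p | ml n E p ≤ 3 / 4}) ≤
      (volume.restrict E) {p | 1 / 4 ≤ 1 - ml n E p} := by
    have hms : MeasurableSet {p | 1 / 4 ≤ 1 - ml n E p} :=
      measurableSet_le measurable_const
        (continuous_const.sub (ml_smooth n hE).continuous).measurable
    rw [Measure.restrict_apply hms]
    refine measure_mono fun p hp => ⟨?_, hp.1⟩
    have := hp.2
    simp only [Set.mem_setOf_eq] at this ⊢
    linarith
  exact h5.trans h4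

theorem exists_smooth2 {N : ℕ} {E : Fin (N + 1) → Set ℂ} (hE : IsPart E) {κ : ℝ} (hκ : 0 < κ) :
    ∃ (r : ℝ) (u : Fin (N + 1) → ℂ → ℝ), 0 < r ∧ SmoothPart E κ r u ∧
      ∀ i : Fin N, volume (E i.succ ∩ {p | u i.succ p ≤ 3 / 4}) ≤ ENNReal.ofReal κ := by
  have hN : (0 : ℝ) < (N : ℝ) + 1 := by positivity
  have hKN : 0 ≤ KN N := by unfold KN; positivity
  have h1 := fun i => one (hE.meas i) (hE.per i) hKN (κ := κ / ((N : ℝ) + 1)) (by positivity)
  choose n₁ r₁ H₁ using h1
  have h2 := fun i : Fin N => vol_ge (hE.meas i.succ) (A := A0) (κ := κ) (hE.vol i) hκ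
  choose n₂ H₂ using h2
  have h2' := fun i : Fin N => vol_ge2 (hE.meas i.succ) (A := A0) (κ := κ) (hE.vol i) hκ
  choose n₄ H₄ using h2'
  obtain ⟨n, hn⟩ : ∃ n, n = (∑ i, n₁ i) + (∑ i, n₂ i) + ∑ i, n₄ i := ⟨_, rfl⟩
  have hn1 : ∀ i, n₁ i ≤ n := fun i => by
    have := Finset.single_le_sum (f := n₁) (fun j _ => Nat.zero_le _) (Finset.mem_univ i)
    omega
  have hn2 : ∀ i, n₂ i ≤ n := fun i => by
    have := Finset.single_le_sum (f := n₂) (fun j _ => Nat.zero_le _) (Finset.mem_univ i)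
    omega
  have hn4 : ∀ i, n₄ i ≤ n := fun i => by
    have := Finset.single_le_sum (f := n₄) (fun j _ => Nat.zero_le _) (Finset.mem_univ i)
    omega
  have h3 := fun i : Fin N => ml_far n (hE.meas i.succ) (by
    rw [hE.vol i]
    exact ENNReal.ofReal_lt_top) (κ := 1 / (8 * ((N : ℝ) + 1))) (by positivity)
  choose r₃ hr₃ H₃ using h3
  obtain ⟨r, hr⟩ : ∃ r, r = 1 + (∑ i, |r₁ i|) + ∑ i, |r₃ i| := ⟨_, rfl⟩
  have hr0 : 0 < r := by
    rw [hr]
    have := Finset.sum_nonneg (s := Finset.univ) (f := fun i => |r₁ i|) fun i _ => abs_nonneg _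
    have := Finset.sum_nonneg (s := Finset.univ) (f := fun i => |r₃ i|) fun i _ => abs_nonneg _
    linarith
  have hr1 : ∀ i, r₁ i ≤ r := fun i => by
    have h4 := Finset.single_le_sum (f := fun i => |r₁ i|) (fun j _ => abs_nonneg _)
      (Finset.mem_univ i)
    have h5 := Finset.sum_nonneg (s := Finset.univ) (f := fun i => |r₃ i|) fun i _ => abs_nonneg _
    have h6 := le_abs_self (r₁ i)
    linarith
  have hr3 : ∀ i, r₃ i ≤ r := fun i => by
    have h4 := Finset.single_le_sum (f := fun i => |r₃ i|) (fun j _ => abs_nonneg _)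
      (Finset.mem_univ i)
    have h5 := Finset.sum_nonneg (s := Finset.univ) (f := fun i => |r₁ i|) fun i _ => abs_nonneg _
    have h6 := le_abs_self (r₃ i)
    linarith
  have hu : ∀ i, ContDiff ℝ 2 (ml n (E i)) := fun i => ml_smooth n (hE.meas i)
  have hnn : ∀ i p, 0 ≤ ml n (E i) p := fun i p => ml_nonneg n (E i) p
  have hsum : ∀ p, ∑ i, ml n (E i) p = 1 := fun p => ml_sum n hE p
  refine ⟨r, fun i => ml n (E i), hr0, ⟨hu, hnn, hsum, ?_, ?_, ?_⟩, fun i => H₄ i n (hn4 i)⟩
  · intro p hp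
    have h4 := hsum p
    rw [Fin.sum_univ_succ] at h4
    have h5 : ∑ i : Fin N, ml n (E i.succ) p ≤ ∑ _i : Fin N, 1 / (8 * ((N : ℝ) + 1)) :=
      Finset.sum_le_sum fun i _ => H₃ i p ((hr3 i).trans hp)
    rw [Finset.sum_const, Finset.card_univ, Fintype.card_fin, nsmul_eq_mul] at h5
    have h6 : (N : ℝ) * (1 / (8 * ((N : ℝ) + 1))) ≤ 1 / 8 := by
      rw [mul_one_div, div_le_div_iff₀ (by positivity) (by norm_num)]
      linarith
    linarith
  · intro i
    exact H₂ i n (hn2 i)
  · intro ρ hρ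
    have hρ0 : 0 < ρ := lt_of_lt_of_le hr0 hρ
    -- the cut-off function
    let χ : ContDiffBump (0 : ℂ) := ⟨2 * ρ + 1, 2 * ρ + 2, by linarith, by linarith⟩
    have hχs : ContDiff ℝ 1 (fun p => χ p) := χ.contDiff
    have hχc : HasCompactSupport (fun p => χ p) := χ.hasCompactSupport
    have hχ01 : ∀ p, 0 ≤ χ p ∧ χ p ≤ 1 := fun p => ⟨χ.nonneg, χ.le_one⟩
    have hχ1 : ∀ p, ‖p‖ ≤ 2 * ρ + 1 → χ p = 1 := fun p hp =>
      χ.one_of_mem_closedBall (by rwa [mem_closedBall_zero_iff])
    have hF := no_F_cont hu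
    have hF0 := no_F_nonneg hu hnn hsum
    have i1 : Integrable (fun p => χ p * ∑ i, ‖gr (ml n (E i)) p‖ * GK (KN N) (ml n (E i) p)) :=
      (hχs.continuous.mul hF).integrable_of_hasCompactSupport hχc.mul_right
    have h4 : ∫ p in Sq ρ, ∑ i, ‖gr (ml n (E i)) p‖ * GK (KN N) (ml n (E i) p) ≤
        ∫ p, χ p * ∑ i, ‖gr (ml n (E i)) p‖ * GK (KN N) (ml n (E i) p) := by
      have h5 : ∫ p in Sq ρ, ∑ i, ‖gr (ml n (E i)) p‖ * GK (KN N) (ml n (E i) p) =
          ∫ p in Sq ρ, χ p * ∑ i, ‖gr (ml n (E i)) p‖ * GK (KN N) (ml n (E i) p) := by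
        refine setIntegral_congr_fun (Sq_meas ρ) fun p hp => ?_
        rw [hχ1 p ((Complex.norm_le_abs_re_add_abs_im p).trans (by
          have := hp.1
          have := hp.2
          linarith)), one_mul]
      rw [h5]
      exact setIntegral_le_integral i1 (Filter.Eventually.of_forall fun p =>
        mul_nonneg (hχ01 p).1 (hF0 p))
    have h6 : ∫ p, χ p * ∑ i, ‖gr (ml n (E i)) p‖ * GK (KN N) (ml n (E i) p) =
        ∑ i, ∫ p, χ p * (‖gr (ml n (E i)) p‖ * GK (KN N) (ml n (E i) p)) := by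
      rw [← integral_finsetSum]
      · refine integral_congr_ae (Filter.Eventually.of_forall fun p => ?_)
        simp only
        rw [Finset.mul_sum]
      · intro i _
        exact (hχs.continuous.mul (((gr_cont (hu i)).continuous.norm).mul
          ((no_GK_cont _).comp (hu i).continuous))).integrable_of_hasCompactSupport hχc.mul_right
    have h7 : ∑ i, ∫ p, χ p * (‖gr (ml n (E i)) p‖ * GK (KN N) (ml n (E i) p)) ≤
        ∑ i, (P (E i) / 2 + κ / ((N : ℝ) + 1)) := by
      refine Finset.sum_le_sum fun i _ => ?_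
      refine H₁ i n (hn1 i) (fun p => χ p) hχs hχc hχ01 fun p hp => hχ1 p ?_
      have := hr1 i
      linarith
    have h8 : ∑ i : Fin (N + 1), (P (E i) / 2 + κ / ((N : ℝ) + 1)) = (∑ i, P (E i)) / 2 + κ := by
      rw [Finset.sum_add_distrib, ← Finset.sum_div, Finset.sum_const, Finset.card_univ,
        Fintype.card_fin, nsmul_eq_mul]
      congr 1
      push_cast
      field_simp
    linarith

end Pool.Agent.Helper98.HX
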