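import Pool.Agent.Helper98.HX.Net2
import Pool.Agent.Helper98.HX.Smooth2
import Pool.Agent.Helper98.HX.Count2
import Pool.Agent.Helper98.HX.Cell

/-!
# HX-13: the approximation theorem with weights

`E = Fin.cons (⋃ i, R i)ᶜ R` as in `approx` (`Helper38/LCA/Approx.lean`), `κ` small: `κ ≤ min (δ/4) (δ A0)` and `2 M N κ ≤ δ/2`.  `r, u` from `exists_smooth2`, `R = r + 3`, `L` a common Lipschitz constant of the `u i` on `Sq R`
(`lip_Sq`, see `net_of_smooth`), `ε > 0` with `ε (2 R)² ≤ δ/4`; `f` is uniformly continuous on the compact set `Sq (R + 1)`: `η` such that `|f q - f p| ≤ ε` for `p ∈ Sq R`, `‖q - p‖ ≤ η`.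
`h₁ = min (1/2) ..` with `2 h₁ ≤ η`, `3 L h₁ ≤ 1/8`, `768 K R² h₁ ≤ δ`.  `G, n, c, h` from `net2`; `g x = f (pos h x) * G.al x`.
* `Wt`: `nonneg`, `le` clear (`al ≥ 0`: `G.area_nonneg`).  `flux`: `cell_flux` with `ρ = 2 h`, `ε = 2 K h` (`Fld2.deriv`): each term `≤ 192 K h³`, the box has `(2 n + 1)²` elements, `h (2 n + 1) ≤ 2 R`.
* weights: `∫_{⋃ R i} f = ∑ i ∫_{R i} f` (disjoint; `f` is bounded, the volumes are finite) and `∫_{R i} f ≤ ∫_{R i ∩ {3/4 < u}} f + 2 M κ`, `count2`: `≤ ∑_{good i} h² (f (pos h x) + ε) + 2 M κ`; for `x ∈ good i`: `c x = i.succ`,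
  `al x = h²` (`NetOut.good`), so `h² f (pos h x) = g x`; the sets `good i` are disjoint subsets of `{x ∈ box n | c x ≠ 0}`; `∑ i ∑_{good i} h² ε ≤ (2 n + 1)² h² ε ≤ δ/4`.
-/

namespace Pool.Agent.Helper98.HX

open Finset Real Pool.Agent.Helper98.LC Pool.Agent.Helper38.LCA MeasureTheory

private lemma ap2_part {N : ℕ} {R : Fin N → Set ℂ} (hR : Pool.Agent.Helper79.HC.IsCluster R)
    (hP : Pool.Agent.Helper79.HC.clusterPer R < ⊤) :
    ∃ E : Fin (N + 1) → Set ℂ, IsPart E ∧ (∀ i : Fin N, E i.succ = R i) ∧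
      ∑ i, P (E i) = 2 * (Pool.Agent.Helper79.HC.clusterPer R).toReal := by
  obtain ⟨E, hEdef⟩ : ∃ E : Fin (N + 1) → Set ℂ, E = Fin.cons (⋃ i, R i)ᶜ R := ⟨_, rfl⟩
  have hE0 : E 0 = (⋃ i, R i)ᶜ := by rw [hEdef]; rfl
  have hEs : ∀ i : Fin N, E i.succ = R i := fun i => by rw [hEdef]; rfl
  have hPout : Pool.Agent.Helper79.HC.Per (⋃ i, R i)ᶜ < ⊤ := by
    unfold Pool.Agent.Helper79.HC.clusterPer at hP
    rw [lt_top_iff_ne_top] at hP ⊢
    intro h
    apply hP
    rw [h, top_add]
    exact ENNReal.top_div_of_ne_top (by norm_num)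
  have hE : IsPart E := by
    refine ⟨?_, ?_, ?_, ?_, ?_⟩
    · intro i
      refine Fin.cases ?_ (fun i => ?_) i
      · rw [hE0]
        exact (MeasurableSet.iUnion hR.measurable).compl
      · rw [hEs]
        exact hR.measurable i
    · have h1 : ∀ i : Fin N, Disjoint (E 0) (E i.succ) := by
        intro i
        rw [hE0, hEs, Set.disjoint_left]
        intro x hx hxi
        exact hx (Set.mem_iUnion.2 ⟨i, hxi⟩)
      intro i j
      refine Fin.cases ?_ (fun i => ?_) i
      · refine Fin.cases (fun h => absurd rfl h) (fun j _ => h1 j) j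
      · refine Fin.cases (fun _ => (h1 i).symm) (fun j hij => ?_) j
        rw [hEs, hEs]
        exact hR.disjoint i j fun h => hij (by rw [h])
    · rw [Set.eq_univ_iff_forall]
      intro x
      rw [Set.mem_iUnion]
      by_cases hx : x ∈ ⋃ i, R i
      · obtain ⟨i, hi⟩ := Set.mem_iUnion.1 hx
        exact ⟨i.succ, by rwa [hEs]⟩
      · exact ⟨0, by rw [hE0]; exact hx⟩
    · intro i
      rw [hEs]
      exact hR.area i
    · intro i
      refine Fin.cases ?_ (fun i => ?_) i
      · rw [hE0]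
        exact hPout
      · rw [hEs]
        exact hR.finite i
  refine ⟨E, hE, hEs, ?_⟩
  rw [Fin.sum_univ_succ]
  unfold Pool.Agent.Helper79.HC.clusterPer
  rw [ENNReal.toReal_div, ENNReal.toReal_add hPout.ne
    (ENNReal.sum_lt_top.2 fun i _ => hR.finite i).ne,
    ENNReal.toReal_sum fun i _ => (hR.finite i).ne]
  have h2 : ∀ i : Fin N, P (E i.succ) = (Pool.Agent.Helper79.HC.Per (R i)).toReal := fun i => by
    rw [hEs]
    rfl
  rw [Finset.sum_congr rfl fun i _ => h2 i]
  have h3 : P (E 0) = (Pool.Agent.Helper79.HC.Per (⋃ i, R i)ᶜ).toReal := by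
    rw [hE0]
    rfl
  rw [h3]
  simp only [ENNReal.toReal_ofNat]
  ring

private lemma ap2_split {N : ℕ} (c : V → Fin (N + 1)) (w : V → ℝ) (s : Finset V) :
    ∑ x ∈ s.filter (fun x => c x ≠ 0), w x =
      ∑ i : Fin N, ∑ x ∈ s.filter (fun x => c x = i.succ), w x := by
  simp only [Finset.sum_filter]
  rw [Finset.sum_comm]
  refine Finset.sum_congr rfl fun x _ => ?_
  generalize c x = j
  refine Fin.cases ?_ (fun j => ?_) j
  · rw [if_neg (by simp)]
    symm
    refine Finset.sum_eq_zero fun i _ => ?_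
    rw [if_neg (Fin.succ_ne_zero i).symm]
  · rw [if_pos (Fin.succ_ne_zero j), Finset.sum_eq_single j]
    · rw [if_pos rfl]
    · intro i _ hij
      rw [if_neg]
      intro h
      exact hij (Fin.succ_injective _ h).symm
    · intro h
      exact absurd (Finset.mem_univ j) h

theorem approx2 {N : ℕ} {R : Fin N → Set ℂ} (hR : Pool.Agent.Helper79.HC.IsCluster R)
    (hP : Pool.Agent.Helper79.HC.clusterPer R < ⊤) {X : ℂ → ℂ} {f : ℂ → ℝ} {M K : ℝ}
    (hX : Fld2 X f M K) {δ : ℝ} (hδ : 0 < δ) :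
    ∃ (G : Net) (n : ℕ) (c : V → Fin (N + 1)) (g : V → ℝ), OutBox c 0 n ∧
      (∀ i : Fin N, 1 - δ ≤ ar G c n i.succ) ∧
      per2 G c n ≤ 2 * (Pool.Agent.Helper79.HC.clusterPer R).toReal + δ ∧
      Wt X M G n g δ ∧ ∫ p in ⋃ i, R i, f p ≤ gs g c 0 n + δ := by
  classical
  have hA0 : 0 < A0 := by unfold A0; positivity
  have hM : 0 ≤ M := hX.nonneg
  have hK : 0 ≤ K := hX.Knn
  obtain ⟨E, hE, hEs, hsum⟩ := ap2_part hR hP
  obtain ⟨κ, hκ⟩ : ∃ κ, κ = min (min (δ / 4) (δ * A0)) (δ / (4 * M * N + 1) / 2) := ⟨_, rfl⟩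
  have hMN : 0 ≤ M * N := by positivity
  have hκ0 : 0 < κ := by
    rw [hκ]
    refine lt_min (lt_min (by linarith) (by positivity)) ?_
    have : 0 < 4 * M * N + 1 := by nlinarith
    positivity
  have hκ1 : κ ≤ δ / 4 := by rw [hκ]; exact (min_le_left _ _).trans (min_le_left _ _)
  have hκ2 : κ ≤ δ * A0 := by rw [hκ]; exact (min_le_left _ _).trans (min_le_right _ _)
  have hκ3 : 2 * M * N * κ ≤ δ / 2 := by
    have h1 : κ ≤ δ / (4 * M * N + 1) / 2 := by rw [hκ]; exact min_le_right _ _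
    have h2 : 0 < 4 * M * N + 1 := by nlinarith
    have h3 : (4 * M * N + 1) * κ ≤ δ / 2 := by
      have h4 := mul_le_mul_of_nonneg_left h1 h2.le
      have h5 : (4 * M * N + 1) * (δ / (4 * M * N + 1) / 2) = δ / 2 := by
        field_simp
      linarith
    nlinarith
  obtain ⟨r, u, hr, hu, hsm⟩ := exists_smooth2 hE hκ0
  obtain ⟨Q, hQ⟩ : ∃ Q, Q = r + 3 := ⟨_, rfl⟩
  have hQpos : 0 < Q := by rw [hQ]; linarith
  have lipAll := fun i => lip_Sq (hu.smooth i) Q
  choose L0 hL0 hLip0 _hGr0 using lipAll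
  obtain ⟨L, hL⟩ : ∃ L, L = ∑ i, L0 i := ⟨_, rfl⟩
  have hLi : ∀ i, L0 i ≤ L := fun i => by
    rw [hL]; exact single_le_sum (fun j _ => hL0 j) (mem_univ i)
  have hLnn : 0 ≤ L := (hL0 0).trans (hLi 0)
  have hLip : ∀ i, ∀ p ∈ Sq Q, ∀ q ∈ Sq Q, |u i q - u i p| ≤ L * ‖q - p‖ := fun i p hp q hq =>
    (hLip0 i p hp q hq).trans (mul_le_mul_of_nonneg_right (hLi i) (norm_nonneg _))
  obtain ⟨ε, hε⟩ : ∃ ε, ε = δ / (16 * Q ^ 2) := ⟨_, rfl⟩
  have hεpos : 0 < ε := by rw [hε]; positivity
  have huc := (Sq_compact (Q + 1)).uniformContinuousOn_of_continuous hX.cont.continuousOn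
  rw [Metric.uniformContinuousOn_iff] at huc
  obtain ⟨η, hη, hηf⟩ := huc ε hεpos
  obtain ⟨h₁, hh₁⟩ : ∃ h₁, h₁ = min (min (1 / 2) (η / 4)) (min (1 / (24 * (L + 1)))
    (δ / (768 * (K + 1) * Q ^ 2))) := ⟨_, rfl⟩
  have hh₁0 : 0 < h₁ := by
    rw [hh₁]
    exact lt_min (lt_min (by norm_num) (by positivity)) (lt_min (by positivity) (by positivity))
  have b1 : h₁ ≤ 1 / 2 := by rw [hh₁]; exact (min_le_left _ _).trans (min_le_left _ _)
  have b2 : h₁ ≤ η / 4 := by rw [hh₁]; exact (min_le_left _ _).trans (min_le_right _ _)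
  have b3 : h₁ ≤ 1 / (24 * (L + 1)) := by
    rw [hh₁]; exact (min_le_right _ _).trans (min_le_left _ _)
  have b4 : h₁ ≤ δ / (768 * (K + 1) * Q ^ 2) := by
    rw [hh₁]; exact (min_le_right _ _).trans (min_le_right _ _)
  obtain ⟨G, n, c, h, hle, hN, hOut, hAr, hPer⟩ :=
    net2 hu hr hκ0.le (δ := δ / 2) (by linarith) hh₁0
  have hh : 0 < h := hN.hpos
  have c1 : h ≤ 1 / 2 := hle.trans b1
  have c2 : h ≤ η / 4 := hle.trans b2
  have c3 : 3 * L * h ≤ 1 / 8 := by
    have h1 : h ≤ 1 / (24 * (L + 1)) := hle.trans b3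
    rw [le_div_iff₀ (by positivity)] at h1
    nlinarith
  have c4 : 768 * K * Q ^ 2 * h ≤ δ := by
    have h1 : h ≤ δ / (768 * (K + 1) * Q ^ 2) := hle.trans b4
    rw [le_div_iff₀ (by positivity)] at h1
    have h2 : 0 ≤ Q ^ 2 * h := by positivity
    nlinarith
  have hsize : h * (2 * (n : ℝ) + 1) ≤ 2 * Q := by
    have h1 := hN.size
    rw [← hQ] at h1
    nlinarith
  have hsize2 : h ^ 2 * (2 * (n : ℝ) + 1) ^ 2 ≤ 4 * Q ^ 2 := by
    have h1 : 0 ≤ h * (2 * (n : ℝ) + 1) := by positivity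
    nlinarith
  have hinQ : ∀ x ∈ Helper98.LC.box n, pos h x ∈ Sq Q := fun x hx => by
    refine no_mem_Sq hh.le ?_ hx
    have h1 := hN.size
    rw [← hQ] at h1
    nlinarith
  have hosc : ∀ p ∈ Sq Q, ∀ q, ‖q - p‖ ≤ 2 * h → f q ≤ f p + ε := by
    intro p hp q hpq
    have h1 : |q.re - p.re| ≤ 1 := by
      have := Complex.abs_re_le_norm (q - p)
      rw [Complex.sub_re] at this
      linarith
    have h2 : |q.im - p.im| ≤ 1 := by
      have := Complex.abs_im_le_norm (q - p)
      rw [Complex.sub_im] at this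
      linarith
    have h3 : q ∈ Sq (Q + 1) := by
      constructor
      · have := abs_sub_abs_le_abs_sub q.re p.re
        have := hp.1
        linarith
      · have := abs_sub_abs_le_abs_sub q.im p.im
        have := hp.2
        linarith
    have h4 : p ∈ Sq (Q + 1) := ⟨hp.1.trans (by linarith), hp.2.trans (by linarith)⟩
    have h5 := hηf q h3 p h4 (by
      rw [dist_eq_norm]
      linarith)
    rw [Real.dist_eq] at h5
    have := le_abs_self (f q - f p)
    linarith
  have hal : ∀ x, 0 ≤ G.al x := fun x => G.area_nonneg x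
  refine ⟨G, n, c, fun x => f (pos h x) * G.al x, hOut, fun i => le_trans ?_ (hAr i), ?_,
    ⟨?_, ?_, ?_⟩, ?_⟩
  · rw [le_div_iff₀ hA0]
    linarith
  · rw [hsum] at hPer
    linarith
  · exact fun x => mul_nonneg (hX.fnn _) (hal x)
  · exact fun x => mul_le_mul_of_nonneg_right (hX.fle _) (hal x)
  · -- fluxes
    have h1 : ∀ x ∈ Helper98.LC.box n,
        |∑ k, fd X G (x, k) - f (pos h x) * G.al x| ≤ 192 * K * h ^ 3 := by
      intro x _
      obtain ⟨A, hA1, hA2⟩ := hX.deriv (pos h x)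
      have h2 := cell_flux X G x (pos h x) A (ρ := 2 * h) (ε := 2 * K * h) (by positivity)
        (by positivity) (hN.q_near x) (hN.z_near x) (fun y hy => by
          refine (hA2 y).trans ?_
          have h3 : ‖y - pos h x‖ ^ 2 ≤ (2 * h) ^ 2 :=
            pow_le_pow_left₀ (norm_nonneg _) hy 2
          have h4 := mul_le_mul_of_nonneg_left h3 hK
          linarith)
      rw [hA1] at h2
      refine h2.trans (le_of_eq ?_)
      ring
    refine (Finset.sum_le_sum h1).trans ?_
    rw [sum_const, nsmul_eq_mul, no_box_card]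
    have h5 : (2 * (n : ℝ) + 1) ^ 2 * (192 * K * h ^ 3) =
        192 * K * h * (h ^ 2 * (2 * (n : ℝ) + 1) ^ 2) := by ring
    rw [h5]
    have h6 := mul_le_mul_of_nonneg_left hsize2 (show 0 ≤ 192 * K * h by positivity)
    have h7 : 192 * K * h * (4 * Q ^ 2) = 768 * K * Q ^ 2 * h := by ring
    linarith
  · -- the weights
    have hfin : ∀ i, volume (R i) < ⊤ := fun i => by
      rw [hR.area i]
      exact ENNReal.ofReal_lt_top
    have hbd : ∀ p, ‖f p‖ ≤ 2 * M := fun p => by
      rw [Real.norm_eq_abs, abs_of_nonneg (hX.fnn p)]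
      exact hX.fle p
    have hint : ∀ i, IntegrableOn f (R i) := fun i =>
      Measure.integrableOn_of_bounded (M := 2 * M) (hfin i).ne hX.cont.aestronglyMeasurable
        (Filter.Eventually.of_forall hbd)
    have e1 : ∫ p in ⋃ i, R i, f p = ∑ i, ∫ p in R i, f p :=
      integral_iUnion_fintype hR.measurable (fun i j hij => hR.disjoint i j hij) hint
    have hmeas3 : ∀ i : Fin N, MeasurableSet {p | 3 / 4 < u i.succ p} := fun i =>
      measurableSet_lt measurable_const (hu.smooth i.succ).continuous.measurable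
    have hEach : ∀ i : Fin N, ∫ p in R i, f p ≤
        (∑ x ∈ (Helper98.LC.box n).filter (fun x => c x = i.succ), f (pos h x) * G.al x) +
          (∑ x ∈ (Helper98.LC.box n).filter (fun x => c x = i.succ), h ^ 2 * ε) +
          2 * M * κ := by
      intro i
      have hsq : ∀ p, 3 / 4 < u i.succ p → p ∈ Sq r := by
        intro p hp
        have h1 : ‖p‖ < r := by
          by_contra hcon
          push Not at hcon
          have h2 := hu.far p hcon
          have h3 : u 0 p + u i.succ p ≤ ∑ j, u j p := by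
            have h4 : ∑ j ∈ ({0, i.succ} : Finset (Fin (N + 1))), u j p ≤ ∑ j, u j p :=
              sum_le_sum_of_subset_of_nonneg (subset_univ _) fun j _ _ => hu.nonneg j p
            rw [sum_pair (Fin.succ_ne_zero i).symm] at h4
            exact h4
          rw [hu.sum_eq] at h3
          linarith
        exact ⟨(Complex.abs_re_le_norm p).trans h1.le, (Complex.abs_im_le_norm p).trans h1.le⟩
      have hcount := count2 (u := u i.succ) (f := f) (E := R i) (L := L) (R := Q) hr hh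
        (by rw [hQ]; linarith) (hLip i.succ) c3 hLnn hsq hN.big (hu.smooth i.succ).continuous
        (hR.measurable i) hX.cont hX.fnn hεpos.le hosc
      have hsplit : ∫ p in R i, f p = (∫ p in R i ∩ {p | 3 / 4 < u i.succ p}, f p) +
          ∫ p in R i ∩ {p | 3 / 4 < u i.succ p}ᶜ, f p := by
        rw [← Set.sdiff_eq, integral_inter_add_sdiff (hmeas3 i) (hint i)]
      have hsmall : ∫ p in R i ∩ {p | 3 / 4 < u i.succ p}ᶜ, f p ≤ 2 * M * κ := by
        have h7 : (R i ∩ {p | 3 / 4 < u i.succ p}ᶜ) = E i.succ ∩ {p | u i.succ p ≤ 3 / 4} := by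
          rw [hEs]
          congr 1
          ext p
          simp
        have h8 := hsm i
        rw [← h7] at h8
        have h9 : volume (R i ∩ {p | 3 / 4 < u i.succ p}ᶜ) < ⊤ :=
          lt_of_le_of_lt h8 ENNReal.ofReal_lt_top
        have h10 := norm_setIntegral_le_of_norm_le_const h9 (fun p _ => hbd p)
        rw [Real.norm_eq_abs] at h10
        have h11 : volume.real (R i ∩ {p | 3 / 4 < u i.succ p}ᶜ) ≤ κ := by
          unfold Measure.real
          exact ENNReal.toReal_le_of_le_ofReal hκ0.le h8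
        have h12 := mul_le_mul_of_nonneg_left h11 (show 0 ≤ 2 * M by positivity)
        exact (le_abs_self _).trans (h10.trans h12)
      set good := (Helper98.LC.box n).filter fun x =>
        5 / 8 < u i.succ (pos h x) ∧ ∀ k, 5 / 8 < u i.succ (pos h (x + dir k)) with hgood
      have hlab : ∀ x ∈ good, c x = i.succ ∧ G.al x = h ^ 2 := by
        intro x hx
        rw [hgood, mem_filter] at hx
        exact hN.good i x hx.2.1 hx.2.2
      have hsub : good ⊆ (Helper98.LC.box n).filter fun x => c x = i.succ := by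
        intro x hx
        rw [mem_filter]
        exact ⟨(mem_filter.1 hx).1, (hlab x hx).1⟩
      have h2 : ∑ x ∈ good, h ^ 2 * (f (pos h x) + ε) =
          ∑ x ∈ good, (f (pos h x) * G.al x + h ^ 2 * ε) := by
        refine sum_congr rfl fun x hx => ?_
        rw [(hlab x hx).2]
        ring
      have h3 : ∑ x ∈ good, (f (pos h x) * G.al x + h ^ 2 * ε) ≤
          ∑ x ∈ (Helper98.LC.box n).filter (fun x => c x = i.succ),
            (f (pos h x) * G.al x + h ^ 2 * ε) :=
        sum_le_sum_of_subset_of_nonneg hsub fun x _ _ =>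
          add_nonneg (mul_nonneg (hX.fnn _) (hal x)) (by positivity)
      rw [hsplit]
      rw [h2] at hcount
      simp only [sum_add_distrib] at h3 hcount
      linarith
    rw [e1]
    have h20 := Finset.sum_le_sum fun i (_ : i ∈ (univ : Finset (Fin N))) => hEach i
    rw [sum_add_distrib, sum_add_distrib, ← ap2_split c (fun x => f (pos h x) * G.al x),
      ← ap2_split c (fun _ => h ^ 2 * ε), sum_const (s := (univ : Finset (Fin N))), card_univ,
      Fintype.card_fin, nsmul_eq_mul] at h20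
    have h21 : ∑ x ∈ (Helper98.LC.box n).filter (fun x => c x ≠ 0), h ^ 2 * ε ≤ δ / 4 := by
      have h22 : ∑ x ∈ (Helper98.LC.box n).filter (fun x => c x ≠ 0), h ^ 2 * ε ≤
          ∑ x ∈ Helper98.LC.box n, h ^ 2 * ε :=
        sum_le_sum_of_subset_of_nonneg (filter_subset _ _) fun x _ _ => by positivity
      rw [sum_const (s := Helper98.LC.box n), nsmul_eq_mul, no_box_card] at h22
      have h23 : (2 * (n : ℝ) + 1) ^ 2 * (h ^ 2 * ε) = ε * (h ^ 2 * (2 * (n : ℝ) + 1) ^ 2) := by
        ring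
      rw [h23] at h22
      have h24 := mul_le_mul_of_nonneg_left hsize2 hεpos.le
      have h25 : ε * (4 * Q ^ 2) = δ / 4 := by
        rw [hε]
        field_simp
        ring
      linarith
    unfold gs
    have h26 : (N : ℝ) * (2 * M * κ) = 2 * M * N * κ := by ring
    linarith

end Pool.Agent.Helper98.HX
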