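import Pool.Agent.Helper98.HX.ModelH
import Pool.Agent.Helper38.AS.Model1
import Pool.Agent.Helper98.LC.B.Comp

/-!
# HX-09: the model inequality for all labellings

`exists_comp` (`Helper98/LC/B/Comp.lean`) gives `c : V → κ`, `o'`, `γ : κ → Fin (N+1)` with `γ (c x) = l x`; copy the proof of `model_gen` in `Helper38/AS/Main2.lean` (`h1` there:
`∑_{j ≠ 0} min 1 (ar l j) ≤ ∑_{i ≠ o'} min 1 (ar c i)`).  `conn_one` (`AS/Model1.lean`) for `c`: `6 ∑_{i ≠ o'} min + K2 √tot - 10^10 ≤ per2 c = per2 l`, so `K2 √tot ≤ B + 10^10`, `K2 ≥ 5.98` (`K2_num`),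
`tot ≤ (B + 10^10)^2`.  `modelH` with `T = (B + 10^10)^2`.  `gs g l 0 n ≤ gs g c o' n`: `l x ≠ 0` implies `c x ≠ o'` (`γ o' = 0`), and `g ≥ 0`.
-/

namespace Pool.Agent.Helper98.HX

open Finset Real Pool.Agent.Helper98.LC
open Pool.Agent.Helper98.LC3 (c0)

private theorem h45_min_sum {κ : Type} (S : Finset κ) (f : κ → ℝ) (hf : ∀ i ∈ S, 0 ≤ f i) :
    min 1 (∑ i ∈ S, f i) ≤ ∑ i ∈ S, min 1 (f i) := by
  by_cases h : ∃ i ∈ S, 1 ≤ f i
  · obtain ⟨i, hi, h1⟩ := h
    refine (min_le_left _ _).trans ?_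
    calc (1 : ℝ) = min 1 (f i) := (min_eq_left h1).symm
      _ ≤ ∑ i ∈ S, min 1 (f i) := by
        refine single_le_sum (f := fun i => min 1 (f i)) (fun j hj => ?_) hi
        exact le_min zero_le_one (hf j hj)
  · push Not at h
    refine (min_le_right _ _).trans ?_
    refine sum_le_sum fun i hi => ?_
    rw [min_eq_right (h i hi).le]

theorem model2 {N : ℕ} {X : ℂ → ℂ} {M δ : ℝ} {G : Net} {n : ℕ} {g : V → ℝ} (hX : Fld X M)
    (hw : Wt X M G n g δ) (hM : 10 ^ 10 * M ≤ 1) (hδ : δ ≤ 1 / 20) (l : V → Fin (N + 1))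
    (hl : OutBox l 0 n) {B : ℝ} (hB : 0 ≤ B)
    (hlB : per2 G l n - 6 * ∑ j ∈ univ.filter (fun j : Fin (N + 1) => j ≠ 0), min 1 (ar G l n j) ≤ B) :
    6 * ∑ j ∈ univ.filter (fun j : Fin (N + 1) => j ≠ 0), min 1 (ar G l n j) +
      2 * c0 * gs g l 0 n - 10 ^ 4 * M ^ 2 * (B + 10 ^ 10) ^ 2 - 1 ≤ per2 G l n := by
  classical
  obtain ⟨κ, hfin, hdec, c, o', γ, hout, hconn, hγ, hsurj, hper, har⟩ := exists_comp G l 0 n hl
  have hgo : γ o' = 0 := by
    have hx : ((n : ℤ) + 1, (0 : ℤ)) ∉ Pool.Agent.Helper98.LC.box n := by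
      unfold Pool.Agent.Helper98.LC.box
      rw [mem_product, mem_Icc]
      rintro ⟨⟨_, h2⟩, _⟩
      simp only at h2
      linarith
    rw [← hout _ hx, hγ, hl _ hx]
  have hmc := Pool.Agent.Helper38.AS.conn_one κ G c o' n hout hconn
  have hsub : univ.filter (fun i => γ i ≠ 0) ⊆ univ.filter (fun i => i ≠ o') := by
    intro i hi
    rw [mem_filter] at hi ⊢
    refine ⟨mem_univ _, ?_⟩
    rintro rfl
    exact hi.2 hgo
  have hsplit : ∀ f : κ → ℝ, ∑ j ∈ univ.filter (fun j : Fin (N + 1) => j ≠ 0),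
      ∑ i ∈ univ.filter (fun i => γ i = j), f i = ∑ i ∈ univ.filter (fun i => γ i ≠ 0), f i := by
    intro f
    rw [← sum_fiberwise_of_maps_to (s := univ.filter (fun i => γ i ≠ 0))
      (t := univ.filter (fun j : Fin (N + 1) => j ≠ 0)) (g := γ)
      (fun i hi => by
        rw [mem_filter] at hi ⊢
        exact ⟨mem_univ _, hi.2⟩)]
    refine sum_congr rfl fun j hj => ?_
    rw [mem_filter] at hj
    refine sum_congr ?_ fun _ _ => rfl
    ext i
    simp only [mem_filter, mem_univ, true_and]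
    constructor
    · intro hi
      exact ⟨by rw [hi]; exact hj.2, hi⟩
    · exact fun hi => hi.2
  have h1 : ∑ j ∈ univ.filter (fun j : Fin (N + 1) => j ≠ 0), min 1 (ar G l n j) ≤
      ∑ i ∈ univ.filter (fun i => i ≠ o'), min 1 (ar G c n i) := by
    calc ∑ j ∈ univ.filter (fun j : Fin (N + 1) => j ≠ 0), min 1 (ar G l n j)
        ≤ ∑ j ∈ univ.filter (fun j : Fin (N + 1) => j ≠ 0),
          ∑ i ∈ univ.filter (fun i => γ i = j), min 1 (ar G c n i) := by
          refine sum_le_sum fun j hj => ?_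
          rw [mem_filter] at hj
          rw [har j hj.2]
          exact h45_min_sum _ _ fun i _ => ar_nonneg G c n i
      _ = ∑ i ∈ univ.filter (fun i => γ i ≠ 0), min 1 (ar G c n i) := hsplit _
      _ ≤ _ := sum_le_sum_of_subset_of_nonneg hsub fun i _ _ =>
          le_min zero_le_one (ar_nonneg G c n i)
  have htot0 : 0 ≤ tot G c o' n := by
    unfold tot
    exact sum_nonneg fun j _ => ar_nonneg G c n j
  obtain ⟨hk1, _⟩ := Pool.Agent.Helper38.AS.K2_num
  have hs0 : 0 ≤ √(tot G c o' n) := Real.sqrt_nonneg _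
  have hs1 : √(tot G c o' n) ≤ B + 10 ^ 10 := by
    have h2 : 1 * √(tot G c o' n) ≤ Pool.Agent.Helper38.AS.K2 * √(tot G c o' n) :=
      mul_le_mul_of_nonneg_right (by linarith) hs0
    rw [hper] at hmc
    linarith
  have hT : tot G c o' n ≤ (B + 10 ^ 10) ^ 2 := by
    calc tot G c o' n = √(tot G c o' n) ^ 2 := (Real.sq_sqrt htot0).symm
      _ ≤ (B + 10 ^ 10) ^ 2 := pow_le_pow_left₀ hs0 hs1 2
  have hmod := modelH hX hw hM hδ hout hconn hT
  have hgs : gs g l 0 n ≤ gs g c o' n := by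
    unfold gs
    refine sum_le_sum_of_subset_of_nonneg ?_ fun x _ _ => hw.nonneg x
    intro x hx
    rw [mem_filter] at hx ⊢
    refine ⟨hx.1, fun h2 => hx.2 ?_⟩
    rw [← hγ, h2, hgo]
  have hc0 : (0 : ℝ) ≤ 2 * c0 := by
    have h2 : (3.141592 : ℝ) < π := Real.pi_gt_d6
    unfold Pool.Agent.Helper98.LC3.c0
    linarith
  have h3 := mul_le_mul_of_nonneg_left hgs hc0
  rw [hper] at hmod
  linarith

end Pool.Agent.Helper98.HX
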