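import Pool.Agent.Helper98.HX.Approx2
import Pool.Agent.Helper98.HX.Model2

/-!
# HX-14: the excess perimeter of a cluster is at least `c0` times the flux

`cp = (clusterPer R).toReal`, `S = ∫_{⋃ R i} f`, `0 ≤ S ≤ 2 M A0 N = 2 A0 m √N` (`M = m/√N`, the volume of the union is `N A0`; `Helper79.HC.A0 = Helper98.LC.A0` by `rfl`).
`C = 10^4 m² (6 m + 2)² + 10`, `N0 = 10^22 (1 + m)²`.  If `cp ≥ 3 N + c0 S`: clear.  Otherwise let `B = 6 m √N + 1` (`2 c0 * 2 A0 ≤ 5.45`) and `δ ≤ 1/20` with `δ (10 N + 10) ≤ 1`.  `approx2`: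
`6 N (1 - δ) ≤ 6 ∑_{j ≠ 0} min 1 (ar j)` (see `cluster_gen` in `Helper38/AS/Main2.lean`), so `per2 - 6 ∑ min ≤ 2 cp + δ - 6 N (1 - δ) ≤ 2 c0 S + δ (6 N + 1) ≤ B`.
`model2`: `6 N (1 - δ) + 2 c0 (S - δ) - 10^4 M² (B + 10^10)² - 1 ≤ 2 cp + δ`; `B + 10^10 ≤ (6 m + 2) √N` as `√N ≥ 10^11`, so `M² (B + 10^10)² ≤ m² (6 m + 2)²`.
-/

namespace Pool.Agent.Helper98.HX

open Finset Real Pool.Agent.Helper98.LC MeasureTheory
open Pool.Agent.Helper98.LC3 (c0)

theorem cluster_field {m : ℝ} (hm : 0 ≤ m) : ∃ C N0 : ℝ, ∀ N : ℕ, N0 ≤ N →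
    ∀ R : Fin N → Set ℂ, Pool.Agent.Helper79.HC.IsCluster R →
      Pool.Agent.Helper79.HC.clusterPer R < ⊤ → ∀ (X : ℂ → ℂ) (f : ℂ → ℝ) (K : ℝ),
        Fld2 X f (m / √N) K →
        3 * (N : ℝ) + c0 * (∫ p in ⋃ i, R i, f p) - C ≤
          (Pool.Agent.Helper79.HC.clusterPer R).toReal := by
  refine ⟨10 ^ 4 * (m ^ 2 * (6 * m + 2) ^ 2) + 10, 10 ^ 22 * (1 + m) ^ 2, ?_⟩
  intro N hN R hR hP X f K hX
  set cp := (Pool.Agent.Helper79.HC.clusterPer R).toReal with hcp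
  set s := √(N : ℝ) with hs
  set S := ∫ p in ⋃ i, R i, f p with hS
  have hN0 : (0 : ℝ) ≤ N := Nat.cast_nonneg N
  have hs1 : 10 ^ 11 * (1 + m) ≤ s := by
    rw [hs]
    refine Real.le_sqrt_of_sq_le ?_
    refine le_trans (le_of_eq ?_) hN
    ring
  have hsm : 10 ^ 11 ≤ s := by nlinarith
  have hs0 : 0 < s := by linarith [show (0 : ℝ) < 10 ^ 11 by norm_num]
  have hss : s * s = N := Real.mul_self_sqrt hN0
  have hMs : m / s * s = m := div_mul_cancel₀ m hs0.ne'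
  have hM0 : 0 ≤ m / s := div_nonneg hm hs0.le
  have hM : 10 ^ 10 * (m / s) ≤ 1 := by
    have h1 : m ≤ s / 10 ^ 10 := by
      rw [le_div_iff₀ (by norm_num)]
      nlinarith
    calc 10 ^ 10 * (m / s) ≤ 10 ^ 10 * (s / 10 ^ 10 / s) := by gcongr
      _ = 1 := by field_simp
  obtain ⟨hc1, hc2⟩ : (0 : ℝ) ≤ c0 ∧ c0 ≤ 0.5236 := by
    have h1 : (3.141592 : ℝ) < π := Real.pi_gt_d6
    have h2 : π < (3.141593 : ℝ) := Real.pi_lt_d6
    unfold Pool.Agent.Helper98.LC3.c0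
    constructor <;> linarith
  have hA1 : (0 : ℝ) ≤ Pool.Agent.Helper79.HC.A0 := by
    unfold Pool.Agent.Helper79.HC.A0
    positivity
  have hA2 : Pool.Agent.Helper79.HC.A0 ≤ 2.6 := by
    have h1 : √3 ≤ 1.7321 := by
      rw [Real.sqrt_le_left (by norm_num)]
      norm_num
    unfold Pool.Agent.Helper79.HC.A0
    linarith
  have hvol : (volume (⋃ i, R i)).toReal ≤ N * Pool.Agent.Helper79.HC.A0 ∧
      volume (⋃ i, R i) < ⊤ := by
    have h1 : volume (⋃ i, R i) ≤ ENNReal.ofReal (N * Pool.Agent.Helper79.HC.A0) := by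
      refine (measure_iUnion_fintype_le volume R).trans ?_
      rw [Finset.sum_congr rfl fun i _ => hR.area i, Finset.sum_const, card_univ,
        Fintype.card_fin, nsmul_eq_mul, ENNReal.ofReal_mul hN0, ENNReal.ofReal_natCast]
    refine ⟨?_, h1.trans_lt ENNReal.ofReal_lt_top⟩
    refine ENNReal.toReal_le_of_le_ofReal (by positivity) h1
  have hS2 : c0 * S ≤ 3 * m * s := by
    have h1 : ‖S‖ ≤ 2 * (m / s) * (volume (⋃ i, R i)).toReal := by
      rw [hS]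
      refine norm_setIntegral_le_of_norm_le_const hvol.2 fun p _ => ?_
      rw [Real.norm_of_nonneg (hX.fnn p)]
      exact hX.fle p
    have h2 : S ≤ 2 * (m / s) * (N * Pool.Agent.Helper79.HC.A0) :=
      (le_abs_self S).trans (h1.trans (mul_le_mul_of_nonneg_left hvol.1 (by positivity)))
    have h3 : 2 * (m / s) * (N * Pool.Agent.Helper79.HC.A0) =
        2 * m * s * Pool.Agent.Helper79.HC.A0 := by
      rw [← hss]
      field_simp
    rw [h3] at h2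
    have h4 : 0 ≤ m * s := by positivity
    calc c0 * S ≤ c0 * (2 * m * s * Pool.Agent.Helper79.HC.A0) :=
          mul_le_mul_of_nonneg_left h2 hc1
      _ ≤ c0 * (2 * m * s * 2.6) := by gcongr
      _ ≤ 0.5236 * (2 * m * s * 2.6) := by gcongr
      _ ≤ 3 * m * s := by nlinarith
  by_contra hcon
  rw [not_le] at hcon
  set B := 6 * m * s + 1 with hB
  have hB0 : 0 ≤ B := by positivity
  obtain ⟨δ, hδ0, hδ1, hδ2⟩ : ∃ δ : ℝ, 0 < δ ∧ δ ≤ 1 / 20 ∧ δ * (10 * N + 10) ≤ 1 := by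
    refine ⟨min (1 / 20) (1 / (10 * N + 10)), lt_min (by norm_num) (by positivity),
      min_le_left _ _, ?_⟩
    calc min (1 / 20) (1 / (10 * (N : ℝ) + 10)) * (10 * (N : ℝ) + 10) ≤
          1 / (10 * (N : ℝ) + 10) * (10 * (N : ℝ) + 10) :=
          mul_le_mul_of_nonneg_right (min_le_right _ _) (by positivity)
      _ = 1 := by field_simp
  obtain ⟨G, n, c, g, ho, har, hper, hw, hSg⟩ := approx2 hR hP hX hδ0
  have hfil : univ.filter (fun j : Fin (N + 1) => j ≠ 0) = univ.map (Fin.succEmb N) := by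
    ext j
    simp only [mem_filter, mem_univ, true_and, mem_map, Fin.coe_succEmb]
    constructor
    · intro hj
      exact ⟨j.pred hj, Fin.succ_pred j hj⟩
    · rintro ⟨i, rfl⟩
      exact Fin.succ_ne_zero i
  have hmin : (N : ℝ) * (1 - δ) ≤
      ∑ j ∈ univ.filter (fun j : Fin (N + 1) => j ≠ 0), min 1 (ar G c n j) := by
    rw [hfil, sum_map]
    calc (N : ℝ) * (1 - δ) = ∑ _i : Fin N, (1 - δ) := by
          rw [sum_const, card_univ, Fintype.card_fin, nsmul_eq_mul]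
      _ ≤ _ := sum_le_sum fun i _ => le_min (by linarith) (har i)
  have hC0 : 0 ≤ m ^ 2 * (6 * m + 2) ^ 2 := by positivity
  have hlB : per2 G c n - 6 * ∑ j ∈ univ.filter (fun j : Fin (N + 1) => j ≠ 0),
      min 1 (ar G c n j) ≤ B := by
    rw [hB]
    linarith
  have hmod := model2 hX.toFld hw hM hδ1 c ho hB0 hlB
  have hBs : B + 10 ^ 10 ≤ (6 * m + 2) * s := by
    rw [hB]
    nlinarith
  have hMB : (m / s) ^ 2 * (B + 10 ^ 10) ^ 2 ≤ m ^ 2 * (6 * m + 2) ^ 2 := by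
    calc (m / s) ^ 2 * (B + 10 ^ 10) ^ 2 ≤ (m / s) ^ 2 * ((6 * m + 2) * s) ^ 2 := by gcongr
      _ = (m / s * s) ^ 2 * (6 * m + 2) ^ 2 := by ring
      _ = m ^ 2 * (6 * m + 2) ^ 2 := by rw [hMs]
  have hSg2 : c0 * S ≤ c0 * gs g c 0 n + δ := by
    have h1 := mul_le_mul_of_nonneg_left hSg hc1
    have h2 : c0 * δ ≤ 1 * δ := mul_le_mul_of_nonneg_right (by linarith) hδ0.le
    linarith
  linarith

end Pool.Agent.Helper98.HX
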