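import Pool.Agent.Helper38.AS.Curve3
import Pool.Agent.Helper38.LCA.NetOf

/-!
# Project HX (MP_0e6ba8_gt): clusters near a regular hexagon, definitions

`X` is a vector field with `|X| ≤ 1` and Lipschitz constant `M`.  The excess perimeter of a cluster is at least `c0 ∫ div X` over the union of its regions, up to a
constant (`c0 = π/6`): the functional `per2 - 6 ∑ min 1 (ar i) - 2 c0 ∑ g x` (`g x` is the flux of `X` out of the cell `x`) is minimised, and the shifted outer polygon of the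
minimiser (block AS of helper38) is longer than the flux of `X` through it.
-/

namespace Pool.Agent.Helper98.HX

open Finset Real Pool.Agent.Helper98.LC
open Pool.Agent.Helper98.LC3 (c0 ncl)

variable {ι : Type} [DecidableEq ι]

/-- a bounded Lipschitz vector field -/
structure Fld (X : ℂ → ℂ) (M : ℝ) : Prop where
  nonneg : 0 ≤ M
  le_one : ∀ p, ‖X p‖ ≤ 1
  lip : ∀ p q, ‖X p - X q‖ ≤ M * ‖p - q‖

/-- a bounded vector field with bounded second derivatives and the divergence `f ≥ 0` -/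
structure Fld2 (X : ℂ → ℂ) (f : ℂ → ℝ) (M K : ℝ) : Prop extends Fld X M where
  Knn : 0 ≤ K
  cont : Continuous f
  fnn : ∀ p, 0 ≤ f p
  fle : ∀ p, f p ≤ 2 * M
  deriv : ∀ p, ∃ A : ℂ →L[ℝ] ℂ, (A 1).re + (A Complex.I).im = f p ∧
    ∀ y, ‖X y - X p - A (y - p)‖ ≤ K * ‖y - p‖ ^ 2

/-- the flux of `X` through the segment from `a` to `b`, to the right side (midpoint rule) -/
noncomputable def fx (X : ℂ → ℂ) (a b : ℂ) : ℝ := cr (X ((a + b) / 2)) (b - a)

/-- the flux of `X` out of the cell of `d.1` through the interface at the dart `d` -/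
noncomputable def fd (X : ℂ → ℂ) (G : Net) (d : V × Fin 6) : ℝ :=
  fx X (G.z d.1 (d.2 - 1)) (G.q d.1 d.2) + fx X (G.q d.1 d.2) (G.z d.1 d.2)

/-- weights of the cells which are close to the fluxes -/
structure Wt (X : ℂ → ℂ) (M : ℝ) (G : Net) (n : ℕ) (g : V → ℝ) (δ : ℝ) : Prop where
  nonneg : ∀ x, 0 ≤ g x
  le : ∀ x, g x ≤ 2 * M * G.al x
  flux : ∑ x ∈ box n, |∑ k, fd X G (x, k) - g x| ≤ δ

/-- the total weight of the classes other than the outer one -/
noncomputable def gs (g : V → ℝ) (c : V → ι) (o : ι) (n : ℕ) : ℝ :=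
  ∑ x ∈ (box n).filter (fun x => c x ≠ o), g x

/-- the functional -/
noncomputable def PhiH [Fintype ι] (G : Net) (c : V → ι) (o : ι) (n : ℕ) (g : V → ℝ) : ℝ :=
  per2 G c n - 6 * ∑ i ∈ univ.filter (fun i => i ≠ o), min 1 (ar G c n i) - 2 * c0 * gs g c o n

/-- a global minimiser (as `GMin`) -/
structure GMinH [Fintype ι] (G : Net) (c : V → ι) (o : ι) (n : ℕ) (g : V → ℝ) : Prop where
  out : OutBox c o n
  conn : Conn c
  least : ∀ c' : V → ι, OutBox c' o n → Conn c' → tot G c' o n ≤ tot G c o n →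
    ncl c' < ncl c → PhiH G c o n g < PhiH G c' o n g

/-- what is known about the net of a smooth partition of unity `u` -/
structure NetOut {N : ℕ} (u : Fin (N + 1) → ℂ → ℝ) (r : ℝ) (G : Net) (n : ℕ)
    (c : V → Fin (N + 1)) (h : ℝ) : Prop where
  hpos : 0 < h
  size : h * (n + 1) ≤ r + 3
  big : r + h ≤ h * n
  q_near : ∀ x k, ‖G.q x k - Pool.Agent.Helper38.LCA.pos h x‖ ≤ 2 * h
  z_near : ∀ x k, ‖G.z x k - Pool.Agent.Helper38.LCA.pos h x‖ ≤ 2 * h
  good : ∀ i : Fin N, ∀ x, 5 / 8 < u i.succ (Pool.Agent.Helper38.LCA.pos h x) →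
    (∀ k, 5 / 8 < u i.succ (Pool.Agent.Helper38.LCA.pos h (x + dir k))) →
    c x = i.succ ∧ G.al x = h ^ 2

/-- the regular hexagon with the centre `a` and the vertices `a + v ζ ^ k`, `ζ = exp (i π / 3)` -/
noncomputable def hexagon (a v : ℂ) : Set ℂ :=
  convexHull ℝ (Set.range fun k : Fin 6 => a + v * Complex.exp (π / 3 * Complex.I) ^ (k : ℕ))

end Pool.Agent.Helper98.HX
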