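import Pool.Agent.Helper98.HX.HexF

/-!
# HX-16: the flux of the field out of the hexagon

`s = ‖v‖`, `v = s w`.  For `k = 0, 1, 2` let `d = w ζ^k` (direction of the diagonal), `m = hn w k = i d` (normal).  The rectangle `R_k = {p | |ip (p - a) d| ≤ s - b, |ip (p - a) m| ≤ b}` is contained in `hexagon a (s w)` if
`0 ≤ b ≤ s/2`: its four corners `a ± (s - b) d ± b m` are convex combinations of the vertices (`a ± s d` and the two vertices on the same side, e.g. in the frame `d = 1`, `m = i`: `|y| = b`, `|x| ≤ s - b ≤ s - |y|/√3`), and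
`R_k` is their convex hull; or show directly: `p ∈ R_k` is a convex combination of `a ± s d`, `a + s (± d/2 ± (√3/2) m)`.
`∫_{R_k} 1/(1 + (ip (p-a) m/r)²) = 2 (s - b) * 2 r arctan (b/r)` (rotate and translate: the map `p ↦ a + d p` preserves the volume, Fubini on the rectangle, `integral_inv_one_add_sq`).
So `∫_H hf ≥ (1/(π r)) ∑ k ∫_{R_k} .. = (1/(π r)) * 3 * 4 (s - b) r arctan (b/r)` (the integrand is `≥ 0`).
-/

namespace Pool.Agent.Helper98.HX

open Finset Real Pool.Agent.Helper98.LC MeasureTheory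
open Pool.Agent.Helper98.LC3 (ip)

private theorem ze_eq : Complex.exp (π / 3 * Complex.I)
    = ((1 / 2 : ℝ) : ℂ) + ((√3 / 2 : ℝ) : ℂ) * Complex.I := by
  rw [Complex.exp_mul_I]
  have h : ((π : ℂ) / 3) = ((π / 3 : ℝ) : ℂ) := by push_cast; rfl
  rw [h, ← Complex.ofReal_cos, ← Complex.ofReal_sin, Real.cos_pi_div_three,
    Real.sin_pi_div_three]

private theorem ze_sq : Complex.exp (π / 3 * Complex.I) ^ 2
    = Complex.exp (π / 3 * Complex.I) - 1 := by
  rw [ze_eq]
  have h3 : (√3 : ℝ) ^ 2 = 3 := Real.sq_sqrt (by norm_num)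
  apply Complex.ext
  · simp [pow_two]
    nlinarith [h3]
  · simp [pow_two]
    ring

private theorem ze_cube : Complex.exp (π / 3 * Complex.I) ^ 3 = -1 := by
  have h := ze_sq
  set e := Complex.exp (π / 3 * Complex.I)
  calc e ^ 3 = e * e ^ 2 := by ring
    _ = e ^ 2 - e := by rw [h]; ring_nf; rw [h]; ring
    _ = -1 := by rw [h]; ring

private theorem ze_six : Complex.exp (π / 3 * Complex.I) ^ 6 = 1 := by
  have h := ze_cube
  calc Complex.exp (π / 3 * Complex.I) ^ 6 = (Complex.exp (π / 3 * Complex.I) ^ 3) ^ 2 := by ring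
    _ = 1 := by rw [h]; norm_num

private theorem ze_norm : ‖Complex.exp (π / 3 * Complex.I)‖ = 1 := by
  have h : ((π : ℂ) / 3) = ((π / 3 : ℝ) : ℂ) := by push_cast; rfl
  rw [h, Complex.norm_exp_ofReal_mul_I]

private theorem vert (a v : ℂ) (m : ℕ) :
    a + v * Complex.exp (π / 3 * Complex.I) ^ m ∈ hexagon a v := by
  apply subset_convexHull
  refine ⟨⟨m % 6, Nat.mod_lt _ (by norm_num)⟩, ?_⟩
  have h : Complex.exp (π / 3 * Complex.I) ^ m = Complex.exp (π / 3 * Complex.I) ^ (m % 6) := by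
    conv_lhs => rw [← Nat.div_add_mod m 6, pow_add, pow_mul, ze_six, one_pow, one_mul]
  simp only [h]

private theorem quad {C : Set ℂ} (hC : Convex ℝ C) {P Q R S : ℂ} (hP : P ∈ C) (hQ : Q ∈ C)
    (hR : R ∈ C) (hS : S ∈ C) {l t : ℝ} (hl : 0 ≤ l) (hl1 : l ≤ 1) (ht : 0 ≤ t) (ht1 : t ≤ 1) :
    l • ((1 - t) • P + t • Q) + (1 - l) • ((1 - t) • R + t • S) ∈ C := by
  apply hC _ _ hl (by linarith) (by ring)
  · exact hC hP hQ (by linarith) ht (by ring)
  · exact hC hR hS (by linarith) ht (by ring)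

private theorem rect_mem (a w : ℂ) (k : ℕ) {s b x y : ℝ} (hs : 0 < s) (hx : |x| ≤ s - b)
    (hy : |y| ≤ b) (hbs : b ≤ s / 2) :
    a + w * Complex.exp (π / 3 * Complex.I) ^ k * (x + y * Complex.I)
      ∈ hexagon a ((s : ℂ) * w) := by
  have h3 : (√3 : ℝ) ^ 2 = 3 := Real.sq_sqrt (by norm_num)
  have h31 : (1 : ℝ) < √3 := by
    rw [show (1 : ℝ) = √1 by simp]
    exact Real.sqrt_lt_sqrt (by norm_num) (by norm_num)
  have h30 : (0 : ℝ) < √3 := by linarith
  -- the nonnegative half
  have hy0 : 0 ≤ |y| := abs_nonneg y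
  set Y : ℝ := |y| with hY
  have hYs : Y / √3 ≤ Y := by
    rw [div_le_iff₀ h30]
    nlinarith
  set q : ℝ := s - Y / √3 with hq
  have hq0 : 0 < q := by
    have : Y / √3 ≤ s / 2 := by linarith
    rw [hq]; linarith
  have hxq : |x| ≤ q := by rw [hq]; linarith
  obtain ⟨hx1, hx2⟩ := abs_le.mp hxq
  set l : ℝ := (1 + x / q) / 2 with hl
  set t : ℝ := 2 * Y / (√3 * s) with ht
  have hl0 : 0 ≤ l := by
    have : -1 ≤ x / q := by rw [le_div_iff₀ hq0]; linarith
    rw [hl]; linarith
  have hl1 : l ≤ 1 := by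
    have : x / q ≤ 1 := by rw [div_le_iff₀ hq0]; linarith
    rw [hl]; linarith
  have ht0 : 0 ≤ t := by rw [ht]; positivity
  have ht1 : t ≤ 1 := by
    rw [ht, div_le_iff₀ (by positivity)]
    nlinarith
  have e1 : s * (2 * l - 1) * (1 - t / 2) = x := by
    have : s * (1 - t / 2) = q := by
      rw [ht, hq]; field_simp
    have h2 : (2 * l - 1) * q = x := by rw [hl]; field_simp; ring
    calc s * (2 * l - 1) * (1 - t / 2) = (2 * l - 1) * (s * (1 - t / 2)) := by ring
      _ = x := by rw [this, h2]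
  have e2 : s * (√3 / 2) * t = Y := by rw [ht]; field_simp
  have hC : Convex ℝ (hexagon a ((s : ℂ) * w)) := convex_convexHull ℝ _
  have hz := ze_eq
  rcases le_or_gt 0 y with hy1 | hy1
  · have hYy : Y = y := abs_of_nonneg hy1
    have hm := quad hC (vert a ((s : ℂ) * w) k) (vert a ((s : ℂ) * w) (k + 1))
      (vert a ((s : ℂ) * w) (k + 3)) (vert a ((s : ℂ) * w) (k + 2)) hl0 hl1 ht0 ht1
    convert hm using 1
    simp only [pow_add, ze_cube, ze_sq, pow_one, Complex.real_smul]
    set E := Complex.exp (π / 3 * Complex.I) ^ k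
    rw [hz]
    have hxc : (x : ℂ) = s * (2 * l - 1) * (1 - t / 2) := by rw [← e1]; push_cast; ring
    have hyc : (y : ℂ) = s * (√3 / 2) * t := by rw [← hYy, ← e2]; push_cast; ring
    rw [hxc, hyc]
    push_cast
    ring
  · have hYy : Y = -y := abs_of_neg hy1
    have hm := quad hC (vert a ((s : ℂ) * w) k) (vert a ((s : ℂ) * w) (k + 5))
      (vert a ((s : ℂ) * w) (k + 3)) (vert a ((s : ℂ) * w) (k + 4)) hl0 hl1 ht0 ht1
    convert hm using 1
    have e5 : Complex.exp (π / 3 * Complex.I) ^ 5 = 1 - Complex.exp (π / 3 * Complex.I) := by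
      rw [show (5 : ℕ) = 3 + 2 by norm_num, pow_add, ze_cube, ze_sq]; ring
    have e4 : Complex.exp (π / 3 * Complex.I) ^ 4 = - Complex.exp (π / 3 * Complex.I) := by
      rw [show (4 : ℕ) = 3 + 1 by norm_num, pow_add, ze_cube, pow_one]; ring
    simp only [pow_add, ze_cube, e5, e4, Complex.real_smul]
    set E := Complex.exp (π / 3 * Complex.I) ^ k
    rw [hz]
    have hxc : (x : ℂ) = s * (2 * l - 1) * (1 - t / 2) := by rw [← e1]; push_cast; ring
    have hyc : (y : ℂ) = -(s * (√3 / 2) * t) := by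
      have : y = -Y := by linarith
      rw [this, ← e2]; push_cast; ring
    rw [hxc, hyc]
    push_cast
    ring

private theorem int1 {r b : ℝ} (hr : 0 < r) (hb : 0 ≤ b) :
    ∫ y in Set.Icc (-b) b, 1 / (1 + (y / r) ^ 2) = 2 * r * arctan (b / r) := by
  rw [integral_Icc_eq_integral_Ioc, ← intervalIntegral.integral_of_le (by linarith)]
  have h := intervalIntegral.integral_comp_div (a := -b) (b := b)
    (fun x : ℝ => 1 / (1 + x ^ 2)) hr.ne'
  rw [h, integral_one_div_one_add_sq, neg_div, arctan_neg, smul_eq_mul]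
  ring

private theorem int2 {r b X : ℝ} (hr : 0 < r) (hb : 0 ≤ b) (hX : 0 ≤ X) :
    ∫ z in {z : ℂ | |z.re| ≤ X ∧ |z.im| ≤ b}, 1 / (1 + (z.im / r) ^ 2)
      = 2 * X * (2 * r * arctan (b / r)) := by
  have hS : {z : ℂ | |z.re| ≤ X ∧ |z.im| ≤ b}
      = Complex.measurableEquivRealProd ⁻¹' (Set.Icc (-X) X ×ˢ Set.Icc (-b) b) := by
    ext z
    simp [Complex.measurableEquivRealProd, abs_le, Complex.equivRealProd]
    tauto
  rw [hS]
  have h := (Complex.volume_preserving_equiv_real_prod).setIntegral_preimage_emb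
    Complex.measurableEquivRealProd.measurableEmbedding
    (fun p : ℝ × ℝ => 1 / (1 + (p.2 / r) ^ 2)) (Set.Icc (-X) X ×ˢ Set.Icc (-b) b)
  have h' : ∫ z in Complex.measurableEquivRealProd ⁻¹' (Set.Icc (-X) X ×ˢ Set.Icc (-b) b),
      1 / (1 + (z.im / r) ^ 2) = ∫ p in Set.Icc (-X) X ×ˢ Set.Icc (-b) b,
        1 / (1 + (p.2 / r) ^ 2) := by
    rw [← h]
    rfl
  rw [h']
  have h2 := setIntegral_prod_mul (μ := (volume : Measure ℝ)) (ν := (volume : Measure ℝ))
    (fun _ : ℝ => (1 : ℝ)) (fun y : ℝ => 1 / (1 + (y / r) ^ 2)) (Set.Icc (-X) X) (Set.Icc (-b) b)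
  simp only [one_mul] at h2
  have h3 : ∫ _ in Set.Icc (-X) X, (1 : ℝ) = 2 * X := by
    rw [integral_Icc_eq_integral_Ioc, ← intervalIntegral.integral_of_le (by linarith)]
    simp only [intervalIntegral.integral_const, smul_eq_mul, mul_one]
    ring
  rw [Measure.volume_eq_prod, h2, int1 hr hb, h3]

private theorem int3 (a d : ℂ) (hd : ‖d‖ = 1) {r b X : ℝ} (hr : 0 < r) (hb : 0 ≤ b)
    (hX : 0 ≤ X) :
    ∫ p in (fun z : ℂ => a + d * z) '' {z : ℂ | |z.re| ≤ X ∧ |z.im| ≤ b},
      1 / (1 + (ip (p - a) (Complex.I * d) / r) ^ 2) = 2 * X * (2 * r * arctan (b / r)) := by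
  have hd0 : d ≠ 0 := by intro h; simp [h] at hd
  let c : Circle := ⟨d, by simp [Submonoid.unitSphere, hd]⟩
  have hm1 : MeasurePreserving (fun z : ℂ => d * z) volume volume := by
    have := (rotation c).measurePreserving
    exact this
  have hm : MeasurePreserving (fun z : ℂ => a + d * z) volume volume :=
    (measurePreserving_add_left volume a).comp hm1
  have hemb : MeasurableEmbedding (fun z : ℂ => a + d * z) := by
    have h1 : MeasurableEmbedding (fun z : ℂ => d * z) := measurableEmbedding_mulLeft₀ hd0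
    exact (measurableEmbedding_addLeft a).comp h1
  rw [hm.setIntegral_image_emb hemb, ← int2 hr hb hX]
  congr 1
  ext z
  have hdd : d.re ^ 2 + d.im ^ 2 = 1 := by
    have := Complex.sq_norm d
    rw [hd, Complex.normSq_apply] at this
    nlinarith
  have : ip (a + d * z - a) (Complex.I * d) = z.im := by
    simp only [ip, add_sub_cancel_left, Complex.mul_re, Complex.mul_im, Complex.I_re,
      Complex.I_im]
    have e : (d.re * z.re - d.im * z.im) * (0 * d.re - 1 * d.im)
        + (d.re * z.im + d.im * z.re) * (0 * d.im + 1 * d.re)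
        = z.im * (d.re ^ 2 + d.im ^ 2) := by ring
    rw [e, hdd, mul_one]
  rw [this]

theorem hex_int (a w : ℂ) (hw : ‖w‖ = 1) {r s b : ℝ} (hr : 0 < r) (hb : 0 ≤ b)
    (hbs : b ≤ s / 2) :
    6 * (s - b) * (2 / π * arctan (b / r)) ≤ ∫ p in hexagon a ((s : ℂ) * w), hf a w r p := by
  have hcomp : IsCompact (hexagon a ((s : ℂ) * w)) :=
    (Set.finite_range _).isCompact_convexHull ℝ
  have hmeas : MeasurableSet (hexagon a ((s : ℂ) * w)) := hcomp.isClosed.measurableSet
  have hcont : ∀ k, Continuous (fun p : ℂ => 1 / (1 + (ip (p - a) (hn w k) / r) ^ 2)) := by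
    intro k
    apply Continuous.div continuous_const
    · unfold ip
      fun_prop
    · intro p
      positivity
  have hint : ∀ k, IntegrableOn (fun p : ℂ => 1 / (1 + (ip (p - a) (hn w k) / r) ^ 2))
      (hexagon a ((s : ℂ) * w)) := fun k => (hcont k).continuousOn.integrableOn_compact hcomp
  have hs0 : 0 ≤ s := by linarith
  rcases hs0.eq_or_lt with hs | hs
  · have hb0 : b = 0 := by linarith
    rw [hb0, ← hs]
    simp only [sub_zero, mul_zero, zero_mul]
    apply setIntegral_nonneg (hs ▸ hmeas)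
    intro p _
    unfold hf
    positivity
  have hX : 0 ≤ s - b := by linarith
  have key : ∀ k ∈ range 3, 2 * (s - b) * (2 * r * arctan (b / r))
      ≤ ∫ p in hexagon a ((s : ℂ) * w), 1 / (1 + (ip (p - a) (hn w k) / r) ^ 2) := by
    intro k _
    set d := w * Complex.exp (π / 3 * Complex.I) ^ k with hd
    have hd1 : ‖d‖ = 1 := by rw [hd, norm_mul, norm_pow, ze_norm, hw]; simp
    rw [← int3 a d hd1 hr hb hX]
    have hnd : hn w k = Complex.I * d := by rw [hn, hd]; ring
    rw [hnd]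
    apply setIntegral_mono_set
    · have := hint k
      rwa [hnd] at this
    · exact Filter.Eventually.of_forall (fun p => by positivity)
    · apply LE.le.eventuallyLE
      rintro _ ⟨z, ⟨hz1, hz2⟩, rfl⟩
      have := rect_mem a w k hs hz1 hz2 hbs
      rwa [← hd, Complex.re_add_im] at this
  unfold hf
  rw [integral_const_mul, integral_finsetSum _ (fun k _ => hint k)]
  have hsum := Finset.sum_le_sum key
  rw [Finset.sum_const, card_range] at hsum
  calc 6 * (s - b) * (2 / π * arctan (b / r))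
      = 1 / (π * r) * (3 • (2 * (s - b) * (2 * r * arctan (b / r)))) := by
        simp only [nsmul_eq_mul]
        field_simp
        push_cast
        ring
    _ ≤ _ := by
        apply mul_le_mul_of_nonneg_left hsum
        positivity

end Pool.Agent.Helper98.HX
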