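import Pool.Agent.Helper98.HX.Cluster
import Pool.Agent.Helper98.HX.HexI

/-!
# HX-17: clusters near a regular hexagon are expensive

Let `ε > 0`, `θ = min ε 1 / 10`.  Choose `0 < κ ≤ 1/2` with `6 (1 - κ) (2/π) arctan (1/κ) ≥ 6 - θ` (limit `κ → 0`).  `s = √N`, `b = κ s`, `r = κ² s`, `m = 1/κ²` (`1/r = m/√N`), `C, N0` from `cluster_field`.
`H = hexagon a (√N w)`, `U = ⋃ R i`: `∫_U hf ≥ ∫_H hf - ∫_{H \ U} hf ≥ (6 - θ) √N - (2 m/√N) vol (H \ U)` (`hf ≤ 2/r`; `H` is compact, `U` has finite volume, `hf` is integrable on both) `≥ (6 - θ - 2 m δ) √N` if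
`vol (symmDiff U H) ≤ δ N`.  `δ = θ/(2 m)`; `c0 = π/6`: `cp ≥ 3 N + (π/6) (6 - 2 θ) √N - C ≥ 3 N + (π - ε) √N` for large `N`.
-/

namespace Pool.Agent.Helper98.HX

open Finset Real Pool.Agent.Helper98.LC MeasureTheory
open scoped symmDiff

private theorem exists_kappa {θ : ℝ} (hθ : 0 < θ) : ∃ κ : ℝ, 0 < κ ∧ κ ≤ 1 / 2 ∧
    6 - θ ≤ 6 * (1 - κ) * (2 / π * arctan (1 / κ)) := by
  have h1 : Filter.Tendsto (fun κ : ℝ => 6 * (1 - κ) * (2 / π * arctan (1 / κ)))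
      (nhdsWithin 0 (Set.Ioi 0)) (nhds (6 * (1 - 0) * (2 / π * (π / 2)))) := by
    refine Filter.Tendsto.mul ?_ (Filter.Tendsto.const_mul _ ?_)
    · refine Filter.Tendsto.const_mul _ (tendsto_const_nhds.sub ?_)
      exact tendsto_nhdsWithin_of_tendsto_nhds Filter.tendsto_id
    · have h2 : Filter.Tendsto (fun κ : ℝ => 1 / κ) (nhdsWithin 0 (Set.Ioi 0)) Filter.atTop := by
        simpa using tendsto_inv_nhdsGT_zero (𝕜 := ℝ)
      exact (tendsto_arctan_atTop.mono_right nhdsWithin_le_nhds).comp h2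
  have h2 : 6 * (1 - 0) * (2 / π * (π / 2)) = 6 := by
    have := pi_pos.ne'
    field_simp
    norm_num
  rw [h2] at h1
  have h3 := h1.eventually (lt_mem_nhds (show 6 - θ < 6 by linarith))
  have h4 : ∀ᶠ κ in nhdsWithin (0 : ℝ) (Set.Ioi 0), κ ∈ Set.Ioc (0 : ℝ) (1 / 2) :=
    Ioc_mem_nhdsGT (by norm_num)
  obtain ⟨κ, h5, h6⟩ := (h3.and h4).exists
  exact ⟨κ, h6.1, h6.2, h5.le⟩

private theorem int_diff {f : ℂ → ℝ} (hf : Continuous f) (h0 : ∀ p, 0 ≤ f p) {c : ℝ}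
    (hc : ∀ p, f p ≤ c) {U H : Set ℂ} (hU : MeasurableSet U) (hUf : volume U < ⊤)
    (hHf : volume H < ⊤) {d : ℝ} (hd0 : 0 ≤ d)
    (hd : volume (U ∆ H) ≤ ENNReal.ofReal d) :
    ∫ p in H, f p ≤ (∫ p in U, f p) + c * d := by
  have hc0 : 0 ≤ c := (h0 0).trans (hc 0)
  have hn : ∀ p, ‖f p‖ ≤ c := fun p => by
    rw [Real.norm_eq_abs, abs_of_nonneg (h0 p)]
    exact hc p
  have hint : ∀ S : Set ℂ, volume S < ⊤ → IntegrableOn f S := fun S hS =>
    Measure.integrableOn_of_bounded hS.ne hf.aestronglyMeasurable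
      (Filter.Eventually.of_forall hn)
  have h1 := integral_inter_add_sdiff hU (hint H hHf)
  have h2 : ∫ p in H ∩ U, f p ≤ ∫ p in U, f p :=
    setIntegral_mono_set (hint U hUf) (Filter.Eventually.of_forall h0)
      (Filter.Eventually.of_forall fun p hp => hp.2)
  have h3 : volume (H \ U) ≤ ENNReal.ofReal d := by
    refine (measure_mono ?_).trans hd
    intro p hp
    exact Or.inr hp
  have h4 : (volume (H \ U)).toReal ≤ d := by
    have := ENNReal.toReal_mono ENNReal.ofReal_ne_top h3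
    rwa [ENNReal.toReal_ofReal hd0] at this
  have h5 : ∫ p in H \ U, f p ≤ c * d := by
    have h6 := norm_setIntegral_le_of_norm_le_const (μ := volume) (s := H \ U) (f := f) (C := c)
      (h3.trans_lt ENNReal.ofReal_lt_top) (fun p _ => hn p)
    refine (Real.le_norm_self _).trans (h6.trans ?_)
    exact mul_le_mul_of_nonneg_left h4 hc0
  linarith

theorem near_hexagon {ε : ℝ} (hε : 0 < ε) : ∃ δ : ℝ, 0 < δ ∧ ∀ᶠ N : ℕ in Filter.atTop,
    ∀ R : Fin N → Set ℂ, Pool.Agent.Helper79.HC.IsCluster R →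
      ∀ a w : ℂ, ‖w‖ = 1 →
        volume ((⋃ i, R i) ∆ hexagon a ((√N : ℝ) * w)) ≤ ENNReal.ofReal (δ * N) →
        ENNReal.ofReal (3 * N + (π - ε) * √N) ≤ Pool.Agent.Helper79.HC.clusterPer R := by
  have hθ : 0 < min ε 1 / 10 := by positivity
  have hθε : min ε 1 / 10 ≤ ε / 10 := by
    have := min_le_left ε 1
    linarith
  obtain ⟨θ, hθd⟩ : ∃ θ, θ = min ε 1 / 10 := ⟨_, rfl⟩
  rw [← hθd] at hθ hθε
  obtain ⟨κ, hκ0, hκ1, hκ⟩ := exists_kappa hθ
  obtain ⟨m, hm⟩ : ∃ m : ℝ, m = 1 / κ ^ 2 := ⟨_, rfl⟩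
  have hm0 : 0 < m := by
    rw [hm]
    positivity
  obtain ⟨C, N0, hC⟩ := cluster_field hm0.le
  refine ⟨θ / (2 * m), by positivity, ?_⟩
  have hpos : 0 < ε - π * θ / 3 := by
    have h4 := pi_lt_four
    nlinarith
  have hev1 : ∀ᶠ N : ℕ in Filter.atTop, C ≤ (ε - π * θ / 3) * √(N : ℝ) :=
    ((tendsto_sqrt_atTop.comp tendsto_natCast_atTop_atTop).const_mul_atTop hpos).eventually
      (Filter.eventually_ge_atTop C)
  have hev2 : ∀ᶠ N : ℕ in Filter.atTop, N0 ≤ (N : ℝ) :=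
    tendsto_natCast_atTop_atTop.eventually (Filter.eventually_ge_atTop N0)
  filter_upwards [hev1, hev2, Filter.eventually_ge_atTop 1] with N h1N h2N h3N R hR a w hw hvol
  by_cases htop : Pool.Agent.Helper79.HC.clusterPer R < ⊤
  swap
  · rw [not_lt_top_iff] at htop
    rw [htop]
    exact le_top
  have hN0 : (0 : ℝ) < N := by exact_mod_cast h3N
  have hs : 0 < √(N : ℝ) := Real.sqrt_pos.2 hN0
  have hss : √(N : ℝ) * √(N : ℝ) = N := Real.mul_self_sqrt hN0.le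
  obtain ⟨s, hsd⟩ : ∃ s, s = √(N : ℝ) := ⟨_, rfl⟩
  rw [← hsd] at hs hss h1N hvol ⊢
  have hr : 0 < κ ^ 2 * s := by positivity
  have hF := hex_field a w hw hr
  have hmeq : 1 / (κ ^ 2 * s) = m / s := by
    rw [hm]
    field_simp
  rw [hmeq] at hF
  have hF' := hF
  rw [hsd] at hF'
  have h1 := hC N h2N R hR htop _ _ _ hF'
  rw [← hsd] at h1
  have hks : κ * s ≤ s / 2 := by nlinarith
  have h2 := hex_int a w hw hr (b := κ * s) (by positivity) hks
  have hU : MeasurableSet (⋃ i, R i) := MeasurableSet.iUnion hR.measurable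
  have hUf : volume (⋃ i, R i) < ⊤ := by
    refine (measure_iUnion_fintype_le _ _).trans_lt (ENNReal.sum_lt_top.2 fun i _ => ?_)
    rw [hR.area i]
    exact ENNReal.ofReal_lt_top
  have hHc : IsCompact (hexagon a ((s : ℂ) * w)) := by
    unfold hexagon
    exact Set.Finite.isCompact_convexHull ℝ (Set.finite_range _)
  have h3 := int_diff hF.cont hF.fnn hF.fle hU hUf hHc.measure_lt_top
    (d := θ / (2 * m) * N) (by positivity) hvol
  have e1 : 2 * (m / s) * (θ / (2 * m) * N) = θ * s := by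
    rw [← hss]
    field_simp
  rw [e1] at h3
  have e2 : κ * s / (κ ^ 2 * s) = 1 / κ := by field_simp
  rw [e2] at h2
  have e3 : 6 * (s - κ * s) * (2 / π * arctan (1 / κ)) =
      s * (6 * (1 - κ) * (2 / π * arctan (1 / κ))) := by ring
  rw [e3] at h2
  have h4 : s * (6 - θ) ≤ s * (6 * (1 - κ) * (2 / π * arctan (1 / κ))) :=
    mul_le_mul_of_nonneg_left hκ hs.le
  have h5 : (6 - 2 * θ) * s ≤ ∫ p in ⋃ i, R i, hf a w (κ ^ 2 * s) p := by linarith
  have h6 : Pool.Agent.Helper98.LC3.c0 * ((6 - 2 * θ) * s) ≤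
      Pool.Agent.Helper98.LC3.c0 * ∫ p in ⋃ i, R i, hf a w (κ ^ 2 * s) p :=
    mul_le_mul_of_nonneg_left h5 (by unfold Pool.Agent.Helper98.LC3.c0; positivity)
  have e4 : Pool.Agent.Helper98.LC3.c0 * ((6 - 2 * θ) * s) = (π - π * θ / 3) * s := by
    unfold Pool.Agent.Helper98.LC3.c0
    ring
  rw [e4] at h6
  refine ENNReal.ofReal_le_of_le_toReal ?_
  linarith

end Pool.Agent.Helper98.HX
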