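import Pool.Agent.Helper98.HX.Defs

/-!
# HX-01: the flux

* `fx_swap`, `fx_self`: `(a + b)/2 = (b + a)/2`, `cr` is linear in the second argument.
* `fx_le`: `|cr u v| ≤ ‖u‖ ‖v‖`.
* `fd_rev`: `rev (x, k) = (x + dir k, k + 3)`; `G.q_rev`; `G.z (x + dir k) (k + 2) = G.z x k` (`z_rot`) and `G.z (x + dir k) (k + 3) = G.z x (k - 1)` (`z_rot` for `(x, k - 1)` twice, or for the dart
  `(x + dir k, k + 3)`); the path of `rev d` is the path of `d` backwards.  (The same for `et`: look for the lemma `et_rev` in `Helper98/LC/B`.)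
* `fd_le`: `Net.w`.
* `fx_closed`: `∑ (p (t+1) - p t) = 0`, so the sum is `∑ cr (X (mid t) - X (p 0)) (p (t+1) - p t)`, and `‖mid t - p 0‖ ≤ plen p m` (both `p t` and `p (t+1)` have distance `≤ plen p m` from `p 0`).
-/

namespace Pool.Agent.Helper98.HX

open Finset Real Pool.Agent.Helper98.LC

variable {X : ℂ → ℂ} {M : ℝ}

private theorem cr_abs_le (a b : ℂ) : |cr a b| ≤ ‖a‖ * ‖b‖ := by
  have h1 : cr a b = (starRingEnd ℂ a * b).im := by
    unfold cr
    simp [Complex.mul_im]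
    ring
  rw [h1]
  refine (Complex.abs_im_le_norm _).trans ?_
  rw [norm_mul, RCLike.norm_conj]

private theorem cr_add_right (a b c : ℂ) : cr a (b + c) = cr a b + cr a c := by
  unfold cr
  rw [Complex.add_re, Complex.add_im]
  ring

private theorem cr_neg_right (a b : ℂ) : cr a (-b) = - cr a b := by
  unfold cr
  rw [Complex.neg_re, Complex.neg_im]
  ring

private theorem cr_sub_left (a b c : ℂ) : cr (a - b) c = cr a c - cr b c := by
  unfold cr
  rw [Complex.sub_re, Complex.sub_im]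
  ring

private theorem cr_zero_right (a : ℂ) : cr a 0 = 0 := by
  unfold cr
  simp

theorem fx_swap (X : ℂ → ℂ) (a b : ℂ) : fx X b a = - fx X a b := by
  unfold fx
  rw [add_comm b a, ← neg_sub b a, cr_neg_right]

theorem fx_self (X : ℂ → ℂ) (a : ℂ) : fx X a a = 0 := by
  unfold fx
  rw [sub_self, cr_zero_right]

theorem fx_le (hX : Fld X M) (a b : ℂ) : |fx X a b| ≤ ‖b - a‖ := by
  unfold fx
  refine (cr_abs_le _ _).trans ?_
  calc ‖X ((a + b) / 2)‖ * ‖b - a‖ ≤ 1 * ‖b - a‖ :=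
        mul_le_mul_of_nonneg_right (hX.le_one _) (norm_nonneg _)
    _ = ‖b - a‖ := one_mul _

theorem fd_rev (X : ℂ → ℂ) (G : Net) (d : V × Fin 6) : fd X G (rev d) = - fd X G d := by
  have h1 := zl_rev G d
  have h2 := zr_rev G d
  have h3 : G.q (rev d).1 (rev d).2 = G.q d.1 d.2 := G.q_rev d.1 d.2
  unfold Net.zl at h1 h2
  unfold fd
  rw [h1, h2, h3, fx_swap X (G.q d.1 d.2) (G.z d.1 d.2),
    fx_swap X (G.z d.1 (d.2 - 1)) (G.q d.1 d.2)]
  ring

theorem fd_le (hX : Fld X M) (G : Net) (d : V × Fin 6) : |fd X G d| ≤ G.w d := by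
  unfold fd Net.w
  exact (abs_add_le _ _).trans (add_le_add (fx_le hX _ _) (fx_le hX _ _))

private theorem plen_mono (p : ℕ → ℂ) {a b : ℕ} (h : a ≤ b) : plen p a ≤ plen p b := by
  unfold plen
  exact Finset.sum_le_sum_of_subset_of_nonneg (Finset.range_mono h) fun _ _ _ => norm_nonneg _

private theorem norm_sub_le_plen (p : ℕ → ℂ) (t : ℕ) : ‖p t - p 0‖ ≤ plen p t := by
  induction t with
  | zero => simp [plen]
  | succ t ih =>
    unfold plen at ih ⊢
    rw [Finset.sum_range_succ]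
    calc ‖p (t + 1) - p 0‖ = ‖(p t - p 0) + (p (t + 1) - p t)‖ := by
          congr 1
          ring
      _ ≤ ‖p t - p 0‖ + ‖p (t + 1) - p t‖ := norm_add_le _ _
      _ ≤ _ := by linarith

theorem fx_closed (hX : Fld X M) (p : ℕ → ℂ) (m : ℕ) (hp : p m = p 0) :
    |∑ t ∈ range m, fx X (p t) (p (t + 1))| ≤ M * plen p m ^ 2 := by
  have hlin : ∀ (u : ℂ) (k : ℕ), ∑ t ∈ range k, cr u (p (t + 1) - p t) = cr u (p k - p 0) := by
    intro u k
    induction k with
    | zero => simp [cr_zero_right]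
    | succ k ih =>
      rw [Finset.sum_range_succ, ih, ← cr_add_right]
      congr 1
      ring
  have h1 : ∑ t ∈ range m, fx X (p t) (p (t + 1)) =
      ∑ t ∈ range m, cr (X ((p t + p (t + 1)) / 2) - X (p 0)) (p (t + 1) - p t) := by
    have h2 : ∑ t ∈ range m, cr (X (p 0)) (p (t + 1) - p t) = 0 := by
      rw [hlin, hp, sub_self, cr_zero_right]
    have h3 : ∀ t ∈ range m, cr (X ((p t + p (t + 1)) / 2) - X (p 0)) (p (t + 1) - p t) =
        fx X (p t) (p (t + 1)) - cr (X (p 0)) (p (t + 1) - p t) := by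
      intro t _
      rw [cr_sub_left]
      rfl
    rw [Finset.sum_congr rfl h3, Finset.sum_sub_distrib, h2, sub_zero]
  have hpl : 0 ≤ plen p m := by
    unfold plen
    positivity
  rw [h1]
  refine (Finset.abs_sum_le_sum_abs _ _).trans ?_
  have h4 : ∀ t ∈ range m, |cr (X ((p t + p (t + 1)) / 2) - X (p 0)) (p (t + 1) - p t)| ≤
      M * plen p m * ‖p (t + 1) - p t‖ := by
    intro t ht
    have ht' : t < m := Finset.mem_range.1 ht
    refine (cr_abs_le _ _).trans ?_
    refine mul_le_mul_of_nonneg_right ?_ (norm_nonneg _)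
    refine (hX.lip _ _).trans ?_
    refine mul_le_mul_of_nonneg_left ?_ hX.nonneg
    have h5 : ‖p t - p 0‖ ≤ plen p m := (norm_sub_le_plen p t).trans (plen_mono p ht'.le)
    have h6 : ‖p (t + 1) - p 0‖ ≤ plen p m := (norm_sub_le_plen p (t + 1)).trans (plen_mono p ht')
    have h7 : (p t + p (t + 1)) / 2 - p 0 = (1 / 2 : ℂ) * (p t - p 0) +
        (1 / 2 : ℂ) * (p (t + 1) - p 0) := by ring
    rw [h7]
    refine (norm_add_le _ _).trans ?_
    rw [norm_mul, norm_mul]
    have h8 : ‖(1 / 2 : ℂ)‖ = 1 / 2 := by simp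
    rw [h8]
    linarith
  refine (Finset.sum_le_sum h4).trans ?_
  rw [← Finset.mul_sum]
  have h9 : ∑ t ∈ range m, ‖p (t + 1) - p t‖ = plen p m := rfl
  rw [h9]
  exact le_of_eq (by ring)

end Pool.Agent.Helper98.HX
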