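import Pool.Agent.Helper98.HX.SumA

/-!
# HX-07: the flux through the shifted outer polygon

`∑_{c x ≠ o} ∑ k fd (x, k) = - ∑_{d, c d.1 = o} fd d` (`sum_anti`, `fd_rev`) `= - ∑_{e ∈ corners o} Fe e`, `Fe e = ∑_{j ∈ Icc 1 (emul e)} fd (edart e j)` (`sum_edges`).
* `ar (enb e) ≥ 2`: `|Fe e| ≤ elen e = lam3 e` (`fd_le`), and `TT e = TT (es e) = 0` (`cx_zs_big` in `AS/Curve3.lean`), so `fx (zl e) (zs e) = 0 = fx (zs (es e)) (zl (es e))`.
* `ar (enb e) < 2`: the closed path `zl e → .. → zl (es e)` (path of the edge, `cxp` in `AS/Curve3.lean`, `2 * emul` segments) `→ zs (es e) → zs e → zl e` has the length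
  `elen + ‖TT (es e)‖ + lam3 + ‖TT e‖ ≤ 2 elen + 2 ‖TT e‖ + 2 ‖TT (es e)‖ ≤ 7` (`elen ≤ 3.1` as in `cx_bul`, `TT_norm`), so by `fx_closed`
  `|Fe e - (fx (zl e) (zs e) + fx (zs e) (zs (es e)) + fx (zs (es e)) (zl (es e)))| ≤ 7 M (2 elen + 2 ‖TT e‖ + 2 ‖TT (es e)‖)`, and `|fx (zs e) (zs (es e))| ≤ lam3 e`.
* `∑_e (fx (zl e) (zs e) + fx (zs (es e)) (zl (es e))) = ∑_e (fx (zl e) (zs e) - fx (zl (es e)) (zs (es e))) = 0` (`es_bij`, `fx_swap`).
* So the left side is `≤ La + 7 M (2 Lo + 4 ∑ ‖TT e‖)`; `Lo ≤ 13 La + 10^7 SD` (`len_le`), `∑ ‖TT e‖ ≤ .16 (4 La + 10^6 SD)` (see `shift_area`).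
-/

namespace Pool.Agent.Helper98.HX

open Finset Real Pool.Agent.Helper98.LC
open Pool.Agent.Helper38.AS (Good La SD Lo lam3 zs TT len_le TT_norm TT_count enb_third tip_es)

variable {ι : Type} [DecidableEq ι]

/-- the path of the edge which starts at the corner `d` -/
private noncomputable def fqp (G : Net) (c : V → ι) (d : V × Fin 6) (t : ℕ) : ℂ :=
  if t % 2 = 0 then G.zl (edart c d (t / 2))
  else G.q (edart c d (t / 2 + 1)).1 (edart c d (t / 2 + 1)).2

private theorem fqp_even (G : Net) (c : V → ι) (d : V × Fin 6) (j : ℕ) :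
    fqp G c d (2 * j) = G.zl (edart c d j) := by
  unfold fqp
  rw [if_pos (by omega), show 2 * j / 2 = j by omega]

private theorem fqp_odd (G : Net) (c : V → ι) (d : V × Fin 6) (j : ℕ) :
    fqp G c d (2 * j + 1) = G.q (edart c d (j + 1)).1 (edart c d (j + 1)).2 := by
  unfold fqp
  rw [if_neg (by omega), show (2 * j + 1) / 2 = j by omega]

private theorem fq_succ (c : V → ι) (d : V × Fin 6) (j : ℕ) :
    edart c d (j + 1) = next c (edart c d j) := by
  unfold edart
  rw [Function.iterate_succ_apply']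

private theorem fq_zr (G : Net) (c : V → ι) (d : V × Fin 6) (j : ℕ) :
    G.z (edart c d (j + 1)).1 ((edart c d (j + 1)).2 - 1) = G.zl (edart c d j) := by
  rw [fq_succ]
  exact zr_next G c _

private theorem fq_plen (G : Net) (c : V → ι) (d : V × Fin 6) (m : ℕ) :
    plen (fqp G c d) (2 * m) = ∑ j ∈ Icc 1 m, G.w (edart c d j) := by
  induction m with
  | zero => simp [plen]
  | succ m ih =>
    rw [sum_Icc_succ_top (by omega), ← ih]
    unfold plen
    rw [show 2 * (m + 1) = 2 * m + 1 + 1 by ring, sum_range_succ, sum_range_succ, fqp_even,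
      fqp_odd, show 2 * m + 1 + 1 = 2 * (m + 1) by ring, fqp_even]
    unfold Net.w
    rw [fq_zr, add_assoc]
    rfl

private theorem fq_flux (X : ℂ → ℂ) (G : Net) (c : V → ι) (d : V × Fin 6) (m : ℕ) :
    ∑ t ∈ range (2 * m), fx X (fqp G c d t) (fqp G c d (t + 1)) =
      ∑ j ∈ Icc 1 m, fd X G (edart c d j) := by
  induction m with
  | zero => simp
  | succ m ih =>
    rw [sum_Icc_succ_top (by omega), ← ih]
    rw [show 2 * (m + 1) = 2 * m + 1 + 1 by ring, sum_range_succ, sum_range_succ, fqp_even,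
      fqp_odd, show 2 * m + 1 + 1 = 2 * (m + 1) by ring, fqp_even]
    unfold fd
    rw [fq_zr, add_assoc]
    rfl

private theorem fq_zero (G : Net) (c : V → ι) (d : V × Fin 6) : fqp G c d 0 = G.zl d :=
  fqp_even G c d 0

private theorem fq_end (G : Net) (c : V → ι) (d : V × Fin 6) :
    fqp G c d (2 * emul c d) = G.zl (es c d) := fqp_even G c d (emul c d)

private theorem fq_len (G : Net) (c : V → ι) (d : V × Fin 6) :
    plen (fqp G c d) (2 * emul c d) = elen G c d := fq_plen G c d _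

private theorem fq_elen_nonneg (G : Net) (c : V → ι) (d : V × Fin 6) : 0 ≤ elen G c d := by
  unfold elen
  exact sum_nonneg fun j _ => w_nonneg G _

private theorem fq_chd_le (G : Net) (c : V → ι) (d : V × Fin 6) :
    ‖G.zl (es c d) - G.zl d‖ ≤ elen G c d := by
  have h1 := chord_le (fqp G c d) (2 * emul c d)
  rw [fq_end, fq_zero, fq_len] at h1
  exact h1

private theorem fq_reindex {c : V → ι} {o : ι} {n : ℕ} (h : OutBox c o n) (f : V × Fin 6 → ℝ) :
    ∑ e ∈ corners c n o, f (es c e) = ∑ e ∈ corners c n o, f e := by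
  have hb := es_bij h o
  refine Finset.sum_bij (fun e _ => es c e) (fun e he => es_mem h he) ?_ ?_ (fun _ _ => rfl)
  · intro a ha b hb' hab
    exact hb.2.1 (Finset.mem_coe.2 ha) (Finset.mem_coe.2 hb') hab
  · intro b hb'
    obtain ⟨a, ha, hab⟩ := hb.2.2 (Finset.mem_coe.2 hb')
    exact ⟨a, Finset.mem_coe.1 ha, hab⟩

private theorem fq_zs_big {c : V → ι} {o : ι} {n : ℕ} (G : Net) (h : OutBox c o n)
    {d : V × Fin 6} (hd : IsCorner c d) (hb : ¬ ar G c n (enb c d) < 2) :
    zs G c o n d = G.zl d ∧ zs G c o n (es c d) = G.zl (es c d) := by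
  constructor
  · unfold zs TT
    rw [if_neg, sub_zero]
    intro hh
    refine hb ?_
    rw [enb_third hd]
    exact hh.2.2.2.2
  · unfold zs TT
    rw [if_neg, sub_zero]
    intro hh
    refine hb ?_
    rw [← tip_es h hd]
    exact hh.1.2.2.2

private theorem fq_elen31 [Fintype ι] {G : Net} {c : V → ι} {o : ι} {n : ℕ}
    (hg : Good G c o n) {d : V × Fin 6}
    (hd : d ∈ corners c n o) (hsm : ar G c n (enb c d) < 2) : elen G c d ≤ 3.1 := by
  classical
  obtain ⟨hc, hco⟩ := (mem_corners hg.out o d).1 hd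
  obtain ⟨e1, e2, e3, _⟩ := eopp_corner hg.out hc
  have hi : enb c d ≠ o := by
    rw [← hco]
    exact enb_ne hc
  have hd' : eopp c d ∈ corners c n (enb c d) := (mem_corners hg.out _ _).2 ⟨e1, e2⟩
  have hdO : eopp c d ∈ Pool.Agent.Helper38.AS.Oi c o n (enb c d) := by
    unfold Pool.Agent.Helper38.AS.Oi
    exact mem_filter.2 ⟨hd', e3.trans hco⟩
  have h1 : elen G c (eopp c d) ≤
      ∑ x ∈ Pool.Agent.Helper38.AS.Oi c o n (enb c d), elen G c x :=
    single_le_sum (f := fun x => elen G c x) (fun x _ => fq_elen_nonneg G c x) hdO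
  have h1' := hg.cap_sum _ hi
  rw [elen_eopp G hg.out hc] at h1
  have h5 : min 1 (ar G c n (enb c d)) ≤ 1 := min_le_left _ _
  linarith

/-- the closed path along the edge and back along the shifted edge -/
private noncomputable def fqc (p : ℕ → ℂ) (m : ℕ) (a b : ℂ) (t : ℕ) : ℂ :=
  if t ≤ m then p t else if t = m + 1 then a else if t = m + 2 then b else p 0

private theorem fqc_closed {X : ℂ → ℂ} {M : ℝ} (hX : Fld X M) (p : ℕ → ℂ) (m : ℕ) (a b : ℂ) :
    |∑ t ∈ range m, fx X (p t) (p (t + 1)) + fx X (p m) a + fx X a b + fx X b (p 0)| ≤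
      M * (plen p m + ‖a - p m‖ + ‖b - a‖ + ‖p 0 - b‖) ^ 2 := by
  have e0 : ∀ t, t ≤ m → fqc p m a b t = p t := by
    intro t ht
    unfold fqc
    rw [if_pos ht]
  have e1 : fqc p m a b (m + 1) = a := by
    unfold fqc
    rw [if_neg (by omega), if_pos rfl]
  have e2 : fqc p m a b (m + 1 + 1) = b := by
    unfold fqc
    rw [if_neg (by omega), if_neg (by omega), if_pos rfl]
  have e3 : fqc p m a b (m + 1 + 1 + 1) = p 0 := by
    unfold fqc
    rw [if_neg (by omega), if_neg (by omega), if_neg (by omega)]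
  have h := fx_closed hX (fqc p m a b) (m + 1 + 1 + 1) (by rw [e3, e0 0 (Nat.zero_le m)])
  rw [sum_range_succ, sum_range_succ, sum_range_succ, e3, e2, e1, e0 m le_rfl] at h
  have h1 : ∑ t ∈ range m, fx X (fqc p m a b t) (fqc p m a b (t + 1)) =
      ∑ t ∈ range m, fx X (p t) (p (t + 1)) := by
    refine sum_congr rfl fun t ht => ?_
    have := mem_range.1 ht
    rw [e0 t (by omega), e0 (t + 1) (by omega)]
  have h2 : plen (fqc p m a b) (m + 1 + 1 + 1) =
      plen p m + ‖a - p m‖ + ‖b - a‖ + ‖p 0 - b‖ := by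
    unfold plen
    rw [sum_range_succ, sum_range_succ, sum_range_succ, e3, e2, e1, e0 m le_rfl]
    congr 3
    refine sum_congr rfl fun t ht => ?_
    have := mem_range.1 ht
    rw [e0 t (by omega), e0 (t + 1) (by omega)]
  rw [h1, h2] at h
  exact h

private theorem fq_edge [Fintype ι] {G : Net} {c : V → ι} {o : ι} {n : ℕ} {X : ℂ → ℂ} {M : ℝ}
    (hX : Fld X M) (hg : Good G c o n) {e : V × Fin 6} (he : e ∈ corners c n o) :
    - ∑ j ∈ Icc 1 (emul c e), fd X G (edart c e j) ≤
      - fx X (G.zl e) (zs G c o n e) + fx X (G.zl (es c e)) (zs G c o n (es c e)) +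
      lam3 G c o n e + 7 * M * (2 * elen G c e + 2 * ‖TT G c o n e‖ +
        2 * ‖TT G c o n (es c e)‖) := by
  have hM := hX.nonneg
  have n0 := fq_elen_nonneg G c e
  have n1 := norm_nonneg (TT G c o n e)
  have n2 := norm_nonneg (TT G c o n (es c e))
  have hc := ((mem_corners hg.out o e).1 he).1
  by_cases hs : ar G c n (enb c e) < 2
  · have h31 := fq_elen31 hg he hs
    have t1 := TT_norm hg he
    have t2 := TT_norm hg (es_mem hg.out he)
    have k := fqc_closed hX (fqp G c e) (2 * emul c e) (zs G c o n (es c e)) (zs G c o n e)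
    rw [fq_flux, fq_end, fq_zero, fq_len] at k
    have a1 : ‖zs G c o n (es c e) - G.zl (es c e)‖ = ‖TT G c o n (es c e)‖ := by
      unfold zs
      rw [sub_sub_cancel_left, norm_neg]
    have a2 : ‖G.zl e - zs G c o n e‖ = ‖TT G c o n e‖ := by
      unfold zs
      rw [sub_sub_cancel]
    have a3 : ‖zs G c o n e - zs G c o n (es c e)‖ ≤
        elen G c e + ‖TT G c o n e‖ + ‖TT G c o n (es c e)‖ := by
      have b1 : zs G c o n e - zs G c o n (es c e) =
          -(G.zl (es c e) - G.zl e) - TT G c o n e + TT G c o n (es c e) := by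
        unfold zs
        ring
      rw [b1]
      refine (norm_add_le _ _).trans ?_
      have b2 := norm_sub_le (-(G.zl (es c e) - G.zl e)) (TT G c o n e)
      rw [norm_neg] at b2
      have b3 := fq_chd_le G c e
      linarith
    have a4 : lam3 G c o n e = ‖zs G c o n e - zs G c o n (es c e)‖ := by
      unfold lam3
      rw [if_pos hs, norm_sub_rev]
    have a5 := abs_le.1 (fx_le hX (zs G c o n (es c e)) (zs G c o n e))
    rw [← a4] at a5
    rw [a1, a2] at k
    set P := elen G c e + ‖TT G c o n (es c e)‖ + ‖zs G c o n e - zs G c o n (es c e)‖ +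
      ‖TT G c o n e‖ with hP
    have p0 : 0 ≤ P := by positivity
    have p1 : P ≤ 2 * elen G c e + 2 * ‖TT G c o n e‖ + 2 * ‖TT G c o n (es c e)‖ := by
      rw [hP]
      linarith
    have p2 : P ≤ 7 := by linarith
    have p3 : M * P ^ 2 ≤ 7 * M * (2 * elen G c e + 2 * ‖TT G c o n e‖ +
        2 * ‖TT G c o n (es c e)‖) := by
      have q1 : P ^ 2 ≤ 7 * P := by nlinarith
      have q2 : M * P ^ 2 ≤ M * (7 * P) := mul_le_mul_of_nonneg_left q1 hM
      have q3 : 7 * M * P ≤ 7 * M * (2 * elen G c e + 2 * ‖TT G c o n e‖ +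
        2 * ‖TT G c o n (es c e)‖) := mul_le_mul_of_nonneg_left p1 (by positivity)
      linarith
    have k2 := (abs_le.1 k).1
    have sw1 := fx_swap X (G.zl e) (zs G c o n e)
    linarith [a5.1, a5.2]
  · obtain ⟨z1, z2⟩ := fq_zs_big G hg.out hc hs
    rw [z1, z2, fx_self, fx_self]
    have h1 : |∑ j ∈ Icc 1 (emul c e), fd X G (edart c e j)| ≤ elen G c e := by
      unfold elen
      exact (abs_sum_le_sum_abs _ _).trans (sum_le_sum fun j _ => fd_le hX G _)
    have h2 : lam3 G c o n e = elen G c e := by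
      unfold lam3
      rw [if_neg hs]
    have h3 : 0 ≤ 7 * M * (2 * elen G c e + 2 * ‖TT G c o n e‖ +
        2 * ‖TT G c o n (es c e)‖) := by positivity
    have h4 := (abs_le.1 h1).1
    rw [h2]
    linarith

private theorem fq_TT [Fintype ι] {G : Net} {c : V → ι} {o : ι} {n : ℕ} (hg : Good G c o n) :
    ∑ e ∈ corners c n o, ‖TT G c o n e‖ ≤ 0.16 * (4 * La G c o n + 10 ^ 6 * SD G c o n) := by
  classical
  have h5 : ∑ e ∈ corners c n o, ‖TT G c o n e‖ =
      ∑ e ∈ (corners c n o).filter (fun e => TT G c o n e ≠ 0), ‖TT G c o n e‖ := by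
    rw [sum_filter]
    refine sum_congr rfl fun e _ => ?_
    split_ifs with h6
    · rfl
    · rw [not_not.1 h6, norm_zero]
  rw [h5]
  have h7 : ∑ e ∈ (corners c n o).filter (fun e => TT G c o n e ≠ 0), ‖TT G c o n e‖ ≤
      ((corners c n o).filter (fun e => TT G c o n e ≠ 0)).card • (0.16 : ℝ) :=
    sum_le_card_nsmul _ _ _ fun e he => TT_norm hg (mem_filter.1 he).1
  rw [nsmul_eq_mul] at h7
  have h8 := TT_count hg
  linarith

theorem flux3 [Fintype ι] {G : Net} {c : V → ι} {o : ι} {n : ℕ} {X : ℂ → ℂ} {M : ℝ}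
    (hX : Fld X M) (hg : Good G c o n) :
    ∑ x ∈ (box n).filter (fun x => c x ≠ o), ∑ k, fd X G (x, k) ≤
      La G c o n + M * (200 * La G c o n + 10 ^ 9 * SD G c o n) := by
  classical
  have h1 := sum_anti hg.out (fd X G) (fd_rev X G)
  have h2 := sum_edges hg.out hg.loop o (fd X G)
  have h3 : ∑ x ∈ (box n).filter (fun x => c x ≠ o), ∑ k, fd X G (x, k) =
      ∑ e ∈ corners c n o, - ∑ j ∈ Icc 1 (emul c e), fd X G (edart c e j) := by
    rw [sum_neg_distrib, h2, h1, neg_neg]
  rw [h3]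
  refine (sum_le_sum fun e he => fq_edge hX hg he).trans ?_
  rw [sum_add_distrib, sum_add_distrib, sum_add_distrib, sum_neg_distrib,
    fq_reindex hg.out (fun e => fx X (G.zl e) (zs G c o n e)), ← mul_sum, sum_add_distrib,
    sum_add_distrib, ← mul_sum, ← mul_sum, ← mul_sum,
    fq_reindex hg.out (fun e => ‖TT G c o n e‖)]
  have h4 := fq_TT hg
  have h5 := len_le hg
  have hM := hX.nonneg
  have h6 : 0 ≤ La G c o n := by
    unfold La
    exact sum_nonneg fun e _ => Pool.Agent.Helper38.AS.lam3_nonneg G c o n e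
  have h7 : 0 ≤ SD G c o n := by
    unfold SD
    refine sum_nonneg fun i hi => ?_
    unfold Pool.Agent.Helper38.AS.NC at hi
    rw [mem_filter] at hi
    exact Pool.Agent.Helper38.AS.dfi_nonneg hg hi.2.1 hi.2.2
  have h8 : ∑ e ∈ corners c n o, lam3 G c o n e = La G c o n := rfl
  have h9 : ∑ e ∈ corners c n o, elen G c e = Lo G c o n := rfl
  rw [h8, h9]
  have h10 : 7 * (2 * Lo G c o n + 2 * ∑ e ∈ corners c n o, ‖TT G c o n e‖ +
      2 * ∑ e ∈ corners c n o, ‖TT G c o n e‖) ≤ 200 * La G c o n + 10 ^ 9 * SD G c o n := by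
    linarith
  have h11 := mul_le_mul_of_nonneg_left h10 hM
  linarith

end Pool.Agent.Helper98.HX
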