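import Pool.Agent.Helper98.HX.Defs

/-!
# HX-03: minimisers

Copy `exists_gmin` and `gmin_minimal` from `Helper98/LC3/P/Gmin.lean` (with their private lemmas) for `PhiH`.
* `gs_merge`: `merge c i j` for `i, j ≠ o` has the same set `{c ≠ o}`, so `gs` is the same.  `merge c o i`: the set `{c x ≠ o}` loses the class `i`.
* `gminH_outer`: from `least` for `merge c o i`.
* `wt_class`: `Wt.le`, `ar = (∑ al)/A0`.
* `gminH_minimal`: `η = 4 c0 M A0`: `inner` as in `gmin_minimal`, `outer` from `gminH_outer` and `wt_class`.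
-/

namespace Pool.Agent.Helper98.HX

open Finset Real Pool.Agent.Helper98.LC
open Pool.Agent.Helper98.LC3 (c0 ncl)

variable {ι : Type} [DecidableEq ι]

private lemma hx3_finite [Fintype ι] (o : ι) (n : ℕ) : {c : V → ι | OutBox c o n}.Finite := by
  classical
  have hi : Set.InjOn (fun (c : V → ι) => fun (x : box n) => c x) {c : V → ι | OutBox c o n} := by
    intro c hc c' hc' h
    funext x
    by_cases hx : x ∈ box n
    · exact congrFun h ⟨x, hx⟩
    · rw [hc x hx, hc' x hx]
  exact Set.Finite.of_finite_image (Set.toFinite _) hi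

private lemma hx3_touch_symm {c : V → ι} {i j : ι} (h : Touch c i j) : Touch c j i := by
  obtain ⟨d, h0, h1, h2⟩ := h
  exact ⟨rev d, (isCut_rev c d).mpr h0, h2, by rw [tip_rev]; exact h1⟩

private lemma hx3_sum_inner [Fintype ι] (G : Net) (c : V → ι) (o : ι) (n : ℕ) {i j : ι}
    (hij : i ≠ j) (hi : i ≠ o) (hj : j ≠ o) (f : ℝ → ℝ) :
    ∑ k ∈ univ.filter (fun k => k ≠ o), f (ar G (merge c i j) n k) =
      ∑ k ∈ univ.filter (fun k => k ≠ o), f (ar G c n k) + f (ar G c n i + ar G c n j) + f 0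
        - f (ar G c n i) - f (ar G c n j) := by
  have hmi : i ∈ univ.filter (fun k => k ≠ o) := by simp [hi]
  have hmj : j ∈ (univ.filter (fun k => k ≠ o)).erase i := by simp [hj, hij.symm]
  rw [← add_sum_erase _ _ hmi, ← add_sum_erase _ _ hmj, ← add_sum_erase _ (fun k => f (ar G c n k)) hmi,
    ← add_sum_erase _ (fun k => f (ar G c n k)) hmj, ar_merge_left G c n hij, ar_merge_right G c n hij]
  have h1 : ∑ k ∈ ((univ.filter (fun k => k ≠ o)).erase i).erase j, f (ar G (merge c i j) n k) =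
      ∑ k ∈ ((univ.filter (fun k => k ≠ o)).erase i).erase j, f (ar G c n k) := by
    refine sum_congr rfl fun k hk => ?_
    rw [mem_erase, mem_erase] at hk
    rw [ar_merge_other G c n hk.2.1 hk.1]
  rw [h1]
  ring

private lemma hx3_sum_outer [Fintype ι] (G : Net) (c : V → ι) (o : ι) (n : ℕ) {i : ι}
    (hi : i ≠ o) (f : ℝ → ℝ) :
    ∑ k ∈ univ.filter (fun k => k ≠ o), f (ar G (merge c o i) n k) =
      ∑ k ∈ univ.filter (fun k => k ≠ o), f (ar G c n k) + f 0 - f (ar G c n i) := by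
  have hmi : i ∈ univ.filter (fun k => k ≠ o) := by simp [hi]
  rw [← add_sum_erase _ _ hmi, ← add_sum_erase _ (fun k => f (ar G c n k)) hmi,
    ar_merge_right G c n hi.symm]
  have h1 : ∑ k ∈ (univ.filter (fun k => k ≠ o)).erase i, f (ar G (merge c o i) n k) =
      ∑ k ∈ (univ.filter (fun k => k ≠ o)).erase i, f (ar G c n k) := by
    refine sum_congr rfl fun k hk => ?_
    rw [mem_erase, mem_filter] at hk
    rw [ar_merge_other G c n hk.2.2 hk.1]
  rw [h1]
  ring


private lemma hx3_gs_inner {c : V → ι} {o i j : ι} (n : ℕ) (g : V → ℝ) (hi : i ≠ o) (hj : j ≠ o) :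
    gs g (merge c i j) o n = gs g c o n := by
  unfold gs
  refine sum_congr ?_ fun _ _ => rfl
  ext x
  rw [mem_filter, mem_filter]
  refine and_congr_right fun _ => not_congr ?_
  unfold merge
  by_cases hx : c x = j
  · rw [if_pos hx, hx]
    exact ⟨fun h => absurd h hi, fun h => absurd h hj⟩
  · rw [if_neg hx]

private lemma hx3_gs_outer {c : V → ι} {o i : ι} (n : ℕ) (g : V → ℝ) (hi : i ≠ o) :
    gs g (merge c o i) o n + ∑ x ∈ (box n).filter (fun x => c x = i), g x = gs g c o n := by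
  unfold gs
  rw [sum_filter, sum_filter, sum_filter, ← sum_add_distrib]
  refine sum_congr rfl fun x _ => ?_
  unfold merge
  by_cases hx : c x = i
  · rw [if_pos hx, if_neg (not_not.mpr rfl), if_pos hx, if_pos (by rw [hx]; exact hi), zero_add]
  · rw [if_neg hx, if_neg hx, add_zero]

theorem exists_gminH [Fintype ι] (G : Net) {c₀ : V → ι} {o : ι} {n : ℕ} (h : OutBox c₀ o n)
    (hc : Conn c₀) (g : V → ℝ) :
    ∃ c : V → ι, GMinH G c o n g ∧ PhiH G c o n g ≤ PhiH G c₀ o n g ∧
      tot G c o n ≤ tot G c₀ o n := by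
  have hf : {c : V → ι | OutBox c o n ∧ Conn c ∧ tot G c o n ≤ tot G c₀ o n}.Finite :=
    (hx3_finite o n).subset fun c hc => hc.1
  obtain ⟨c₁, hc₁, hm₁⟩ := Set.exists_min_image _ (fun c => PhiH G c o n g) hf ⟨c₀, h, hc, le_rfl⟩
  have hf2 : {c : V → ι | (OutBox c o n ∧ Conn c ∧ tot G c o n ≤ tot G c₀ o n) ∧
      PhiH G c o n g = PhiH G c₁ o n g}.Finite := hf.subset fun c hc => hc.1
  obtain ⟨c, hcS, hm⟩ := Set.exists_min_image _ (fun c => ncl c) hf2 ⟨c₁, hc₁, rfl⟩
  obtain ⟨⟨hout, hconn, htot⟩, hphi⟩ := hcS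
  refine ⟨c, ⟨hout, hconn, ?_⟩, ?_, htot⟩
  · intro c' h1 h2 h3 h4
    have h5 : PhiH G c₁ o n g ≤ PhiH G c' o n g := hm₁ c' ⟨h1, h2, h3.trans htot⟩
    rw [hphi]
    refine lt_of_le_of_ne h5 fun h6 => ?_
    have h7 := hm c' ⟨⟨h1, h2, h3.trans htot⟩, h6.symm⟩
    exact absurd h4 (not_lt.mpr h7)
  · rw [hphi]
    exact hm₁ c₀ ⟨h, hc, le_rfl⟩

theorem gminH_outer [Fintype ι] {G : Net} {c : V → ι} {o : ι} {n : ℕ} {g : V → ℝ}
    (h : GMinH G c o n g) {i : ι} (hi : i ≠ o) (ht : Touch c i o) :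
    2 * cut G c n i o < 6 * min 1 (ar G c n i) +
      2 * c0 * ∑ x ∈ (box n).filter (fun x => c x = i), g x := by
  have hout := h.out
  have ht2 := hx3_touch_symm ht
  have ht' : tot G (merge c o i) o n ≤ tot G c o n := by
    have := hx3_sum_outer G c o n hi (fun a => a)
    unfold tot
    rw [this]
    have := ar_nonneg G c n i
    linarith
  have h1 := h.least (merge c o i) (merge_out hout hi) (merge_conn h.conn hi.symm ht2) ht'
    (by unfold ncl; exact classes_merge hi.symm ht2)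
  have h2 := hx3_gs_outer (c := c) n g hi
  unfold PhiH at h1
  rw [per2_merge G hout hi.symm hi,
    hx3_sum_outer G c o n hi (fun a => min 1 a), cut_symm G hout o i] at h1
  have h0 : min (1 : ℝ) 0 = 0 := min_eq_right zero_le_one
  rw [h0, ← h2] at h1
  linarith

theorem wt_class {X : ℂ → ℂ} {M δ : ℝ} {G : Net} {n : ℕ} {g : V → ℝ} (hw : Wt X M G n g δ)
    (c : V → ι) (i : ι) :
    2 * c0 * ∑ x ∈ (box n).filter (fun x => c x = i), g x ≤ 4 * c0 * M * A0 * ar G c n i := by
  have hA : (0 : ℝ) < A0 := by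
    unfold A0
    positivity
  have hc0 : 0 ≤ c0 := by
    unfold Pool.Agent.Helper98.LC3.c0
    positivity
  have h1 : ∑ x ∈ (box n).filter (fun x => c x = i), g x ≤
      ∑ x ∈ (box n).filter (fun x => c x = i), 2 * M * G.al x :=
    sum_le_sum fun x _ => hw.le x
  rw [← mul_sum] at h1
  have h2 : A0 * ar G c n i = ∑ x ∈ (box n).filter (fun x => c x = i), G.al x := by
    unfold ar
    field_simp
  calc 2 * c0 * ∑ x ∈ (box n).filter (fun x => c x = i), g x
      ≤ 2 * c0 * (2 * M * ∑ x ∈ (box n).filter (fun x => c x = i), G.al x) :=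
        mul_le_mul_of_nonneg_left h1 (by positivity)
    _ = 4 * c0 * M * A0 * ar G c n i := by
        rw [← h2]
        ring

theorem gminH_minimal [Fintype ι] {X : ℂ → ℂ} {M δ : ℝ} {G : Net} {c : V → ι} {o : ι} {n : ℕ}
    {g : V → ℝ} (h : GMinH G c o n g) (hw : Wt X M G n g δ) :
    Minimal G c o n (4 * c0 * M * A0) := by
  have hout := h.out
  have hconn := h.conn
  refine ⟨hout, hconn, ?_, ?_⟩
  · intro i j hi hj ht
    have hij : i ≠ j := by
      obtain ⟨d, h0, h1, h2⟩ := ht
      intro e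
      exact h0 (h1.trans (e.trans h2.symm))
    have ht' : tot G (merge c i j) o n = tot G c o n := by
      have := hx3_sum_inner G c o n hij hi hj (fun a => a)
      unfold tot
      rw [this]
      ring
    have h1 := h.least (merge c i j) (merge_out hout hj) (merge_conn hconn hij ht) ht'.le
      (by unfold ncl; exact classes_merge hij ht)
    unfold PhiH at h1
    rw [per2_merge G hout hij hj,
      hx3_sum_inner G c o n hij hi hj (fun a => min 1 a), hx3_gs_inner n g hi hj] at h1
    have h0 : min (1 : ℝ) 0 = 0 := min_eq_right zero_le_one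
    rw [h0] at h1
    linarith
  · intro i hi ht
    have h1 := gminH_outer h hi ht
    have h2 := wt_class hw c i
    linarith

end Pool.Agent.Helper98.HX
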