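import Pool.Agent.Helper98.HX.NoLoopH
import Pool.Agent.Helper98.LC3.P.Coconn
import Pool.Agent.Helper38.AS.Gd

namespace Pool.Agent.Helper98.HX

open Finset Real Pool.Agent.Helper98.LC
open Pool.Agent.Helper98.LC3 (c0 ncl CoConn)
open Pool.Agent.Helper38.LC2 (kap kap1 cT c1)

variable {ι : Type} [DecidableEq ι]

open Classical in
private theorem h86_inn [Fintype ι] (G : Net) {c : V → ι} {o i : ι} {S : Set V}
    (hS : LC3.IsHole c o i S) (n : ℕ) (F : ℝ → ℝ) (hF : F 0 = 0) :
    ∑ j ∈ univ.filter (fun j => j ≠ i), F (ar G (LC3.inn c i S) n j) =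
      ∑ j ∈ univ.filter (fun j => ∃ x ∈ S, c x = j), F (ar G c n j) := by
  rw [sum_filter, sum_filter]
  refine sum_congr rfl fun j _ => ?_
  by_cases hj : j = i
  · subst hj
    have h1 : ¬ ∃ x ∈ S, c x = j := by
      rintro ⟨x, hx, hxj⟩
      exact hS.noti x hx hxj
    rw [if_neg (fun h => h rfl), if_neg h1]
  · rw [if_pos hj, LC3.ar_inn G hS n hj]
    by_cases h1 : ∃ x ∈ S, c x = j
    · rw [if_pos h1, if_pos h1]
    · rw [if_neg h1, if_neg h1, hF]

open Classical in
private theorem h86_fil [Fintype ι] (G : Net) {c : V → ι} {o i : ι} {S : Set V}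
    (hS : LC3.IsHole c o i S) (n : ℕ) (hi : i ≠ o) (F : ℝ → ℝ) (hF : F 0 = 0) :
    ∑ j ∈ univ.filter (fun j => j ≠ o), F (ar G (LC3.fil c i S) n j) +
      ∑ j ∈ univ.filter (fun j => ∃ x ∈ S, c x = j), F (ar G c n j) + F (ar G c n i) =
      ∑ j ∈ univ.filter (fun j => j ≠ o), F (ar G c n j) +
        F (ar G c n i + ∑ j ∈ univ.filter (fun j => ∃ x ∈ S, c x = j), ar G c n j) := by
  have him : i ∈ univ.filter (fun j => j ≠ o) := mem_filter.2 ⟨mem_univ _, hi⟩
  rw [← add_sum_erase _ _ him, ← add_sum_erase _ (fun j => F (ar G c n j)) him,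
    LC3.ar_fil_i G hS n]
  have h1 : ∑ j ∈ univ.filter (fun j => ∃ x ∈ S, c x = j), F (ar G c n j) =
      ∑ j ∈ (univ.filter (fun j => j ≠ o)).erase i,
        if ∃ x ∈ S, c x = j then F (ar G c n j) else 0 := by
    rw [← sum_filter]
    refine sum_congr ?_ fun _ _ => rfl
    ext j
    rw [mem_filter, mem_filter, mem_erase, mem_filter]
    constructor
    · rintro ⟨_, x, hx, hxj⟩
      refine ⟨⟨?_, mem_univ _, ?_⟩, x, hx, hxj⟩
      · rintro rfl
        exact hS.noti x hx hxj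
      · rintro rfl
        exact hS.noto x hx hxj
    · exact fun h => ⟨mem_univ _, h.2⟩
  have h2 : ∑ j ∈ (univ.filter (fun j => j ≠ o)).erase i, F (ar G c n j) =
      ∑ j ∈ (univ.filter (fun j => j ≠ o)).erase i, F (ar G (LC3.fil c i S) n j) +
        ∑ j ∈ univ.filter (fun j => ∃ x ∈ S, c x = j), F (ar G c n j) := by
    rw [h1, ← sum_add_distrib]
    refine sum_congr rfl fun j hj => ?_
    rw [mem_erase] at hj
    rw [LC3.ar_fil G hS n hj.1]
    by_cases h3 : ∃ x ∈ S, c x = j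
    · rw [if_pos h3, if_pos h3, hF, zero_add]
    · rw [if_neg h3, if_neg h3, add_zero]
  rw [h2]
  ring

private theorem h86_minimal [Fintype ι] {G : Net} {c : V → ι} {o i : ι} {S : Set V} {n : ℕ}
    {η : ℝ} (hi : i ≠ o) (hS : LC3.IsHole c o i S) (h : Minimal G c o n η) :
    Minimal G (LC3.inn c i S) i n 0 := by
  have hno : ∀ j, (∃ x ∈ S, c x = j) → j ≠ o := by
    rintro j ⟨x, hx, hxj⟩ rfl
    exact hS.noto x hx hxj
  have hni : ∀ j, (∃ x ∈ S, c x = j) → j ≠ i := by
    rintro j ⟨x, hx, hxj⟩ rfl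
    exact hS.noti x hx hxj
  refine ⟨LC3.inn_out h.out hS, LC3.inn_conn h.conn hS, ?_, ?_⟩
  · intro j k hj hk ht
    obtain ⟨h1, h2, h3⟩ := LC3.touch_inn hS hj ht
    have h4 : ∃ x ∈ S, c x = k := h2.resolve_left hk
    rw [LC3.cut_inn G hS n h1 h2, LC3.ar_inn G hS n hj, LC3.ar_inn G hS n hk, if_pos h1,
      if_pos h4]
    exact h.inner j k (hno j h1) (hno k h4) h3
  · intro j hj ht
    obtain ⟨h1, h2, h3⟩ := LC3.touch_inn hS hj ht
    rw [LC3.cut_inn G hS n h1 h2, LC3.ar_inn G hS n hj, if_pos h1]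
    have h4 := h.inner j i (hno j h1) hi h3
    have h5 : min 1 (ar G c n i) ≤ min 1 (ar G c n j + ar G c n i) :=
      min_le_min le_rfl (by linarith [ar_nonneg G c n j])
    linarith

theorem coconnH [Fintype ι] {X : ℂ → ℂ} {M δ : ℝ} {G : Net} {c : V → ι} {o : ι} {n : ℕ}
    {g : V → ℝ} (hw : Wt X M G n g δ) (h : GMinH G c o n g) {i : ι} (hi : i ≠ o) :
    CoConn c i := by
  classical
  by_contra hn
  have hmin := gminH_minimal h hw
  have hne : ∃ x, c x = i := by
    by_contra hno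
    push Not at hno
    apply hn
    intro x y _ _
    by_contra hp
    obtain ⟨z, k, hz, hzk⟩ := LC3.grid_exit (fun z => Relation.ReflTransGen (LC3.Off c i) x z)
      Relation.ReflTransGen.refl hp
    exact hzk (hz.tail ⟨hno _, hno _, k, rfl⟩)
  obtain ⟨S, hS⟩ := LC3.exists_hole h.out h.conn hi hn
  have hM := h86_minimal hi hS hmin
  have hJ : univ.filter (fun j => ∃ x ∈ S, c x = j) ⊆ univ.filter (fun j => j ≠ o) := by
    intro j hj
    rw [mem_filter] at hj ⊢
    obtain ⟨_, x, hx, hxj⟩ := hj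
    refine ⟨mem_univ _, ?_⟩
    rintro rfl
    exact hS.noto x hx hxj
  have hl : NoLoop (LC3.inn c i S) :=
    LC3.no_loop10 le_rfl (by norm_num) (by rw [zero_mul]; norm_num) hM le_rfl
  have hx : ∃ x, LC3.inn c i S x ≠ i := by
    obtain ⟨x, hx⟩ := hS.ne
    refine ⟨x, ?_⟩
    unfold LC3.inn
    rw [if_pos hx]
    exact hS.noti x hx
  have hsl := sum_local le_rfl (by norm_num) hM hl hx
  have hk : 0 ≤ kap := by
    unfold kap cT c1
    norm_num
  have hk1 : 0 ≤ kap1 := by
    unfold kap1 c1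
    norm_num
  have hs1 : 0 ≤ kap * ∑ d ∈ corners (LC3.inn c i S) n i, lam G (LC3.inn c i S) n d :=
    mul_nonneg hk (sum_nonneg fun d _ => lam_nonneg G _ n d)
  have hs2 : 0 ≤ kap1 * ∑ d ∈ corners (LC3.inn c i S) n i, elen G (LC3.inn c i S) d := by
    refine mul_nonneg hk1 (sum_nonneg fun d _ => ?_)
    unfold elen
    refine sum_nonneg fun j _ => ?_
    unfold Net.w
    positivity
  have hI := h86_inn G hS n (fun x => min 1 x) (by norm_num)
  have hF := h86_fil G hS n hi (fun x => min 1 x) (by norm_num)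
  have hT := h86_fil G hS n hi (fun x => x) rfl
  have hlt := h.least (LC3.fil c i S) (LC3.fil_out h.out hS) (LC3.fil_conn h.conn hS hne)
    (by
      unfold tot
      linarith) (LC3.ncl_fil hS hne)
  have hsplit := LC3.per2_split G hS n
  have hgs : gs g (LC3.fil c i S) o n = gs g c o n := by
    unfold gs
    refine sum_congr ?_ fun _ _ => rfl
    ext x
    rw [mem_filter, mem_filter]
    refine and_congr_right fun _ => not_congr ?_
    unfold LC3.fil
    by_cases hxS : x ∈ S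
    · rw [if_pos hxS]
      exact ⟨fun h => absurd h hi, fun h => absurd h (hS.noto x hxS)⟩
    · rw [if_neg hxS]
  unfold PhiH at hlt
  rw [hgs] at hlt
  have e2 : min 1 (ar G c n i) ≤
      min 1 (ar G c n i + ∑ j ∈ univ.filter (fun j => ∃ x ∈ S, c x = j), ar G c n j) :=
    min_le_min le_rfl (by
      have : 0 ≤ ∑ j ∈ univ.filter (fun j => ∃ x ∈ S, c x = j), ar G c n j :=
        sum_nonneg fun j _ => ar_nonneg G c n j
      linarith)
  rw [hI] at hsl
  linarith

theorem goodH [Fintype ι] {X : ℂ → ℂ} {M δ : ℝ} {G : Net} {c : V → ι} {o : ι} {n : ℕ}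
    {g : V → ℝ} (hX : Fld X M) (hw : Wt X M G n g δ) (h : GMinH G c o n g) (hM : 60 * M ≤ 1)
    (hδ : δ ≤ 1 / 20) (hx : ∃ x, c x ≠ o) : Pool.Agent.Helper38.AS.Good G c o n := by
  have hm := gminH_minimal h hw
  have hl : NoLoop c := noloopH hX hw h hM hδ
  have hA : A0 ≤ 2.6 := by
    have h3 : √3 ≤ 1.7333 := by
      rw [Real.sqrt_le_left (by norm_num)]
      norm_num
    unfold A0
    linarith
  have hA0 : 0 ≤ A0 := by
    unfold A0
    positivity
  have hc : c0 ≤ 0.5236 := by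
    unfold Pool.Agent.Helper98.LC3.c0
    have := Real.pi_lt_d4
    linarith
  have hc0 : 0 ≤ c0 := by
    unfold Pool.Agent.Helper98.LC3.c0
    positivity
  have hη1 : 4 * c0 * M * A0 ≤ 1 / 10 := by
    have h1 : c0 * A0 ≤ 0.5236 * 2.6 := mul_le_mul hc hA hA0 (by norm_num)
    have h2 : (c0 * A0) * M ≤ (0.5236 * 2.6) * M := mul_le_mul_of_nonneg_right h1 hX.nonneg
    nlinarith
  have har : ∀ i, 0 ≤ ar G c n i := by
    intro i
    unfold ar
    refine div_nonneg (sum_nonneg fun x _ => G.area_nonneg x) ?_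
    unfold A0
    positivity
  refine ⟨h.out, h.conn, hl, ?_, ?_, ?_, ?_, hx⟩
  · intro i hi
    exact coconnH hw h hi
  · intro i hi hxi
    exact ar_pos hm hi hxi
  · intro i hi d hd hnb
    exact elen_le_inner hm hi hd hnb
  · intro i hi
    rw [← Pool.Agent.Helper38.AS.cut_outer G h.out hl i]
    have ha := har i
    by_cases ht : Touch c i o
    · have h2 := hm.outer i hi ht
      have h3 : 4 * c0 * M * A0 * ar G c n i ≤ 1 / 10 * ar G c n i :=
        mul_le_mul_of_nonneg_right hη1 ha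
      linarith
    · have h2 : cut G c n i o = 0 := by
        unfold cut
        refine sum_eq_zero fun d hd => ?_
        rw [mem_filter, mem_darts h.out] at hd
        exact absurd ⟨d, hd.1, hd.2.1, hd.2.2⟩ ht
      rw [h2]
      have h4 : 0 ≤ min 1 (ar G c n i) := le_min zero_le_one ha
      linarith

end Pool.Agent.Helper98.HX
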