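import Pool.Agent.Helper98.HX.Defs

/-!
# HX-15: the vector field of a hexagon

`w` is a unit vector, `ζ = exp (i π/3)`; `hn w k = i w ζ^k`, `k = 0, 1, 2`, are the unit normals of the three long diagonals of `hexagon a (s w)`.  `ip u v = u.re v.re + u.im v.im` (`LC3`).
`t_k = ip (p - a) (hn w k) / r`, `hX p = (1/2) ∑ k (2/π) arctan t_k * hn w k`, `hf p = (1/(π r)) ∑ k 1/(1 + t_k²)` (its divergence).
* `le_one`: `hn 1 = hn 0 + hn 2` (`ζ = 1 + ζ²`).  For `|s_k| ≤ 1`: `∑ s_k hn k = A hn 0 + B hn 2`, `A = s 0 + s 1`, `B = s 1 + s 2`, norm² `= A² + B² - A B ≤ 4` (`|A|, |B|, |A - B| ≤ 2`: if `A B ≥ 0` and `|A| ≥ |B|`: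
  `= A² - B (A - B) ≤ A²`; if `A B ≤ 0`: `= (A - B)² + A B`).
* `lip`: `|arctan t - arctan t'| ≤ |t - t'|`, so the constant is `(1/2) * 3 * (2/π)/r = 3/(π r) ≤ 1/r`.
* `fle`: `hf ≤ 3/(π r) ≤ 2/r`.
* `deriv`: `A v = (1/(π r)) ∑ k ip v (hn k) / (1 + t_k²) * hn k`; trace: `(hn k).re² + (hn k).im² = 1`.  `|arctan t - arctan t' - (t - t')/(1 + t'²)| ≤ (t - t')²` (`arctan` has a derivative with Lipschitz constant `≤ 2`),
  so `K = 3/r²` is enough (`1/r²` up to constants; take `K = 10/r²`).
-/

namespace Pool.Agent.Helper98.HX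

open Finset Real Pool.Agent.Helper98.LC
open Pool.Agent.Helper98.LC3 (ip)

/-- the normals of the long diagonals -/
noncomputable def hn (w : ℂ) (k : ℕ) : ℂ := Complex.I * w * Complex.exp (π / 3 * Complex.I) ^ k

/-- the field -/
noncomputable def hX (a w : ℂ) (r : ℝ) (p : ℂ) : ℂ :=
  (1 / 2 : ℂ) * ∑ k ∈ range 3, ((2 / π * arctan (ip (p - a) (hn w k) / r) : ℝ) : ℂ) * hn w k

/-- its divergence -/
noncomputable def hf (a w : ℂ) (r : ℝ) (p : ℂ) : ℝ :=
  1 / (π * r) * ∑ k ∈ range 3, 1 / (1 + (ip (p - a) (hn w k) / r) ^ 2)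

private theorem h22_ip_abs (u v : ℂ) : |ip u v| ≤ ‖u‖ * ‖v‖ := by
  have h1 : ip u v = (u * (starRingEnd ℂ) v).re := by
    simp [ip, Complex.mul_re]
  rw [h1]
  refine (Complex.abs_re_le_norm _).trans ?_
  rw [norm_mul, RCLike.norm_conj]

private theorem h22_zeta : Complex.exp (π / 3 * Complex.I) = 1 / 2 + (√3 / 2 : ℝ) * Complex.I := by
  have h : (π / 3 * Complex.I : ℂ) = ((π / 3 : ℝ) : ℂ) * Complex.I := by push_cast; ring
  rw [h, Complex.exp_mul_I, ← Complex.ofReal_cos, ← Complex.ofReal_sin, Real.cos_pi_div_three,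
    Real.sin_pi_div_three]
  push_cast
  ring

private theorem h22_zeta_norm : ‖Complex.exp (π / 3 * Complex.I)‖ = 1 := by
  have h : (π / 3 * Complex.I : ℂ) = ((π / 3 : ℝ) : ℂ) * Complex.I := by push_cast; ring
  rw [h, Complex.norm_exp_ofReal_mul_I]

private theorem h22_hn_norm {w : ℂ} (hw : ‖w‖ = 1) (k : ℕ) : ‖hn w k‖ = 1 := by
  unfold hn
  rw [norm_mul, norm_mul, norm_pow, h22_zeta_norm, hw, Complex.norm_I]
  simp

private theorem h22_hn_sq {w : ℂ} (hw : ‖w‖ = 1) (k : ℕ) :
    (hn w k).re * (hn w k).re + (hn w k).im * (hn w k).im = 1 := by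
  have h := h22_hn_norm hw k
  have h2 : Complex.normSq (hn w k) = 1 := by
    rw [Complex.normSq_eq_norm_sq, h, one_pow]
  rw [Complex.normSq_apply] at h2
  exact h2

private theorem h22_arctan_lip (s t : ℝ) : |arctan s - arctan t| ≤ |s - t| := by
  have h := Convex.norm_image_sub_le_of_norm_hasDerivWithin_le (f := arctan)
    (f' := fun x => 1 / (1 + x ^ 2)) (C := 1) (s := Set.univ) (x := t) (y := s)
    (fun x _ => (Real.hasDerivAt_arctan x).hasDerivWithinAt)
    (fun x _ => by
      rw [Real.norm_eq_abs, abs_of_nonneg (by positivity), div_le_one (by positivity)]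
      nlinarith [sq_nonneg x]) convex_univ (Set.mem_univ _) (Set.mem_univ _)
  rw [one_mul, Real.norm_eq_abs, Real.norm_eq_abs] at h
  exact h

private theorem h22_arctan_taylor (t t' : ℝ) :
    |arctan t' - arctan t - (t' - t) / (1 + t ^ 2)| ≤ (t' - t) ^ 2 := by
  have h := Convex.norm_image_sub_le_of_norm_hasDerivWithin_le
    (f := fun x => arctan x - x / (1 + t ^ 2))
    (f' := fun x => 1 / (1 + x ^ 2) - 1 / (1 + t ^ 2)) (C := |t' - t|) (s := Set.uIcc t t')
    (x := t) (y := t')
    (fun x _ => ((Real.hasDerivAt_arctan x).sub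
      ((hasDerivAt_id x).div_const (1 + t ^ 2))).hasDerivWithinAt)
    (fun x hx => by
      have hxt : |x - t| ≤ |t' - t| := by
        rcases Set.mem_uIcc.1 hx with ⟨h1, h2⟩ | ⟨h1, h2⟩
        · rw [abs_of_nonneg (by linarith), abs_of_nonneg (by linarith)]; linarith
        · rw [abs_of_nonpos (by linarith), abs_of_nonpos (by linarith)]; linarith
      refine le_trans ?_ hxt
      have e : 1 / (1 + x ^ 2) - 1 / (1 + t ^ 2) =
          (t - x) * ((t + x) / ((1 + x ^ 2) * (1 + t ^ 2))) := by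
        field_simp
        ring
      rw [Real.norm_eq_abs, e, abs_mul, abs_sub_comm t x]
      have h1 : |(t + x) / ((1 + x ^ 2) * (1 + t ^ 2))| ≤ 1 := by
        rw [abs_div, abs_of_pos (by positivity : (0 : ℝ) < (1 + x ^ 2) * (1 + t ^ 2)),
          div_le_one (by positivity)]
        rw [abs_le]
        constructor
        · nlinarith [sq_nonneg (t + 1), sq_nonneg (x + 1), sq_nonneg (t * x)]
        · nlinarith [sq_nonneg (t - 1), sq_nonneg (x - 1), sq_nonneg (t * x)]
      calc |x - t| * |(t + x) / ((1 + x ^ 2) * (1 + t ^ 2))| ≤ |x - t| * 1 :=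
            mul_le_mul_of_nonneg_left h1 (abs_nonneg _)
        _ = |x - t| := mul_one _) (convex_uIcc t t') Set.left_mem_uIcc Set.right_mem_uIcc
  have e : arctan t' - arctan t - (t' - t) / (1 + t ^ 2) =
      (arctan t' - t' / (1 + t ^ 2)) - (arctan t - t / (1 + t ^ 2)) := by ring
  rw [e]
  rw [Real.norm_eq_abs, Real.norm_eq_abs] at h
  refine h.trans (le_of_eq ?_)
  rw [abs_mul_abs_self, sq]

private theorem h22_comb {w : ℂ} (hw : ‖w‖ = 1) (s : ℕ → ℝ) (hs : ∀ k, |s k| ≤ 1) :
    ‖∑ k ∈ range 3, ((s k : ℝ) : ℂ) * hn w k‖ ≤ 2 := by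
  have e : ∑ k ∈ range 3, ((s k : ℝ) : ℂ) * hn w k =
      Complex.I * w * (((s 0 + s 1) - (s 1 + s 2) / 2 : ℝ) + ((√3 / 2 * (s 1 + s 2) : ℝ) : ℂ) * Complex.I) := by
    rw [Finset.sum_range_succ, Finset.sum_range_succ, Finset.sum_range_succ, Finset.sum_range_zero]
    unfold hn
    rw [h22_zeta]
    have h3 : ((√3 : ℝ) : ℂ) * ((√3 : ℝ) : ℂ) = 3 := by
      rw [← Complex.ofReal_mul, Real.mul_self_sqrt (by norm_num)]
      norm_num
    push_cast
    linear_combination (Complex.I * w * (s 2 : ℂ) * Complex.I ^ 2 / 4) * h3 +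
      (Complex.I * w * (s 2 : ℂ) * 3 / 4) * Complex.I_sq
  rw [e, norm_mul, norm_mul, hw, Complex.norm_I, one_mul, one_mul]
  set A := s 0 + s 1 with hA
  set B := s 1 + s 2 with hB
  have h0 := abs_le.1 (hs 0)
  have h1 := abs_le.1 (hs 1)
  have h2 := abs_le.1 (hs 2)
  have h3 : √3 ^ 2 = 3 := Real.sq_sqrt (by norm_num)
  have hn : ‖((A - B / 2 : ℝ) : ℂ) + ((√3 / 2 * B : ℝ) : ℂ) * Complex.I‖ ^ 2 =
      A ^ 2 - A * B + B ^ 2 := by
    rw [← Complex.normSq_eq_norm_sq, Complex.normSq_add_mul_I]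
    rw [mul_pow, div_pow, h3]
    ring
  have hle : A ^ 2 - A * B + B ^ 2 ≤ 4 := by
    have hA1 : -2 ≤ A := by rw [hA]; linarith [h0.1, h1.1]
    have hA2 : A ≤ 2 := by rw [hA]; linarith [h0.2, h1.2]
    have hB1 : -2 ≤ B := by rw [hB]; linarith [h2.1, h1.1]
    have hB2 : B ≤ 2 := by rw [hB]; linarith [h2.2, h1.2]
    have hAB1 : -2 ≤ A - B := by rw [hA, hB]; linarith [h0.1, h2.2]
    have hAB2 : A - B ≤ 2 := by rw [hA, hB]; linarith [h0.2, h2.1]
    rcases le_total 0 A with ha | ha
    · rcases le_total 0 B with hb | hb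
      · rcases le_total A B with hab | hab
        · nlinarith
        · nlinarith
      · nlinarith
    · rcases le_total 0 B with hb | hb
      · nlinarith
      · rcases le_total A B with hab | hab
        · nlinarith
        · nlinarith
  have : ‖((A - B / 2 : ℝ) : ℂ) + ((√3 / 2 * B : ℝ) : ℂ) * Complex.I‖ ^ 2 ≤ 2 ^ 2 := by
    rw [hn]; linarith
  exact (abs_le_of_sq_le_sq this (by norm_num)).trans' (le_abs_self _)

private theorem h22_ip_sub (p q a n : ℂ) (r : ℝ) :
    ip (p - a) n / r - ip (q - a) n / r = ip (p - q) n / r := by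
  simp only [ip, Complex.sub_re, Complex.sub_im]
  ring

theorem hex_field (a w : ℂ) (hw : ‖w‖ = 1) {r : ℝ} (hr : 0 < r) :
    Fld2 (hX a w r) (hf a w r) (1 / r) (10 / r ^ 2) := by
  have hpi : 3 < π := Real.pi_gt_three
  have hpi0 : 0 < π := Real.pi_pos
  have hn1 := fun k => h22_hn_norm hw k
  refine { nonneg := by positivity, le_one := ?_, lip := ?_, Knn := by positivity, cont := ?_,
           fnn := ?_, fle := ?_, deriv := ?_ }
  · intro p
    unfold hX
    rw [norm_mul]
    have h1 := h22_comb hw (fun k => 2 / π * arctan (ip (p - a) (hn w k) / r)) (fun k => by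
      rw [abs_mul, abs_of_pos (by positivity : 0 < 2 / π)]
      have h2 : |arctan (ip (p - a) (hn w k) / r)| ≤ π / 2 := by
        rw [abs_le]
        exact ⟨(Real.neg_pi_div_two_lt_arctan _).le, (Real.arctan_lt_pi_div_two _).le⟩
      calc 2 / π * |arctan (ip (p - a) (hn w k) / r)| ≤ 2 / π * (π / 2) :=
            mul_le_mul_of_nonneg_left h2 (by positivity)
        _ = 1 := by field_simp)
    have h3 : ‖(1 / 2 : ℂ)‖ = 1 / 2 := by simp
    rw [h3]
    linarith
  · intro p q
    unfold hX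
    rw [← mul_sub, ← Finset.sum_sub_distrib, norm_mul]
    have h3 : ‖(1 / 2 : ℂ)‖ = 1 / 2 := by simp
    rw [h3]
    have h1 : ∀ k ∈ range 3, ‖((2 / π * arctan (ip (p - a) (hn w k) / r) : ℝ) : ℂ) * hn w k -
        ((2 / π * arctan (ip (q - a) (hn w k) / r) : ℝ) : ℂ) * hn w k‖ ≤
        2 / π * (‖p - q‖ / r) := by
      intro k _
      rw [← sub_mul, norm_mul, hn1, mul_one, ← Complex.ofReal_sub, ← mul_sub,
        Complex.norm_real, Real.norm_eq_abs, abs_mul, abs_of_pos (by positivity : 0 < 2 / π)]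
      refine mul_le_mul_of_nonneg_left ((h22_arctan_lip _ _).trans ?_) (by positivity)
      rw [h22_ip_sub, abs_div, abs_of_pos hr]
      refine div_le_div_of_nonneg_right ?_ hr.le
      have := h22_ip_abs (p - q) (hn w k)
      rwa [hn1, mul_one] at this
    have h2 := (norm_sum_le _ _).trans (Finset.sum_le_sum h1)
    rw [Finset.sum_const, Finset.card_range, nsmul_eq_mul, Nat.cast_ofNat] at h2
    have h4 : 0 ≤ ‖p - q‖ / r := by positivity
    have h5 : 2 / π ≤ 2 / 3 := by
      apply div_le_div_of_nonneg_left (by norm_num) (by norm_num) hpi.le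
    have h6 : 2 / π * (‖p - q‖ / r) ≤ 2 / 3 * (‖p - q‖ / r) := mul_le_mul_of_nonneg_right h5 h4
    have h7 : 1 / r * ‖p - q‖ = ‖p - q‖ / r := by ring
    rw [h7]
    linarith
  · unfold hf
    refine Continuous.mul continuous_const (continuous_finsetSum _ fun k _ => ?_)
    refine Continuous.div continuous_const ?_ (fun p => by positivity)
    unfold Pool.Agent.Helper98.LC3.ip
    fun_prop
  · intro p
    unfold hf
    positivity
  · intro p
    unfold hf
    have h1 : ∑ k ∈ range 3, 1 / (1 + (ip (p - a) (hn w k) / r) ^ 2) ≤ ∑ _k ∈ range 3, (1 : ℝ) := by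
      refine Finset.sum_le_sum fun k _ => ?_
      rw [div_le_one (by positivity)]
      nlinarith [sq_nonneg (ip (p - a) (hn w k) / r)]
    rw [Finset.sum_const, Finset.card_range, nsmul_eq_mul, mul_one] at h1
    have h2 : 1 / (π * r) ≤ 1 / (3 * r) := by
      apply div_le_div_of_nonneg_left (by norm_num) (by positivity)
      exact mul_le_mul_of_nonneg_right hpi.le hr.le
    calc 1 / (π * r) * ∑ k ∈ range 3, 1 / (1 + (ip (p - a) (hn w k) / r) ^ 2)
        ≤ 1 / (3 * r) * 3 := by
          refine mul_le_mul h2 (by exact_mod_cast h1) (Finset.sum_nonneg fun k _ => by positivity)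
            (by positivity)
      _ = 1 / r := by field_simp
      _ ≤ 2 * (1 / r) := by
          have : 0 < 1 / r := by positivity
          linarith
  · intro p
    set t : ℕ → ℝ := fun k => ip (p - a) (hn w k) / r with ht
    set c : ℕ → ℝ := fun k => 1 / (π * r) * (1 / (1 + t k ^ 2)) with hc
    set A : ℂ →L[ℝ] ℂ := ∑ k ∈ range 3, ContinuousLinearMap.smulRight
      (c k • ((hn w k).re • Complex.reCLM + (hn w k).im • Complex.imCLM)) (hn w k) with hA
    have hAv : ∀ v : ℂ, A v = ∑ k ∈ range 3, ((c k * ip v (hn w k) : ℝ) : ℂ) * hn w k := by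
      intro v
      rw [hA, _root_.sum_apply]
      refine Finset.sum_congr rfl fun k _ => ?_
      rw [ContinuousLinearMap.smulRight_apply, smul_apply, add_apply, smul_apply,
        smul_apply, Complex.reCLM_apply, Complex.imCLM_apply,
        Complex.real_smul]
      congr 2
      simp only [ip, smul_eq_mul]
      ring
    refine ⟨A, ?_, ?_⟩
    · rw [hAv, hAv]
      unfold hf
      rw [Complex.re_sum, Complex.im_sum, ← Finset.sum_add_distrib, Finset.mul_sum]
      refine Finset.sum_congr rfl fun k _ => ?_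
      have h1 := h22_hn_sq hw k
      have e1 : ip 1 (hn w k) = (hn w k).re := by simp [ip]
      have e2 : ip Complex.I (hn w k) = (hn w k).im := by simp [ip]
      rw [e1, e2, Complex.re_ofReal_mul, Complex.im_ofReal_mul]
      have e3 : c k * (hn w k).re * (hn w k).re + c k * (hn w k).im * (hn w k).im =
          c k * ((hn w k).re * (hn w k).re + (hn w k).im * (hn w k).im) := by ring
      rw [e3, h1, mul_one]
    · intro y
      have e : hX a w r y - hX a w r p - A (y - p) = ∑ k ∈ range 3,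
          ((1 / π * (arctan (ip (y - a) (hn w k) / r) - arctan (t k) -
            (ip (y - a) (hn w k) / r - t k) / (1 + t k ^ 2)) : ℝ) : ℂ) * hn w k := by
        rw [hAv]
        unfold hX
        rw [← mul_sub, ← Finset.sum_sub_distrib, Finset.mul_sum, ← Finset.sum_sub_distrib]
        refine Finset.sum_congr rfl fun k _ => ?_
        have e1 : ip (y - a) (hn w k) / r - t k = ip (y - p) (hn w k) / r := by
          rw [ht]; exact h22_ip_sub y p a (hn w k) r
        rw [e1]
        have e2 : c k * ip (y - p) (hn w k) =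
            1 / π * (ip (y - p) (hn w k) / r / (1 + t k ^ 2)) := by
          rw [hc]
          have : (1 + t k ^ 2) ≠ 0 := by positivity
          field_simp
        rw [e2]
        have e3 : arctan (ip (p - a) (hn w k) / r) = arctan (t k) := rfl
        rw [e3]
        push_cast
        ring
      rw [e]
      have h1 : ∀ k ∈ range 3, ‖((1 / π * (arctan (ip (y - a) (hn w k) / r) - arctan (t k) -
            (ip (y - a) (hn w k) / r - t k) / (1 + t k ^ 2)) : ℝ) : ℂ) * hn w k‖ ≤
          1 / 3 * (‖y - p‖ ^ 2 / r ^ 2) := by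
        intro k _
        rw [norm_mul, hn1, mul_one, Complex.norm_real, Real.norm_eq_abs, abs_mul,
          abs_of_pos (by positivity : 0 < 1 / π)]
        have h2 := h22_arctan_taylor (t k) (ip (y - a) (hn w k) / r)
        have e1 : ip (y - a) (hn w k) / r - t k = ip (y - p) (hn w k) / r := by
          rw [ht]; exact h22_ip_sub y p a (hn w k) r
        have h3 : (ip (y - a) (hn w k) / r - t k) ^ 2 ≤ ‖y - p‖ ^ 2 / r ^ 2 := by
          rw [e1, div_pow]
          refine div_le_div_of_nonneg_right ?_ (by positivity)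
          rw [← sq_abs]
          have := h22_ip_abs (y - p) (hn w k)
          rw [hn1, mul_one] at this
          gcongr
        have h4 : 1 / π ≤ 1 / 3 :=
          div_le_div_of_nonneg_left (by norm_num) (by norm_num) hpi.le
        exact mul_le_mul h4 (h2.trans h3) (abs_nonneg _) (by norm_num)
      have h2 := (norm_sum_le _ _).trans (Finset.sum_le_sum h1)
      rw [Finset.sum_const, Finset.card_range, nsmul_eq_mul, Nat.cast_ofNat] at h2
      have h4 : 0 ≤ ‖y - p‖ ^ 2 / r ^ 2 := by positivity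
      have h5 : 10 / r ^ 2 * ‖y - p‖ ^ 2 = 10 * (‖y - p‖ ^ 2 / r ^ 2) := by ring
      rw [h5]
      linarith

end Pool.Agent.Helper98.HX
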