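import Pool.Agent.Helper98.HX.GoodH
import Pool.Agent.Helper98.HX.Flux3

/-!
# HX-08: the model inequality for labellings with connected classes

`c` from `exists_gminH`, `Ψ = per2 - 6 ∑ min`.  `PhiH c₀ ≥ PhiH c`; it is enough to show `PhiH c ≥ - 10^4 M² T - 1` if `PhiH c₀ < 0` (otherwise clear).
* `c x = o` for all `x`: `ar i = 0`, `gs = 0`, `PhiH c = per2 ≥ 0` (see `model_conn` in `Helper98/LC/F/Model.lean`).
* Otherwise `goodH`.  `sum_dfi` (`AS/Sum.lean`): `Ψ ≥ 2 c0 La + SD`, `La, SD ≥ 0` (see the end of `curve3`).  `gs ≤ ∑ ∑ fd + δ` (`Wt.flux`, a subset of the box) `≤ La + M (200 La + 10^9 SD) + δ` (`flux3`).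
  `2 c0 ≤ 1.0472`: `PhiH c ≥ SD (1 - 1.0472 * 10^9 M) - 210 M La - 1.0472 δ ≥ - 210 M La - 1/10`.
  `PhiH c ≤ PhiH c₀ < 0`: `2 c0 La ≤ Ψ ≤ 2 c0 gs ≤ 2 c0 * 2 M A0 tot ≤ 6 M T` (`Wt.le`, `c0 ≤ .5236`, `A0 ≤ 2.6`, sum over all classes `≠ o`), so `La ≤ 6 M T`.
-/

namespace Pool.Agent.Helper98.HX

open Finset Real Pool.Agent.Helper98.LC
open Pool.Agent.Helper98.LC3 (c0)

variable {ι : Type} [DecidableEq ι]

private theorem h45_per2 (G : Net) (c : V → ι) (n : ℕ) : 0 ≤ per2 G c n := by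
  unfold per2
  exact sum_nonneg fun j _ => w_nonneg G _

private theorem h45_tot [Fintype ι] (G : Net) (c : V → ι) (o : ι) (n : ℕ) :
    0 ≤ tot G c o n := by
  unfold tot
  exact sum_nonneg fun j _ => ar_nonneg G c n j

private theorem h45_A0 : 0 < A0 ∧ A0 ≤ 2.6 := by
  refine ⟨Pool.Agent.Helper38.LC2.A0_pos, ?_⟩
  unfold A0
  have h : √3 ≤ (1.7321 : ℝ) := by
    rw [Real.sqrt_le_left (by norm_num)]
    norm_num
  linarith

private theorem h45_c0 : 0 < c0 ∧ 2 * c0 ≤ 1.0472 := by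
  have h1 : (3.141592 : ℝ) < π := Real.pi_gt_d6
  have h1' : π < 3.141593 := Real.pi_lt_d6
  unfold Pool.Agent.Helper98.LC3.c0
  constructor <;> linarith

private theorem h45_gs_tot [Fintype ι] {X : ℂ → ℂ} {M δ : ℝ} {G : Net} {n : ℕ} {g : V → ℝ}
    (hw : Wt X M G n g δ) (c : V → ι) (o : ι) :
    gs g c o n ≤ 2 * M * (A0 * tot G c o n) := by
  have h1 : gs g c o n ≤ ∑ x ∈ (box n).filter (fun x => c x ≠ o), 2 * M * G.al x := by
    unfold gs
    exact sum_le_sum fun x _ => hw.le x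
  refine h1.trans (le_of_eq ?_)
  rw [← mul_sum]
  congr 1
  unfold tot ar
  rw [← sum_div, mul_div_cancel₀ _ h45_A0.1.ne']
  rw [← sum_fiberwise_of_maps_to (s := (box n).filter (fun x => c x ≠ o))
    (t := univ.filter (fun i => i ≠ o)) (g := c) (fun x hx => by
      rw [mem_filter] at hx ⊢
      exact ⟨mem_univ _, hx.2⟩)]
  refine sum_congr rfl fun i hi => ?_
  rw [mem_filter] at hi
  rw [filter_filter]
  refine sum_congr ?_ fun _ _ => rfl
  refine filter_congr fun x _ => ?_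
  constructor
  · exact fun hx => hx.2
  · intro hx
    exact ⟨by rw [hx]; exact hi.2, hx⟩

private theorem h45_gs_flux {X : ℂ → ℂ} {M δ : ℝ} {G : Net} {n : ℕ} {g : V → ℝ}
    (hw : Wt X M G n g δ) (c : V → ι) (o : ι) :
    gs g c o n ≤ ∑ x ∈ (box n).filter (fun x => c x ≠ o), ∑ k, fd X G (x, k) + δ := by
  have h1 : ∑ x ∈ (box n).filter (fun x => c x ≠ o), |∑ k, fd X G (x, k) - g x| ≤ δ := by
    refine le_trans ?_ hw.flux
    exact sum_le_sum_of_subset_of_nonneg (filter_subset _ _) fun x _ _ => abs_nonneg _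
  have h2 : gs g c o n ≤ ∑ x ∈ (box n).filter (fun x => c x ≠ o),
      (∑ k, fd X G (x, k) + |∑ k, fd X G (x, k) - g x|) := by
    unfold gs
    refine sum_le_sum fun x _ => ?_
    have h3 := neg_abs_le (∑ k, fd X G (x, k) - g x)
    linarith
  rw [sum_add_distrib] at h2
  linarith

/-- the numerical part -/
private theorem h45_num {P m L S gg F M δ T t A : ℝ} (hM0 : 0 ≤ M) (hM : 10 ^ 10 * M ≤ 1)
    (hδ : δ ≤ 1 / 20) (hL : 0 ≤ L) (hS : 0 ≤ S) (h1 : 6 * m + 2 * c0 * L + S ≤ P)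
    (h2 : F ≤ L + M * (200 * L + 10 ^ 9 * S)) (h3 : gg ≤ F + δ)
    (h4 : gg ≤ 2 * M * (A * t)) (ht0 : 0 ≤ t) (ht : t ≤ T) (hA : A ≤ 2.6)
    (h5 : P - 6 * m - 2 * c0 * gg < 0) :
    -(10 ^ 4 * M ^ 2 * T) - 1 ≤ P - 6 * m - 2 * c0 * gg := by
  obtain ⟨hc1, hc2⟩ := h45_c0
  have hLg : L < gg := by
    have h6 : 2 * c0 * L < 2 * c0 * gg := by linarith
    exact lt_of_mul_lt_mul_left h6 (by linarith)
  have h7 : A * t ≤ 2.6 * T := mul_le_mul hA ht ht0 (by norm_num)
  have h8 : L ≤ 6 * (M * T) := by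
    have h9 : 2 * M * (A * t) ≤ 2 * M * (2.6 * T) := mul_le_mul_of_nonneg_left h7 (by linarith)
    have h10 : 0 ≤ M * T := mul_nonneg hM0 (ht0.trans ht)
    linarith
  have h11 : M * L ≤ M * (6 * (M * T)) := mul_le_mul_of_nonneg_left h8 hM0
  have h12 : 0 ≤ M * L := mul_nonneg hM0 hL
  have h13 : 10 ^ 9 * (M * S) ≤ S / 10 := by
    have h14 := mul_le_mul_of_nonneg_right hM hS
    linarith
  have h15 : 0 ≤ M * S := mul_nonneg hM0 hS
  have h16 : gg ≤ L + 200 * (M * L) + S / 10 + 1 / 20 := by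
    have e : M * (200 * L + 10 ^ 9 * S) = 200 * (M * L) + 10 ^ 9 * (M * S) := by ring
    rw [e] at h2
    linarith
  have h17 : 2 * c0 * gg ≤ 2 * c0 * (L + 200 * (M * L) + S / 10 + 1 / 20) :=
    mul_le_mul_of_nonneg_left h16 (by linarith)
  have h18 : 2 * c0 * (200 * (M * L) + S / 10 + 1 / 20) ≤
      1.0472 * (200 * (M * L) + S / 10 + 1 / 20) :=
    mul_le_mul_of_nonneg_right hc2 (by positivity)
  have h19 : 0 ≤ M ^ 2 * T := mul_nonneg (sq_nonneg M) (ht0.trans ht)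
  have h20 : M * (6 * (M * T)) = 6 * (M ^ 2 * T) := by ring
  rw [h20] at h11
  have h21 : 2 * c0 * (L + 200 * (M * L) + S / 10 + 1 / 20) =
      2 * c0 * L + 2 * c0 * (200 * (M * L) + S / 10 + 1 / 20) := by ring
  rw [h21] at h17
  linarith

theorem modelH [Fintype ι] {X : ℂ → ℂ} {M δ : ℝ} {G : Net} {n : ℕ} {g : V → ℝ} (hX : Fld X M)
    (hw : Wt X M G n g δ) (hM : 10 ^ 10 * M ≤ 1) (hδ : δ ≤ 1 / 20) {c₀ : V → ι} {o : ι}
    (h : OutBox c₀ o n) (hc : Conn c₀) {T : ℝ} (hT : tot G c₀ o n ≤ T) :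
    6 * ∑ i ∈ univ.filter (fun i => i ≠ o), min 1 (ar G c₀ n i) + 2 * c0 * gs g c₀ o n -
      10 ^ 4 * M ^ 2 * T - 1 ≤ per2 G c₀ n := by
  obtain ⟨c, hmin, hPhi, hXt⟩ := exists_gminH G h hc g
  have hT0 : 0 ≤ T := (h45_tot G c₀ o n).trans hT
  have hMT : 0 ≤ 10 ^ 4 * M ^ 2 * T := by positivity
  have key : -(10 ^ 4 * M ^ 2 * T) - 1 ≤ PhiH G c₀ o n g := by
    rcases le_or_gt 0 (PhiH G c₀ o n g) with h0 | h0
    · linarith
    · refine le_trans ?_ hPhi
      have hneg : PhiH G c o n g < 0 := lt_of_le_of_lt hPhi h0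
      by_cases hx : ∃ x, c x ≠ o
      · have hM0 := hX.nonneg
        have hg := goodH hX hw hmin (by linarith) hδ hx
        have hSD : 0 ≤ Pool.Agent.Helper38.AS.SD G c o n := by
          unfold Pool.Agent.Helper38.AS.SD
          refine sum_nonneg fun i hi => ?_
          simp only [Pool.Agent.Helper38.AS.NC, mem_filter, mem_univ, true_and] at hi
          exact Pool.Agent.Helper38.AS.dfi_nonneg hg hi.1 hi.2
        have hLa : 0 ≤ Pool.Agent.Helper38.AS.La G c o n := by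
          unfold Pool.Agent.Helper38.AS.La
          exact sum_nonneg fun e _ => Pool.Agent.Helper38.AS.lam3_nonneg G c o n e
        unfold PhiH at hneg ⊢
        exact h45_num hM0 hM hδ hLa hSD (Pool.Agent.Helper38.AS.sum_dfi hg) (flux3 hX hg)
          (h45_gs_flux hw c o) (h45_gs_tot hw c o) (h45_tot G c o n) (hXt.trans hT)
          h45_A0.2 hneg
      · exfalso
        push Not at hx
        have h1 : ∀ i ∈ univ.filter (fun i => i ≠ o), ar G c n i = 0 := by
          intro i hi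
          rw [mem_filter] at hi
          unfold ar
          rw [filter_false_of_mem, sum_empty, zero_div]
          intro x _ hxi
          exact hi.2 (hxi.symm.trans (hx x))
        have h3 : ∑ i ∈ univ.filter (fun i => i ≠ o), min 1 (ar G c n i) = 0 := by
          refine sum_eq_zero fun i hi => ?_
          rw [h1 i hi]
          norm_num
        have h4 := h45_per2 G c n
        have h5 : gs g c o n = 0 := by
          unfold gs
          rw [filter_false_of_mem, sum_empty]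
          intro x _ hxo
          exact hxo (hx x)
        unfold PhiH at hneg
        rw [h3, h5] at hneg
        linarith
  unfold PhiH at key
  linarith

end Pool.Agent.Helper98.HX
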