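import Pool.Agent.Helper98.HX.Defs

/-!
# HX-10: the net of a smooth partition, with more information

Copy `net_of_smooth` (`Helper38/LCA/NetOf.lean`) and take the minimum with `h₁` in the choice of the mesh `h` (`no_mesh` with `min h₀ h₁` instead of `h₀`).  `R = r + 3`.
* `q_near`, `z_near` (for the net `mkNet h _ v c hg`, all `x`, `k`): `qpt` is the midpoint or, if the labels `i` of `x` and `j` of `y` are different, a convex combination of `pos x` and `pos y`: `dd v c x i j > 0`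
  and `dd v c y i j < 0` (`lab_max` and `Gen`; see `mn_qform` in `MkNet.lean`, private, copy); `‖pos h (x + dir k) - pos h x‖ ≤ √2 h` (`no_dist` has `2 h`), also for `dir (k + 1)`.  `zpt` is the mean of the three vertices or of two
  or three crossing points (see `mn_zform`), all in the triangle, which is contained in the ball around `pos x` with radius `2 h`.
* `good`: `lab_eq` and `mk_al_std` as in `net_of_smooth` (`hlab`, `h2`).
* `size`, `big`: `hn4`, `hn1` there.
-/

namespace Pool.Agent.Helper98.HX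

open Finset Real Pool.Agent.Helper98.LC Pool.Agent.Helper38.LCA

private theorem n2_qform (h : ℝ) {N : ℕ} {v : V → Fin (N + 1) → ℝ} {c : Fin (N + 1) → ℝ}
    (hg : Gen v c) (x y : V) :
    ∃ t : ℝ, 0 ≤ t ∧ t ≤ 1 ∧ qpt h v c x y = pos h x + (t : ℂ) * (pos h y - pos h x) := by
  unfold qpt
  split_ifs with hl
  · refine ⟨1 / 2, by norm_num, by norm_num, ?_⟩
    push_cast
    ring
  · set a := dd v c x (lab v c x) (lab v c y) with ha
    set b := dd v c y (lab v c x) (lab v c y) with hb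
    have ha0 : 0 ≤ a := by
      have := lab_max v c x (lab v c y)
      rw [ha]
      unfold dd
      linarith
    have hb0 : b ≤ 0 := by
      have := lab_max v c y (lab v c x)
      rw [hb]
      unfold dd
      linarith
    have ha1 : a ≠ 0 := by
      intro h0
      apply hg x (lab v c x) (lab v c y) hl
      rw [ha] at h0
      unfold dd at h0
      linarith
    have hab : 0 < a - b := by
      have := lt_of_le_of_ne ha0 ha1.symm
      linarith
    have habc : ((a : ℂ) - (b : ℂ)) ≠ 0 := by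
      have : (((a - b : ℝ)) : ℂ) ≠ 0 := by exact_mod_cast hab.ne'
      push_cast at this
      exact this
    refine ⟨a / (a - b), div_nonneg ha0 hab.le, ?_, ?_⟩
    · rw [div_le_one hab]
      linarith
    · push_cast
      field_simp
      ring

private theorem n2_chg {N : ℕ} (v : V → Fin (N + 1) → ℝ) (c : Fin (N + 1) → ℝ) (x y : V) :
    0 ≤ chg v c x y := by
  unfold chg
  split_ifs
  · exact le_refl _
  · exact zero_le_one

private theorem n2_zform (h : ℝ) {N : ℕ} {v : V → Fin (N + 1) → ℝ} {c : Fin (N + 1) → ℝ}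
    (hg : Gen v c) (x y w : V) :
    ∃ α β : ℝ, 0 ≤ α ∧ 0 ≤ β ∧ α + β ≤ 1 ∧
      zpt h v c x y w = pos h x + (α : ℂ) * (pos h y - pos h x) +
      (β : ℂ) * (pos h w - pos h x) := by
  unfold zpt
  split_ifs with hl
  · refine ⟨1 / 3, 1 / 3, by norm_num, by norm_num, by norm_num, ?_⟩
    push_cast
    ring
  · obtain ⟨t1, a1, b1, e1⟩ := n2_qform h hg x y
    obtain ⟨t2, a2, b2, e2⟩ := n2_qform h hg y w
    obtain ⟨t3, a3, b3, e3⟩ := n2_qform h hg w x
    have c1 := n2_chg v c x y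
    have c2 := n2_chg v c y w
    have c3 := n2_chg v c w x
    have hS : 0 < chg v c x y + chg v c y w + chg v c w x := by
      by_cases hxy : lab v c x = lab v c y
      · have hyw : lab v c y ≠ lab v c w := fun hh => hl ⟨hxy, hh⟩
        have : chg v c y w = 1 := if_neg hyw
        linarith
      · have : chg v c x y = 1 := if_neg hxy
        linarith
    have hSc : ((chg v c x y : ℂ) + (chg v c y w : ℂ) + (chg v c w x : ℂ)) ≠ 0 := by
      have : ((chg v c x y + chg v c y w + chg v c w x : ℝ) : ℂ) ≠ 0 := by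
        exact_mod_cast hS.ne'
      push_cast at this
      exact this
    refine ⟨(chg v c x y * t1 + chg v c y w * (1 - t2)) /
        (chg v c x y + chg v c y w + chg v c w x),
      (chg v c y w * t2 + chg v c w x * (1 - t3)) /
        (chg v c x y + chg v c y w + chg v c w x), ?_, ?_, ?_, ?_⟩
    · exact div_nonneg (add_nonneg (mul_nonneg c1 a1) (mul_nonneg c2 (by linarith))) hS.le
    · exact div_nonneg (add_nonneg (mul_nonneg c2 a2) (mul_nonneg c3 (by linarith))) hS.le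
    · rw [← add_div, div_le_one hS]
      have m1 : chg v c x y * t1 ≤ chg v c x y * 1 := mul_le_mul_of_nonneg_left b1 c1
      have m3 : chg v c w x * (1 - t3) ≤ chg v c w x * 1 :=
        mul_le_mul_of_nonneg_left (by linarith) c3
      linarith
    · rw [e1, e2, e3]
      push_cast
      field_simp
      ring

private theorem n2_qnear {h : ℝ} (hh : 0 ≤ h) {N : ℕ} {v : V → Fin (N + 1) → ℝ}
    {c : Fin (N + 1) → ℝ} (hg : Gen v c) (x : V) (k : Fin 6) :
    ‖qpt h v c x (x + dir k) - pos h x‖ ≤ 2 * h := by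
  obtain ⟨t, t0, t1, ht⟩ := n2_qform h hg x (x + dir k)
  rw [ht, add_sub_cancel_left, norm_mul, Complex.norm_real, Real.norm_of_nonneg t0]
  have h1 := no_dist hh x k
  have h2 := mul_le_mul_of_nonneg_right t1 (norm_nonneg (pos h (x + dir k) - pos h x))
  linarith

private theorem n2_znear {h : ℝ} (hh : 0 ≤ h) {N : ℕ} {v : V → Fin (N + 1) → ℝ}
    {c : Fin (N + 1) → ℝ} (hg : Gen v c) (x : V) (k : Fin 6) :
    ‖zpt h v c x (x + dir k) (x + dir (k + 1)) - pos h x‖ ≤ 2 * h := by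
  obtain ⟨α, β, a0, b0, hab, ht⟩ := n2_zform h hg x (x + dir k) (x + dir (k + 1))
  have e : zpt h v c x (x + dir k) (x + dir (k + 1)) - pos h x =
      (α : ℂ) * (pos h (x + dir k) - pos h x) + (β : ℂ) * (pos h (x + dir (k + 1)) - pos h x) := by
    rw [ht]
    ring
  rw [e]
  refine (norm_add_le _ _).trans ?_
  rw [norm_mul, norm_mul, Complex.norm_real, Complex.norm_real, Real.norm_of_nonneg a0,
    Real.norm_of_nonneg b0]
  have h1 := mul_le_mul_of_nonneg_left (no_dist hh x k) a0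
  have h2 := mul_le_mul_of_nonneg_left (no_dist hh x (k + 1)) b0
  nlinarith

theorem net2 {N : ℕ} {E : Fin (N + 1) → Set ℂ} {κ r : ℝ} {u : Fin (N + 1) → ℂ → ℝ}
    (hu : SmoothPart E κ r u) (hr : 0 < r) (hκ : 0 ≤ κ) {δ h₁ : ℝ} (hδ : 0 < δ) (hh₁ : 0 < h₁) :
    ∃ (G : Net) (n : ℕ) (c : V → Fin (N + 1)) (h : ℝ), h ≤ h₁ ∧ NetOut u r G n c h ∧
      OutBox c 0 n ∧ (∀ i : Fin N, (A0 - κ) / A0 ≤ ar G c n i.succ) ∧
      per2 G c n ≤ ∑ i, P (E i) + 2 * κ + δ := by
  classical
  have hA0 : 0 < A0 := by unfold A0; positivity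
  obtain ⟨R, hR⟩ : ∃ R, R = r + 3 := ⟨_, rfl⟩
  have hRpos : 0 < R := by rw [hR]; linarith
  have lipAll := fun i => lip_Sq (hu.smooth i) R
  choose L0 hL0 hLip0 hGr0 using lipAll
  obtain ⟨L, hL⟩ : ∃ L, L = ∑ i, L0 i := ⟨_, rfl⟩
  have hLi : ∀ i, L0 i ≤ L := fun i => by
    rw [hL]; exact single_le_sum (fun j _ => hL0 j) (mem_univ i)
  have hLnn : 0 ≤ L := (hL0 0).trans (hLi 0)
  have hLip : ∀ i, ∀ p ∈ Sq R, ∀ q ∈ Sq R, |u i q - u i p| ≤ L * ‖q - p‖ := fun i p hp q hq =>
    (hLip0 i p hp q hq).trans (mul_le_mul_of_nonneg_right (hLi i) (norm_nonneg _))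
  have hGr : ∀ i, ∀ p ∈ Sq R, ‖gr (u i) p‖ ≤ L := fun i p hp => (hGr0 i p hp).trans (hLi i)
  obtain ⟨M, hM⟩ : ∃ M, M = ((N : ℝ) + 1) ^ 3 := ⟨_, rfl⟩
  have hMpos : 0 < M := by rw [hM]; positivity
  obtain ⟨κ₁, hκ₁⟩ : ∃ κ₁, κ₁ = δ / (2304 * M * R ^ 2) := ⟨_, rfl⟩
  have hκ₁pos : 0 < κ₁ := by rw [hκ₁]; positivity
  have linAll := fun i => lin_Sq (hu.smooth i) R hκ₁pos
  choose η0 hη0 hlin0 using linAll
  obtain ⟨i0, hi0⟩ := Finite.exists_min η0
  obtain ⟨F, hF⟩ : ∃ F : ℂ → ℝ, F = fun p => ∑ i, ‖gr (u i) p‖ * GK (KN N) (u i p) := ⟨_, rfl⟩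
  have hFc : Continuous F := by rw [hF]; exact no_F_cont hu.smooth
  have hFn : ∀ p, 0 ≤ F p := by
    rw [hF]; exact no_F_nonneg hu.smooth hu.nonneg hu.sum_eq
  obtain ⟨h₀, hh₀, hriem⟩ := no_riemann hFc hFn R (κ := δ / 8) (by positivity)
  obtain ⟨h, hh, hh1, hh2', hh3, hh4, hh5, hh6⟩ :=
    no_mesh hLnn (lt_min hh₀ hh₁) (hη0 i0) hMpos hRpos hδ
  have hh2 : h ≤ h₀ := hh2'.trans (min_le_left _ _)
  have hh2b : h ≤ h₁ := hh2'.trans (min_le_right _ _)
  obtain ⟨n, hn1, hn2⟩ := no_size hr hh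
  have hn3 : h * ((n + 2 : ℕ) + 1 : ℝ) ≤ R := by
    push_cast
    rw [hR]
    nlinarith
  have hn4 : h * ((n + 2 + 1 : ℕ) : ℝ) ≤ R := by
    push_cast at hn3 ⊢
    linarith
  have hn5 : h * ((n + 2 : ℕ) : ℝ) ≤ R := by
    push_cast at hn3 ⊢
    linarith
  have hin : ∀ x ∈ Pool.Agent.Helper98.LC.box (n + 2), pos h x ∈ Sq R := fun x hx => no_mem_Sq hh.le hn5 hx
  have hin' : ∀ x ∈ Pool.Agent.Helper98.LC.box (n + 2), ∀ k, pos h (x + dir k) ∈ Sq R := fun x hx k =>
    no_mem_Sq hh.le hn4 (no_box_nbr hx k)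
  obtain ⟨v, hv⟩ : ∃ v : V → Fin (N + 1) → ℝ, v = fun x i => u i (pos h x) := ⟨_, rfl⟩
  have hv0 : ∀ x i, 0 ≤ v x i := fun x i => by rw [hv]; exact hu.nonneg i _
  have hvs : ∀ x, ∑ i, v x i = 1 := fun x => by rw [hv]; exact hu.sum_eq _
  have hosc : ∀ x ∈ Pool.Agent.Helper98.LC.box (n + 2), ∀ k i, |v (x + dir k) i - v x i| ≤ 2 * L * h := by
    intro x hx k i
    rw [hv]
    refine (hLip i _ (hin x hx) _ (hin' x hx k)).trans ?_
    have := mul_le_mul_of_nonneg_left (no_dist hh.le x k) hLnn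
    linarith
  obtain ⟨c, hg, hc, hsum⟩ := exists_c hh.le (by positivity : 0 ≤ 2 * L * h) v (Pool.Agent.Helper98.LC.box (n + 2)) hosc
  have hout : OutBox (lab v c) 0 n := by
    intro x hx
    refine lab_eq hc (hv0 x) (hvs x) ?_
    have h1 : r ≤ ‖pos h x‖ := by
      have := no_out hh hx
      linarith
    have h2 := hu.far _ h1
    rw [hv]
    show 5 / 8 < u 0 (pos h x)
    linarith
  have hNO : NetOut u r (mkNet h hh.le v c hg) n (lab v c) h := by
    refine ⟨hh, ?_, hn1, fun x k => n2_qnear hh.le hg x k, fun x k => n2_znear hh.le hg x k, ?_⟩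
    · push_cast at hn3
      rw [hR] at hn3
      linarith
    · intro i x hx hxk
      have e0 : lab v c x = i.succ := by
        refine lab_eq hc (hv0 x) (hvs x) ?_
        rw [hv]; exact hx
      refine ⟨e0, ?_⟩
      apply mk_al_std
      intro k
      rw [e0]
      refine lab_eq hc (hv0 _) (hvs _) ?_
      rw [hv]; exact hxk k
  refine ⟨mkNet h hh.le v c hg, n, lab v c, h, hh2b, hNO, hout, ?_, ?_⟩
  · intro i
    have hsq : ∀ p, 3 / 4 < u i.succ p → p ∈ Sq r := by
      intro p hp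
      have h1 : ‖p‖ < r := by
        by_contra hcon
        push Not at hcon
        have h2 := hu.far p hcon
        have h3 : u 0 p + u i.succ p ≤ ∑ j, u j p := by
          have h4 : ∑ j ∈ ({0, i.succ} : Finset (Fin (N + 1))), u j p ≤ ∑ j, u j p :=
            sum_le_sum_of_subset_of_nonneg (subset_univ _) fun j _ _ => hu.nonneg j p
          rw [sum_pair (Fin.succ_ne_zero i).symm] at h4
          exact h4
        rw [hu.sum_eq] at h3
        linarith
      exact ⟨(Complex.abs_re_le_norm p).trans h1.le, (Complex.abs_im_le_norm p).trans h1.le⟩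
    have hcount := count (u := u i.succ) (L := L) hr hh (by rw [hR]; linarith) (hLip i.succ) hh4
      hLnn hsq hn1
    have hvol := (hu.vol i).trans hcount
    rw [ENNReal.ofReal_le_ofReal_iff (by positivity)] at hvol
    unfold ar
    rw [div_le_div_iff_of_pos_right hA0]
    refine hvol.trans ?_
    set good := (Pool.Agent.Helper98.LC.box n).filter fun x =>
      5 / 8 < u i.succ (pos h x) ∧ ∀ k, 5 / 8 < u i.succ (pos h (x + dir k)) with hgood
    have hlab : ∀ x ∈ good, lab v c x = i.succ ∧ ∀ k, lab v c (x + dir k) = i.succ := by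
      intro x hx
      rw [hgood, mem_filter] at hx
      refine ⟨lab_eq hc (hv0 x) (hvs x) ?_, fun k => lab_eq hc (hv0 _) (hvs _) ?_⟩
      · rw [hv]; exact hx.2.1
      · rw [hv]; exact hx.2.2 k
    have hsub : good ⊆ (Pool.Agent.Helper98.LC.box n).filter fun x => lab v c x = i.succ := by
      intro x hx
      rw [mem_filter]
      exact ⟨(mem_filter.1 hx).1, (hlab x hx).1⟩
    have h1 : ∑ x ∈ good, (mkNet h hh.le v c hg).al x ≤
        ∑ x ∈ (Pool.Agent.Helper98.LC.box n).filter fun x => lab v c x = i.succ, (mkNet h hh.le v c hg).al x :=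
      sum_le_sum_of_subset_of_nonneg hsub fun x _ _ => (mkNet h hh.le v c hg).area_nonneg x
    refine le_trans (le_of_eq ?_) h1
    have h2 : ∑ x ∈ good, (mkNet h hh.le v c hg).al x = ∑ x ∈ good, h ^ 2 := by
      refine sum_congr rfl fun x hx => ?_
      apply mk_al_std
      intro k
      rw [(hlab x hx).2 k, (hlab x hx).1]
    rw [h2, sum_const, nsmul_eq_mul]
    ring
  · have h1 := per2_le_tri (mkNet h hh.le v c hg) hout
    have hEE : ∀ x ∈ Pool.Agent.Helper98.LC.box (n + 2), ∀ k, EE h (2 * L * h) v x k ≤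
        h ^ 2 / 2 * F (pos h x) + h ^ 2 * (M * (1344 * L ^ 2 * h + 36 * κ₁)) := by
      intro x hx k
      have h2 := EE_le (N := N) (h := h) (ω := 2 * L * h) (e := 2 * κ₁ * h) (Gb := L) hh.le
        (by positivity) hh5 (by positivity) v x (hv0 x) (hvs x) (fun i => gr (u i) (pos h x))
        (gr_sum hu.smooth hu.sum_eq _) (fun i => hGr i _ (hin x hx)) (by
          intro k i
          have h3 := hlin0 i _ (hin x hx) _ (hin' x hx k)
            ((no_dist hh.le x k).trans (hh3.trans (hi0 i)))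
          rw [hv]
          refine h3.trans ?_
          have := mul_le_mul_of_nonneg_left (no_dist hh.le x k) hκ₁pos.le
          linarith) k
      refine h2.trans (le_of_eq ?_)
      rw [hF, hv, hM]
      ring
    have h2 : ∑ x ∈ Pool.Agent.Helper98.LC.box (n + 2), (EE h (2 * L * h) v x 0 + EE h (2 * L * h) v x 1) ≤
        ∑ x ∈ Pool.Agent.Helper98.LC.box (n + 2), (h ^ 2 * F (pos h x) +
          2 * h ^ 2 * (M * (1344 * L ^ 2 * h + 36 * κ₁))) := by
      refine sum_le_sum fun x hx => ?_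
      have a1 := hEE x hx 0
      have a2 := hEE x hx 1
      linarith
    have h2s : ∑ x ∈ Pool.Agent.Helper98.LC.box (n + 2), (h ^ 2 * F (pos h x) +
          2 * h ^ 2 * (M * (1344 * L ^ 2 * h + 36 * κ₁))) =
        ∑ x ∈ Pool.Agent.Helper98.LC.box (n + 2), h ^ 2 * F (pos h x) +
          (2 * ((n + 2 : ℕ) : ℝ) + 1) ^ 2 *
          (2 * h ^ 2 * (M * (1344 * L ^ 2 * h + 36 * κ₁))) := by
      rw [sum_add_distrib, sum_const, nsmul_eq_mul, no_box_card]
    rw [h2s] at h2
    have h3 := hriem h hh hh2 (n + 2) hn3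
    have h4 := hu.per R (by rw [hR]; linarith)
    have h5 : h ^ 2 * (2 * ((n + 2 : ℕ) : ℝ) + 1) ^ 2 ≤ 4 * R ^ 2 := by
      have h6 : h * (2 * ((n + 2 : ℕ) : ℝ) + 1) ≤ 2 * R := by
        push_cast at hn3 ⊢
        nlinarith
      have h7 : 0 ≤ h * (2 * ((n + 2 : ℕ) : ℝ) + 1) := by positivity
      nlinarith
    have h6 : 2304 * M * R ^ 2 * κ₁ = δ := by
      rw [hκ₁]
      field_simp
    have h7 : (2 * ((n + 2 : ℕ) : ℝ) + 1) ^ 2 *
        (2 * h ^ 2 * (M * (1344 * L ^ 2 * h + 36 * κ₁))) ≤ δ / 4 := by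
      have h8 : 0 ≤ 2 * (M * (1344 * L ^ 2 * h + 36 * κ₁)) := by positivity
      have h9 := mul_le_mul_of_nonneg_right h5 h8
      have h10 : 4 * R ^ 2 * (2 * (M * (1344 * L ^ 2 * h + 36 * κ₁))) =
          (21504 * M * R ^ 2 * L ^ 2 * h) / 2 + (2304 * M * R ^ 2 * κ₁) / 8 := by ring
      rw [h10, h6] at h9
      nlinarith
    have h8 : ∫ p in Sq R, F p ≤ (∑ i, P (E i)) / 2 + κ := by rw [hF]; exact h4
    have h9 := h1.trans (mul_le_mul_of_nonneg_left (hsum.trans h2) (by norm_num : (0 : ℝ) ≤ 2))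
    have h10 : ∑ x ∈ Pool.Agent.Helper98.LC.box (n + 2), h ^ 2 * F (pos h x) ≤
        (∑ i, P (E i)) / 2 + κ + δ / 8 := h3.trans (by linarith)
    refine h9.trans ?_
    linarith

end Pool.Agent.Helper98.HX
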