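import Pool.Agent.Helper98.HX.Flux

/-!
# HX-04: sums of antisymmetric functions over the darts

* `sum_anti`: as `sum_et_outer` (`Helper98/LC/..`, used in `AS/Curve3.lean`): the darts with both ends different from `o` cancel (`d ↦ rev d`), and the darts with `c d.1 = o`, `c (tip d) ≠ o` are the
  reversed darts of those with `c d.1 ≠ o`, `c (tip d) = o`; `darts c n` is a filter of `box (n + 1) ×ˢ univ`; `OutBox` gives `d.1 ∈ box n` if `c d.1 ≠ o`.
* `flux_set`: the same for a finite set `S`: the sum over all darts `(x, k)`, `x ∈ S`, is the sum over the darts with `tip ∉ S`; each of them has labels `W`, `W'`, is a member of the index set of `cut`, and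
  `|fd| ≤ w`.
-/

namespace Pool.Agent.Helper98.HX

open Finset Real Pool.Agent.Helper98.LC

variable {ι : Type} [DecidableEq ι]

private theorem suma_rev_ne {f : V × Fin 6 → ℝ} (hf : ∀ d, f (rev d) = - f d) (d : V × Fin 6)
    (h : f d ≠ 0) : rev d ≠ d := by
  intro e
  apply h
  have h1 := hf d
  rw [e] at h1
  linarith

private theorem suma_all {c : V → ι} {o : ι} {n : ℕ} (h : OutBox c o n) (f : V × Fin 6 → ℝ)
    (hf : ∀ d, f (rev d) = - f d) : ∑ d ∈ darts c n, f d = 0 := by
  refine sum_involution (fun d _ => rev d) ?_ ?_ ?_ ?_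
  · intro d _
    rw [hf]
    ring
  · intro d _ hd
    exact suma_rev_ne hf d hd
  · intro d hd
    rw [mem_darts h] at hd ⊢
    rw [isCut_rev]
    exact hd
  · intro d _
    exact rev_rev d

theorem sum_anti {c : V → ι} {o : ι} {n : ℕ} (h : OutBox c o n) (f : V × Fin 6 → ℝ)
    (hf : ∀ d, f (rev d) = - f d) :
    ∑ d ∈ (darts c n).filter (fun d => c d.1 = o), f d =
      - ∑ x ∈ (box n).filter (fun x => c x ≠ o), ∑ k, f (x, k) := by
  have hin : ∀ x : V, c x ≠ o → x ∈ box n := by
    intro x hx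
    by_contra hb
    exact hx (h x hb)
  have h1 : ∑ x ∈ (box n).filter (fun x => c x ≠ o), ∑ k, f (x, k) =
      ∑ d ∈ ((box n).filter (fun x => c x ≠ o)) ×ˢ (univ : Finset (Fin 6)), f d := by
    rw [sum_product]
  rw [h1, ← sum_filter_add_sum_filter_not
    (((box n).filter (fun x => c x ≠ o)) ×ˢ (univ : Finset (Fin 6))) (fun d => IsCut c d)]
  have h2 : ∑ d ∈ ((((box n).filter (fun x => c x ≠ o)) ×ˢ (univ : Finset (Fin 6))).filter
      fun d => ¬ IsCut c d), f d = 0 := by
    refine sum_involution (fun d _ => rev d) ?_ ?_ ?_ ?_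
    · intro d _
      rw [hf]
      ring
    · intro d _ hd
      exact suma_rev_ne hf d hd
    · intro d hd
      rw [mem_filter, mem_product, mem_filter] at hd ⊢
      have h3 : c d.1 = c (tip d) := by
        by_contra hc
        exact hd.2 hc
      have h4 : c (tip d) ≠ o := by
        rw [← h3]
        exact hd.1.1.2
      refine ⟨⟨⟨hin _ h4, h4⟩, mem_univ _⟩, ?_⟩
      rw [isCut_rev]
      exact hd.2
    · intro d _
      exact rev_rev d
  have h3 : (((box n).filter (fun x => c x ≠ o)) ×ˢ (univ : Finset (Fin 6))).filter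
      (fun d => IsCut c d) = (darts c n).filter (fun d => ¬ c d.1 = o) := by
    ext d
    rw [mem_filter, mem_filter, mem_product, mem_filter, mem_darts h]
    constructor
    · intro hd
      exact ⟨hd.2, hd.1.1.2⟩
    · intro hd
      exact ⟨⟨⟨hin _ hd.2, hd.2⟩, mem_univ _⟩, hd.1⟩
  rw [h2, add_zero, h3]
  have h4 := suma_all h f hf
  rw [← sum_filter_add_sum_filter_not (darts c n) (fun d => c d.1 = o)] at h4
  linarith

theorem flux_set {X : ℂ → ℂ} {M : ℝ} (hX : Fld X M) (G : Net) {c : V → ι} {o : ι} {n : ℕ}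
    (h : OutBox c o n) {S : Finset V} {W W' : ι} (hW : W ≠ W')
    (hout : ∀ x k, x ∈ S → x + dir k ∉ S → c x = W ∧ c (x + dir k) = W') :
    ∑ x ∈ S, ∑ k, fd X G (x, k) ≤ cut G c n W W' := by
  have h1 : ∑ x ∈ S, ∑ k, fd X G (x, k) =
      ∑ d ∈ S ×ˢ (univ : Finset (Fin 6)), fd X G d := by
    rw [sum_product]
  rw [h1, ← sum_filter_add_sum_filter_not (S ×ˢ (univ : Finset (Fin 6))) (fun d => tip d ∈ S)]
  have h2 : ∑ d ∈ (S ×ˢ (univ : Finset (Fin 6))).filter (fun d => tip d ∈ S), fd X G d = 0 := by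
    refine sum_involution (fun d _ => rev d) ?_ ?_ ?_ ?_
    · intro d _
      rw [fd_rev]
      ring
    · intro d _ hd
      exact suma_rev_ne (fd_rev X G) d hd
    · intro d hd
      rw [mem_filter, mem_product] at hd ⊢
      refine ⟨⟨hd.2, mem_univ _⟩, ?_⟩
      rw [tip_rev]
      exact hd.1.1
    · intro d _
      exact rev_rev d
  rw [h2, zero_add]
  have h3 : ∑ d ∈ (S ×ˢ (univ : Finset (Fin 6))).filter (fun d => ¬ tip d ∈ S), fd X G d ≤
      ∑ d ∈ (S ×ˢ (univ : Finset (Fin 6))).filter (fun d => ¬ tip d ∈ S), G.w d :=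
    sum_le_sum fun d _ => (le_abs_self _).trans (fd_le hX G d)
  refine h3.trans ?_
  unfold cut
  refine sum_le_sum_of_subset_of_nonneg ?_ fun d _ _ => w_nonneg G d
  intro d hd
  rw [mem_filter, mem_product] at hd
  obtain ⟨e1, e2⟩ := hout d.1 d.2 hd.1.1 hd.2
  rw [mem_filter, mem_darts h]
  refine ⟨?_, e1, e2⟩
  show c d.1 ≠ c (tip d)
  have e3 : c (tip d) = W' := e2
  rw [e1, e3]
  exact hW

end Pool.Agent.Helper98.HX
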