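import Pool.Agent.Helper98.HX.Gmin
import Pool.Agent.Helper98.HX.SumA
import Pool.Agent.Helper98.LC.B.LoopCut

/-!
# HX-05: no loops

`loop_set` (`Helper98/LC/B/LoopSet.lean`) gives `S ⊆ box n`, `W ≠ o`, `W'`; as in `loop_cut` (`LoopCut.lean`; copy the private `lc_iso`): `4 π A0 a ≤ cut²`, `a = ar W`, so `5.7 √a ≤ cut` (`nlt_const` in
`LC3/P/NoLoop10.lean`).
* `W' ≠ o`: `Minimal.inner`: `2 cut < 6 min 1 a`: impossible (as in `no_loop10`).
* `W' = o`: `gminH_outer`: `2 cut < 6 min 1 a + 2 c0 gW`, `gW = ∑_{c x = W} g x ≤ ∑_{x ∈ S} g x ≤ ∑_{x ∈ S} ∑ k fd + δ ≤ cut + δ` (`g ≥ 0`, `Wt.flux`, `flux_set`), and `2 c0 gW ≤ 4 c0 M A0 a ≤ a/10`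
  (`c0 ≤ .5236`, `A0 ≤ 2.6`, `60 M ≤ 1`).  `2 c0 ≤ 1.0472`.  `a ≤ 1`: `11.4 √a ≤ 2 cut < 6.1 a ≤ 6.1 √a`.  `1 ≤ a ≤ 25`: `11.4 √a < 6 + a/10 ≤ 6 + √a/2`.  `a ≥ 25`: `.9528 cut < 6 + 1.05 δ` and `cut ≥ 28.5`.
-/

namespace Pool.Agent.Helper98.HX

open Finset Real Pool.Agent.Helper98.LC
open Pool.Agent.Helper98.LC3 (c0 ncl)

variable {ι : Type} [DecidableEq ι]

private theorem nh_ar_nonneg (G : Net) (c : V → ι) (n : ℕ) (i : ι) :
    0 ≤ ar G c n i := by
  unfold ar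
  refine div_nonneg (sum_nonneg fun x _ => G.area_nonneg x) ?_
  unfold A0
  positivity

private theorem nh_const : (32.49 : ℝ) ≤ 4 * π * A0 := by
  unfold A0
  have h1 : (3.14 : ℝ) < π := Real.pi_gt_d2
  have h2 : (1.73 : ℝ) ≤ √3 := by
    refine Real.le_sqrt_of_sq_le ?_
    norm_num
  nlinarith

private theorem nh_A0_pos : 0 < A0 := by
  unfold A0
  positivity

private theorem nh_A0_le : A0 ≤ 2.6 := by
  unfold A0
  have h2 : √3 ≤ (1.7321 : ℝ) := by
    refine Real.sqrt_le_iff.2 ⟨by norm_num, ?_⟩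
    norm_num
  linarith

private theorem nh_c0_nonneg : 0 ≤ c0 := by
  unfold c0
  positivity

private theorem nh_c0_le : 2 * c0 ≤ 1.0472 := by
  unfold c0
  have h1 : π < (3.1416 : ℝ) := Real.pi_lt_d4
  linarith

private theorem nh_iso (G : Net) (c : V → ι) {n : ℕ} {S : Finset V} (hS : S ⊆ LC.box n) {W : ι}
    (hW : ∀ x ∈ LC.box n, c x = W → x ∈ S) {D : Finset (V × Fin 6)}
    (hD : ∀ x k, x ∈ S → x + dir k ∉ S → (x, k) ∈ D) :
    4 * π * (A0 * ar G c n W) ≤ (∑ d ∈ D, G.w d) ^ 2 := by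
  have h1 := iso_set G S n hS
  have h2 : A0 * ar G c n W ≤ ∑ x ∈ S, G.al x := by
    unfold ar
    rw [mul_div_cancel₀ _ nh_A0_pos.ne']
    refine sum_le_sum_of_subset_of_nonneg (fun x hx => ?_) fun x _ _ => G.area_nonneg x
    rw [mem_filter] at hx
    exact hW x hx.1 hx.2
  have h3 : ∑ d ∈ (S ×ˢ (univ : Finset (Fin 6))).filter (fun d => tip d ∉ S), G.w d ≤
      ∑ d ∈ D, G.w d := by
    refine sum_le_sum_of_subset_of_nonneg (fun d hd => ?_) fun d _ _ => w_nonneg G d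
    rw [mem_filter, mem_product] at hd
    exact hD d.1 d.2 hd.1.1 hd.2
  have h4 : 0 ≤ ∑ d ∈ (S ×ˢ (univ : Finset (Fin 6))).filter (fun d => tip d ∉ S), G.w d :=
    sum_nonneg fun d _ => w_nonneg G d
  calc 4 * π * (A0 * ar G c n W) ≤ 4 * π * ∑ x ∈ S, G.al x :=
        mul_le_mul_of_nonneg_left h2 (by positivity)
    _ ≤ _ := h1
    _ ≤ _ := pow_le_pow_left₀ h4 h3 2

/-- The final inequality. -/
private theorem nh_real {a k T : ℝ} (ha : 0 ≤ a) (hk : 0 ≤ k) (h1 : 32.49 * a ≤ k ^ 2)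
    (hT1 : T ≤ a / 10) (hT2 : T ≤ 1.0472 * (k + 1 / 20)) (h2 : 2 * k < 6 * min 1 a + T) :
    False := by
  set s := √a with hs
  have hs0 : 0 ≤ s := Real.sqrt_nonneg a
  have hs2 : s ^ 2 = a := Real.sq_sqrt ha
  have hks : 5.7 * s ≤ k := by
    refine le_of_sq_le_sq ?_ hk
    nlinarith
  rcases le_total a 1 with h3 | h3
  · have h4 : s ≤ 1 := by
      rw [hs]
      exact Real.sqrt_le_one.2 h3
    have h5 : a ≤ s := by nlinarith
    have h6 : min 1 a ≤ a := min_le_right _ _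
    linarith
  · have h4 : 1 ≤ s := by
      rw [hs]
      exact Real.one_le_sqrt.2 h3
    have h6 : min 1 a ≤ 1 := min_le_left _ _
    rcases le_total s 5 with h8 | h8
    · have h9 : a ≤ 5 * s := by nlinarith
      linarith
    · linarith

theorem noloopH [Fintype ι] {X : ℂ → ℂ} {M δ : ℝ} {G : Net} {c : V → ι} {o : ι} {n : ℕ}
    {g : V → ℝ} (hX : Fld X M) (hw : Wt X M G n g δ) (h : GMinH G c o n g) (hM : 60 * M ≤ 1)
    (hδ : δ ≤ 1 / 20) : NoLoop c := by
  by_contra hl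
  obtain ⟨S, W, W', hWo, hWW', hS, hWS, hout, hd⟩ := loop_set h.out h.conn hl
  have ht' : Touch c W W' := hd
  have ha : 0 ≤ ar G c n W := nh_ar_nonneg G c n W
  have hk : 0 ≤ cut G c n W W' := by
    unfold cut
    exact sum_nonneg fun d _ => w_nonneg G d
  have hb : 4 * π * (A0 * ar G c n W) ≤ (cut G c n W W') ^ 2 := by
    unfold cut
    refine nh_iso G c hS (fun x _ hx => hWS x hx) fun x k hx hk => ?_
    obtain ⟨h1, h2⟩ := hout x k hx hk
    rw [mem_filter, mem_darts h.out]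
    refine ⟨?_, h1, h2⟩
    change c x ≠ c (x + dir k)
    rw [h1, h2]
    exact hWW'
  have hk2 : 32.49 * ar G c n W ≤ (cut G c n W W') ^ 2 := by
    refine le_trans ?_ hb
    have := mul_le_mul_of_nonneg_right nh_const ha
    linarith
  by_cases hWo' : W' = o
  · subst hWo'
    have h5 := gminH_outer h hWo ht'
    have h6 := wt_class hw c W
    have hM0 := hX.nonneg
    have h7 : 4 * c0 * M * A0 ≤ 1 / 10 := by
      have h8 : 2 * c0 * (60 * M) ≤ 1.0472 * 1 :=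
        mul_le_mul nh_c0_le hM (by linarith) (by norm_num)
      have h9 : 2 * c0 * (60 * M) * A0 ≤ 1.0472 * 1 * 2.6 :=
        mul_le_mul h8 nh_A0_le nh_A0_pos.le (by norm_num)
      nlinarith
    have h8 : 4 * c0 * M * A0 * ar G c n W ≤ 1 / 10 * ar G c n W :=
      mul_le_mul_of_nonneg_right h7 ha
    set gW := ∑ x ∈ (box n).filter (fun x => c x = W), g x with hgW
    have h9 : gW ≤ ∑ x ∈ S, g x := by
      refine sum_le_sum_of_subset_of_nonneg (fun x hx => ?_) fun x _ _ => hw.nonneg x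
      rw [mem_filter] at hx
      exact hWS x hx.2
    have h10 : ∑ x ∈ S, g x ≤ ∑ x ∈ S, ∑ k, fd X G (x, k) + δ := by
      have h11 : ∑ x ∈ S, |∑ k, fd X G (x, k) - g x| ≤ δ :=
        (sum_le_sum_of_subset_of_nonneg hS fun x _ _ => abs_nonneg _).trans hw.flux
      have h12 : ∑ x ∈ S, g x - ∑ x ∈ S, ∑ k, fd X G (x, k) ≤
          ∑ x ∈ S, |∑ k, fd X G (x, k) - g x| := by
        rw [← sum_sub_distrib]
        refine sum_le_sum fun x _ => ?_
        rw [abs_sub_comm]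
        exact le_abs_self _
      linarith
    have h11 := flux_set hX G h.out hWW' hout
    have h12 : 0 ≤ gW := sum_nonneg fun x _ => hw.nonneg x
    have h13 : 2 * c0 * gW ≤ 1.0472 * (cut G c n W W' + 1 / 20) := by
      refine mul_le_mul nh_c0_le (by linarith) h12 (by norm_num)
    refine nh_real ha hk hk2 (T := 2 * c0 * gW) ?_ h13 h5
    linarith
  · have h5 := (gminH_minimal h hw).inner W W' hWo hWo' ht'
    have h6 : min 1 (ar G c n W') ≤ min 1 (ar G c n W + ar G c n W') :=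
      min_le_min_left 1 (by linarith)
    refine nh_real ha hk hk2 (T := 0) (by positivity) (by positivity) ?_
    linarith

end Pool.Agent.Helper98.HX
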